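import Mathlib

/-!
# Uniform probability on finite boxes (module BOX)

`pr L Q` is the proportion of the functions `v` with `v a < L a` for all `a` which satisfy `Q`.
-/

set_option autoImplicit false

namespace Pool.Agent.RPert

open Finset

/-- number of ordered representations of `n` as a sum of two elements of `A` -/
noncomputable def rep (A : Set ℕ) (n : ℕ) : ℕ :=
  Set.ncard {p : ℕ × ℕ | p.1 ∈ A ∧ p.2 ∈ A ∧ p.1 + p.2 = n}

/-- proportion of the functions `v` with `v a < L a` for all `a` which satisfy `Q` -/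
noncomputable def pr {ι : Type} [Fintype ι] (L : ι → ℕ) (Q : (ι → ℕ) → Prop) : ℝ :=
  (Set.ncard {v : ι → ℕ | (∀ a, v a < L a) ∧ Q v} : ℝ) / ∏ a, (L a : ℝ)

variable {ι : Type} [Fintype ι] {L : ι → ℕ} {Q Q' : (ι → ℕ) → Prop}

private theorem rep_finite (A : Set ℕ) (n : ℕ) :
    {p : ℕ × ℕ | p.1 ∈ A ∧ p.2 ∈ A ∧ p.1 + p.2 = n}.Finite := by
  refine Set.Finite.subset ((Set.finite_Iic n).prod (Set.finite_Iic n)) ?_
  rintro ⟨x, y⟩ ⟨_, _, h⟩
  simp only at h
  exact ⟨by simp only [Set.mem_Iic]; omega, by simp only [Set.mem_Iic]; omega⟩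

/-- BOX. The set of the representations is finite, so `rep` is monotone. -/
theorem rep_mono {A B : Set ℕ} (h : A ⊆ B) (n : ℕ) : rep A n ≤ rep B n := by
  refine Set.ncard_le_ncard ?_ (rep_finite B n)
  rintro p ⟨h1, h2, h3⟩
  exact ⟨h h1, h h2, h3⟩

/-- BOX. A list of `K` different representations. -/
theorem le_rep {A : Set ℕ} {n K : ℕ} (u w : Fin K → ℕ) (hu : ∀ s, u s ∈ A) (hw : ∀ s, w s ∈ A)
    (hs : ∀ s, u s + w s = n) (hinj : Function.Injective u) : K ≤ rep A n := by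
  have h1 : Function.Injective fun s => (u s, w s) := by
    intro s s' h
    exact hinj (congrArg Prod.fst h)
  have h2 : Set.range (fun s => (u s, w s)) ⊆ {p : ℕ × ℕ | p.1 ∈ A ∧ p.2 ∈ A ∧ p.1 + p.2 = n} := by
    rintro _ ⟨s, rfl⟩
    exact ⟨hu s, hw s, hs s⟩
  have h3 := Set.ncard_le_ncard h2 (rep_finite A n)
  have h4 : (Set.range fun s => (u s, w s)).ncard = K := by
    rw [← Set.image_univ, Set.ncard_image_of_injective _ h1, Set.ncard_univ, Nat.card_eq_fintype_card,
      Fintype.card_fin]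
  rw [h4] at h3
  exact h3

theorem box_finite (L : ι → ℕ) (Q : (ι → ℕ) → Prop) :
    {v : ι → ℕ | (∀ a, v a < L a) ∧ Q v}.Finite := by
  classical
  refine Set.Finite.subset (Fintype.piFinset fun a => range (L a)).finite_toSet ?_
  rintro v ⟨hv, _⟩
  rw [Finset.mem_coe, Fintype.mem_piFinset]
  exact fun a => mem_range.2 (hv a)

/-- BOX. `Fintype.piFinset`, `Fintype.card_piFinset`. -/
theorem box_card (L : ι → ℕ) : Set.ncard {v : ι → ℕ | ∀ a, v a < L a} = ∏ a, L a := by
  classical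
  have h : {v : ι → ℕ | ∀ a, v a < L a} = (Fintype.piFinset fun a => range (L a) : Finset (ι → ℕ)) := by
    ext v
    simp
  rw [h, Set.ncard_coe_finset, Fintype.card_piFinset]
  simp

private theorem box_card' (L : ι → ℕ) :
    Set.ncard {v : ι → ℕ | (∀ a, v a < L a) ∧ True} = ∏ a, L a := by
  simp only [and_true]
  exact box_card L

private theorem prod_nonneg' : (0 : ℝ) ≤ ∏ a, (L a : ℝ) := Finset.prod_nonneg fun _ _ => Nat.cast_nonneg _

theorem pr_nonneg : 0 ≤ pr L Q := div_nonneg (Nat.cast_nonneg _) prod_nonneg'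

theorem pr_mono (h : ∀ v, (∀ a, v a < L a) → Q v → Q' v) : pr L Q ≤ pr L Q' := by
  unfold pr
  refine div_le_div_of_nonneg_right ?_ prod_nonneg'
  have h1 : {v : ι → ℕ | (∀ a, v a < L a) ∧ Q v} ⊆ {v : ι → ℕ | (∀ a, v a < L a) ∧ Q' v} :=
    fun v hv => ⟨hv.1, h v hv.1 hv.2⟩
  exact_mod_cast Set.ncard_le_ncard h1 (box_finite L Q')

theorem pr_true (hL : ∀ a, 0 < L a) : pr L (fun _ => True) = 1 := by
  unfold pr
  rw [box_card']
  push_cast
  exact div_self (Finset.prod_pos fun a _ => by exact_mod_cast hL a).ne'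

theorem pr_le_one : pr L Q ≤ 1 := by
  refine (pr_mono (Q' := fun _ => True) fun v _ _ => trivial).trans ?_
  unfold pr
  rw [box_card']
  push_cast
  exact div_self_le_one _

theorem pr_or : pr L (fun v => Q v ∨ Q' v) ≤ pr L Q + pr L Q' := by
  unfold pr
  rw [← add_div]
  refine div_le_div_of_nonneg_right ?_ prod_nonneg'
  have h : {v : ι → ℕ | (∀ a, v a < L a) ∧ (Q v ∨ Q' v)} =
      {v : ι → ℕ | (∀ a, v a < L a) ∧ Q v} ∪ {v : ι → ℕ | (∀ a, v a < L a) ∧ Q' v} := by
    ext v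
    simp only [Set.mem_ofPred_eq, Set.mem_union]
    tauto
  rw [h]
  exact_mod_cast Set.ncard_union_le _ _

theorem pr_not (hL : ∀ a, 0 < L a) : pr L (fun v => ¬ Q v) = 1 - pr L Q := by
  have h1 : pr L (fun v => ¬ Q v) + pr L Q = pr L (fun _ => True) := by
    unfold pr
    rw [← add_div]
    congr 1
    have h : {v : ι → ℕ | (∀ a, v a < L a) ∧ True} =
        {v : ι → ℕ | (∀ a, v a < L a) ∧ ¬ Q v} ∪ {v : ι → ℕ | (∀ a, v a < L a) ∧ Q v} := by
      ext v
      simp only [Set.mem_ofPred_eq, Set.mem_union]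
      tauto
    rw [h, Set.ncard_union_eq ?_ (box_finite _ _) (box_finite _ _)]
    · push_cast
      rfl
    · rw [Set.disjoint_left]
      rintro v ⟨_, h1⟩ ⟨_, h2⟩
      exact h1 h2
  rw [pr_true hL] at h1
  linarith

/-- the points of a box which satisfy `Q`, as a finset -/
private noncomputable def bf (L : ι → ℕ) (Q : (ι → ℕ) → Prop) : Finset (ι → ℕ) :=
  (box_finite L Q).toFinset

private theorem mem_bf {v : ι → ℕ} : v ∈ bf L Q ↔ (∀ a, v a < L a) ∧ Q v := by
  simp [bf]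

private theorem pr_bf : pr L Q = ((bf L Q).card : ℝ) / ∏ a, (L a : ℝ) := by
  unfold pr
  rw [Set.ncard_eq_toFinset_card _ (box_finite L Q)]
  rfl

/-- BOX. Markov: double counting of the pairs `(v, j)` with `j ∈ J` and `R j v`. -/
theorem pr_markov {κ : Type} (J : Finset κ) (R : κ → (ι → ℕ) → Prop) (M : ℕ)
    (h : ∀ v, (∀ a, v a < L a) → Q v → M ≤ Set.ncard {j | j ∈ J ∧ R j v}) :
    M * pr L Q ≤ ∑ j ∈ J, pr L (R j) := by
  classical
  simp only [pr_bf]
  rw [← Finset.sum_div, ← mul_div_assoc]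
  refine div_le_div_of_nonneg_right ?_ prod_nonneg'
  have h1 : ∀ v ∈ bf L Q, M ≤ (J.filter fun j => R j v).card := by
    intro v hv
    obtain ⟨hv1, hv2⟩ := mem_bf.1 hv
    have h2 := h v hv1 hv2
    have h3 : {j | j ∈ J ∧ R j v} = ((J.filter fun j => R j v : Finset κ) : Set κ) := by
      ext j
      simp
    rw [h3, Set.ncard_coe_finset] at h2
    exact h2
  have h2 : (bf L Q).card * M ≤ ∑ v ∈ bf L Q, (J.filter fun j => R j v).card := by
    rw [← smul_eq_mul, ← Finset.sum_const]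
    exact Finset.sum_le_sum h1
  have h3 : ∑ v ∈ bf L Q, (J.filter fun j => R j v).card =
      ∑ j ∈ J, ((bf L Q).filter fun v => R j v).card := by
    simp only [Finset.card_filter]
    exact Finset.sum_comm
  have h4 : ∑ j ∈ J, ((bf L Q).filter fun v => R j v).card ≤ ∑ j ∈ J, (bf L (R j)).card := by
    refine Finset.sum_le_sum fun j _ => Finset.card_le_card ?_
    intro v hv
    obtain ⟨hv1, hv2⟩ := Finset.mem_filter.1 hv
    exact mem_bf.2 ⟨(mem_bf.1 hv1).1, hv2⟩
  have h5 : M * (bf L Q).card ≤ ∑ j ∈ J, (bf L (R j)).card := by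
    rw [mul_comm]
    exact h2.trans (h3.le.trans h4)
  exact_mod_cast h5

/-- BOX. Disjoint events. -/
theorem pr_sum_le {κ : Type} (J : Finset κ) (R : κ → (ι → ℕ) → Prop)
    (h : ∀ j ∈ J, ∀ v, (∀ a, v a < L a) → R j v → Q v)
    (hd : ∀ j ∈ J, ∀ j' ∈ J, ∀ v, R j v → R j' v → j = j') :
    ∑ j ∈ J, pr L (R j) ≤ pr L Q := by
  classical
  simp only [pr_bf]
  rw [← Finset.sum_div]
  refine div_le_div_of_nonneg_right ?_ prod_nonneg'
  have h1 : ∑ j ∈ J, (bf L (R j)).card = (J.biUnion fun j => bf L (R j)).card := by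
    rw [Finset.card_biUnion]
    intro j hj j' hj' hne
    rw [Function.onFun, Finset.disjoint_left]
    intro v hv hv'
    exact hne (hd j hj j' hj' v (mem_bf.1 hv).2 (mem_bf.1 hv').2)
  have h2 : (J.biUnion fun j => bf L (R j)) ⊆ bf L Q := by
    intro v hv
    obtain ⟨j, hj, hv⟩ := Finset.mem_biUnion.1 hv
    exact mem_bf.2 ⟨(mem_bf.1 hv).1, h j hj v (mem_bf.1 hv).1 (mem_bf.1 hv).2⟩
  have h3 := Finset.card_le_card h2
  rw [← h1] at h3
  exact_mod_cast h3

/-- BOX. Independence: `Q` depends only on the coordinates in `S`, `Q'` only on the others. Proof: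
`(v, w) ↦ (v on S and w outside, w on S and v outside)` is an involution, which maps
`{Q ∧ Q'} × {box}` onto `{Q} × {Q'}`. -/
theorem pr_and (hL : ∀ a, 0 < L a) (S : Finset ι)
    (hQ : ∀ v w : ι → ℕ, (∀ a ∈ S, v a = w a) → Q v → Q w)
    (hQ' : ∀ v w : ι → ℕ, (∀ a, a ∉ S → v a = w a) → Q' v → Q' w) :
    pr L (fun v => Q v ∧ Q' v) = pr L Q * pr L Q' := by
  classical
  have hP : (0 : ℝ) < ∏ a, (L a : ℝ) := Finset.prod_pos fun a _ => by exact_mod_cast hL a
  have hmix : ∀ v w : ι → ℕ, (∀ a, v a < L a) → (∀ a, w a < L a) →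
      ∀ a, (if a ∈ S then v a else w a) < L a := by
    intro v w hv hw a
    by_cases ha : a ∈ S
    · rw [if_pos ha]; exact hv a
    · rw [if_neg ha]; exact hw a
  have h1 : ((bf L fun v => Q v ∧ Q' v) ×ˢ bf L fun _ => True).card =
      (bf L Q ×ˢ bf L Q').card := by
    refine Finset.card_bij'
      (fun p _ => ((fun a => if a ∈ S then p.1 a else p.2 a),
        (fun a => if a ∈ S then p.2 a else p.1 a)))
      (fun p _ => ((fun a => if a ∈ S then p.1 a else p.2 a),
        (fun a => if a ∈ S then p.2 a else p.1 a))) ?_ ?_ ?_ ?_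
    · rintro ⟨v, w⟩ hp
      obtain ⟨h1, h2⟩ := Finset.mem_product.1 hp
      obtain ⟨hv, hq, hq'⟩ := mem_bf.1 h1
      obtain ⟨hw, _⟩ := mem_bf.1 h2
      refine Finset.mem_product.2 ⟨mem_bf.2 ⟨hmix v w hv hw, ?_⟩,
        mem_bf.2 ⟨hmix w v hw hv, ?_⟩⟩
      · exact hQ v _ (fun a ha => by simp only; rw [if_pos ha]) hq
      · exact hQ' v _ (fun a ha => by simp only; rw [if_neg ha]) hq'
    · rintro ⟨v, w⟩ hp
      obtain ⟨h1, h2⟩ := Finset.mem_product.1 hp
      obtain ⟨hv, hq⟩ := mem_bf.1 h1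
      obtain ⟨hw, hq'⟩ := mem_bf.1 h2
      refine Finset.mem_product.2 ⟨mem_bf.2 ⟨hmix v w hv hw, ?_, ?_⟩,
        mem_bf.2 ⟨hmix w v hw hv, trivial⟩⟩
      · exact hQ v _ (fun a ha => by simp only; rw [if_pos ha]) hq
      · exact hQ' w _ (fun a ha => by simp only; rw [if_neg ha]) hq'
    · rintro ⟨v, w⟩ _
      refine Prod.ext (funext fun a => ?_) (funext fun a => ?_)
      · by_cases ha : a ∈ S <;> simp [ha]
      · by_cases ha : a ∈ S <;> simp [ha]
    · rintro ⟨v, w⟩ _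
      refine Prod.ext (funext fun a => ?_) (funext fun a => ?_)
      · by_cases ha : a ∈ S <;> simp [ha]
      · by_cases ha : a ∈ S <;> simp [ha]
  rw [Finset.card_product, Finset.card_product] at h1
  have h2 : ((bf L fun _ => True).card : ℝ) = ∏ a, (L a : ℝ) := by
    have h3 := pr_true hL
    rw [pr_bf, div_eq_one_iff_eq hP.ne'] at h3
    exact h3
  have h3 : ((bf L fun v => Q v ∧ Q' v).card : ℝ) * ∏ a, (L a : ℝ) =
      (bf L Q).card * (bf L Q').card := by
    rw [← h2]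
    exact_mod_cast h1
  rw [pr_bf, pr_bf, pr_bf, div_mul_div_comm, div_eq_div_iff hP.ne' (mul_pos hP hP).ne', ← h3]
  ring

/-- BOX. Many independent events (induction with `pr_and`; `J` finite, the sets `S j` pairwise
disjoint). -/
theorem pr_forall {κ : Type} (hL : ∀ a, 0 < L a) (J : Finset κ) (S : κ → Finset ι)
    (hS : ∀ j ∈ J, ∀ j' ∈ J, j ≠ j' → Disjoint (S j) (S j')) (R : κ → (ι → ℕ) → Prop)
    (hR : ∀ j ∈ J, ∀ v w : ι → ℕ, (∀ a ∈ S j, v a = w a) → R j v → R j w) :
    pr L (fun v => ∀ j ∈ J, R j v) = ∏ j ∈ J, pr L (R j) := by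
  classical
  induction J using Finset.induction_on with
  | empty => simp [pr_true hL]
  | insert j0 J hj0 ih =>
    rw [Finset.prod_insert hj0, ← ih
      (fun j hj j' hj' => hS j (mem_insert_of_mem hj) j' (mem_insert_of_mem hj'))
      (fun j hj => hR j (mem_insert_of_mem hj)),
      ← pr_and (Q := R j0) (Q' := fun v => ∀ j ∈ J, R j v) hL (S j0)
        (hR j0 (mem_insert_self _ _)) ?_]
    · congr 1
      funext v
      rw [Finset.forall_mem_insert]
    · intro v w hvw hv j hj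
      refine hR j (mem_insert_of_mem hj) v w (fun a ha => hvw a fun ha' => ?_) (hv j hj)
      have h1 := hS j (mem_insert_of_mem hj) j0 (mem_insert_self _ _) (by
        rintro rfl
        exact hj0 hj)
      exact Finset.disjoint_left.1 h1 ha ha'

/-- BOX. Product sets: the coordinates `a ∈ S` lie in `G a ⊆ {0, ..., L a - 1}`. -/
theorem pr_prod (hL : ∀ a, 0 < L a) (S : Finset ι) (G : ι → Finset ℕ)
    (hG : ∀ a ∈ S, ∀ x ∈ G a, x < L a) :
    pr L (fun v => ∀ a ∈ S, v a ∈ G a) = ∏ a ∈ S, ((G a).card : ℝ) / L a := by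
  classical
  have hP : (0 : ℝ) < ∏ a, (L a : ℝ) := Finset.prod_pos fun a _ => by exact_mod_cast hL a
  have h1 : bf L (fun v => ∀ a ∈ S, v a ∈ G a) =
      Fintype.piFinset fun a => if a ∈ S then G a else range (L a) := by
    ext v
    rw [mem_bf, Fintype.mem_piFinset]
    constructor
    · rintro ⟨h1, h2⟩ a
      by_cases ha : a ∈ S
      · rw [if_pos ha]; exact h2 a ha
      · rw [if_neg ha]; exact mem_range.2 (h1 a)
    · intro h
      refine ⟨fun a => ?_, fun a ha => ?_⟩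
      · have h1 := h a
        by_cases ha : a ∈ S
        · rw [if_pos ha] at h1; exact hG a ha _ h1
        · rw [if_neg ha] at h1; exact mem_range.1 h1
      · have h1 := h a
        rw [if_pos ha] at h1
        exact h1
  rw [pr_bf, h1, Fintype.card_piFinset, div_eq_iff hP.ne']
  push_cast
  have h2 : ∏ a ∈ S, ((G a).card : ℝ) / L a = ∏ a, if a ∈ S then ((G a).card : ℝ) / L a else 1 := by
    rw [Finset.prod_ite_mem, Finset.univ_inter]
  rw [h2, ← Finset.prod_mul_distrib]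
  refine Finset.prod_congr rfl fun a _ => ?_
  have hLa : (L a : ℝ) ≠ 0 := by exact_mod_cast (hL a).ne'
  by_cases ha : a ∈ S
  · rw [if_pos ha, if_pos ha, div_mul_cancel₀ _ hLa]
  · rw [if_neg ha, if_neg ha, one_mul, card_range]

end Pool.Agent.RPert
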