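import Pool.Agent.RPert.Box

/-!
# Cutting a box into small cells (module CELL)
-/

set_option autoImplicit false

namespace Pool.Agent.RPert

open Finset

private theorem cell_sum (m k H : ℕ) (hk : 1 ≤ k) (hH : m * k ≤ H) :
    ∑ j ∈ Finset.range k, (if j < k - 1 then m else H - m * j) = H := by
  obtain ⟨k, rfl⟩ := Nat.exists_eq_add_of_le' hk
  rw [Finset.sum_range_succ]
  have h1 : ∑ j ∈ Finset.range k, (if j < k + 1 - 1 then m else H - m * j) = k * m := by
    rw [Finset.sum_congr rfl (g := fun _ => m), Finset.sum_const, Finset.card_range, smul_eq_mul]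
    intro j hj
    rw [Finset.mem_range] at hj
    rw [if_pos (by omega)]
  rw [h1, if_neg (by omega)]
  have h2 : m * k ≤ H := le_trans (Nat.mul_le_mul_left _ (by omega)) hH
  rw [Nat.mul_comm k m]
  omega

/-- the cell of `y` and its length -/
private theorem cell_len (m H y : ℕ) (hm : 0 < m) (hH : m ≤ H) (hy : y < H) (u : ℕ)
    (hu : u = min (y / m) (H / m - 1)) :
    m * u ≤ y ∧ y - m * u < (if u < H / m - 1 then m else H - m * u) := by
  have hk : 1 ≤ H / m := (Nat.one_le_div_iff hm).mpr hH
  rcases Nat.lt_or_ge (y / m) (H / m - 1) with h | h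
  · have h1 : u = y / m := by omega
    rw [h1, if_pos h]
    have h2 := Nat.mul_div_le y m
    have h3 := Nat.lt_mul_div_succ y hm
    rw [Nat.mul_succ] at h3
    exact ⟨h2, by omega⟩
  · have h1 : u = H / m - 1 := by omega
    rw [if_neg (by omega)]
    have h2 : m * u ≤ y := by
      rw [h1]
      exact (Nat.mul_le_mul_left m h).trans (Nat.mul_div_le y m)
    exact ⟨h2, by omega⟩

private theorem cell_bd (m H u : ℕ) (hm : 0 < m) (hH : m ≤ H) (hu : u < H / m) :
    m ≤ (if u < H / m - 1 then m else H - m * u) ∧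
      (if u < H / m - 1 then m else H - m * u) < 2 * m ∧
      m * u + (if u < H / m - 1 then m else H - m * u) ≤ H := by
  have h1 := Nat.mul_div_le H m
  have h2 := Nat.lt_mul_div_succ H hm
  rw [Nat.mul_succ] at h2
  split_ifs with h
  · refine ⟨le_rfl, by omega, ?_⟩
    have h3 : m * (u + 1) ≤ m * (H / m) := Nat.mul_le_mul_left m (by omega)
    rw [Nat.mul_succ] at h3
    omega
  · have h4 : u + 1 = H / m := by omega
    rw [← h4, Nat.mul_succ] at h1 h2
    exact ⟨by omega, by omega, by omega⟩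

/-- CELL. Cut `{0, ..., H a - 1}` into consecutive intervals of length `m`, except the last, whose
length is in `[m, 2 m)`: the cell of `y` is `u = min (y / m) (H a / m - 1)`, the offset is
`c = m u`, the length is `m` if `u < H a / m - 1` and `H a - m u` otherwise. The box of `H` is the
disjoint union over `u ∈ ∏ {0, ..., H a / m - 1}` of the boxes `c + box L`, so the number of bad
points is at most `Σ_u η ∏ L = η ∏ H` (`Finset.card_eq_sum_card_fiberwise`,
`Finset.prod_univ_sum`; or change one coordinate after the other, by induction over a finite set of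
coordinates). -/
theorem pr_cells {ι : Type} [Fintype ι] (m : ℕ) (hm : 0 < m) (H : ι → ℕ) (hH : ∀ a, m ≤ H a)
    (Q : (ι → ℕ) → Prop) (η : ℝ)
    (h : ∀ c L : ι → ℕ, (∀ a, m ≤ L a ∧ L a < 2 * m ∧ c a + L a ≤ H a) →
      pr L (fun v => Q fun a => c a + v a) ≤ η) : pr H Q ≤ η := by
  classical
  have hHpos : ∀ a, 0 < H a := fun a => lt_of_lt_of_le hm (hH a)
  have hprod : (0 : ℝ) < ∏ a, (H a : ℝ) := Finset.prod_pos fun a _ => by exact_mod_cast hHpos a
  set Ln : (ι → ℕ) → ι → ℕ := fun u a => if u a < H a / m - 1 then m else H a - m * u a with hLn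
  have hcell : ∀ u ∈ Fintype.piFinset (fun a => Finset.range (H a / m)),
      (Set.ncard {v : ι → ℕ | (∀ a, v a < Ln u a) ∧ Q fun a => m * u a + v a} : ℝ) ≤
        η * ∏ a, (Ln u a : ℝ) := by
    intro u hu
    rw [Fintype.mem_piFinset] at hu
    have h1 : ∀ a, m ≤ Ln u a ∧ Ln u a < 2 * m ∧ m * u a + Ln u a ≤ H a := fun a =>
      cell_bd m (H a) (u a) hm (hH a) (Finset.mem_range.mp (hu a))
    have h2 := h (fun a => m * u a) (Ln u) h1
    have h3 : (0 : ℝ) < ∏ a, (Ln u a : ℝ) := Finset.prod_pos fun a _ => by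
      exact_mod_cast lt_of_lt_of_le hm (h1 a).1
    unfold pr at h2
    rwa [div_le_iff₀ h3] at h2
  set B : Finset (ι → ℕ) := (box_finite H Q).toFinset with hB
  have hBm : ∀ v, v ∈ B ↔ (∀ a, v a < H a) ∧ Q v := fun v => by simp [hB]
  set f : (ι → ℕ) → (ι → ℕ) := fun v a => min (v a / m) (H a / m - 1) with hf
  have hmaps : ∀ v ∈ B, f v ∈ Fintype.piFinset (fun a => Finset.range (H a / m)) := by
    intro v _
    rw [Fintype.mem_piFinset]
    intro a
    rw [Finset.mem_range]
    have hk : 1 ≤ H a / m := (Nat.one_le_div_iff hm).mpr (hH a)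
    simp only [hf]
    omega
  have hcard : B.card ≤ ∑ u ∈ Fintype.piFinset (fun a => Finset.range (H a / m)),
      Set.ncard {v : ι → ℕ | (∀ a, v a < Ln u a) ∧ Q fun a => m * u a + v a} := by
    rw [Finset.card_eq_sum_card_fiberwise hmaps]
    refine Finset.sum_le_sum fun u _ => ?_
    rw [Set.ncard_eq_toFinset_card _ (box_finite (Ln u) (fun v => Q fun a => m * u a + v a))]
    refine Finset.card_le_card_of_injOn (fun v a => v a - m * u a) ?_ ?_
    · intro v hv
      rw [Finset.mem_coe, Finset.mem_filter] at hv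
      obtain ⟨hvB, hvu⟩ := hv
      obtain ⟨hv1, hv2⟩ := (hBm v).mp hvB
      have h1 : ∀ a, m * u a ≤ v a ∧ v a - m * u a < Ln u a := fun a =>
        cell_len m (H a) (v a) hm (hH a) (hv1 a) (u a) (by rw [← hvu])
      rw [Finset.mem_coe, Set.Finite.mem_toFinset]
      refine ⟨fun a => (h1 a).2, ?_⟩
      have h2 : (fun a => m * u a + (v a - m * u a)) = v := by
        funext a
        have := (h1 a).1
        omega
      show Q fun a => m * u a + (v a - m * u a)
      rw [h2]
      exact hv2
    · intro v hv v' hv' hvv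
      rw [Finset.mem_coe, Finset.mem_filter] at hv hv'
      obtain ⟨hvB, hvu⟩ := hv
      obtain ⟨hvB', hvu'⟩ := hv'
      obtain ⟨hv1, _⟩ := (hBm v).mp hvB
      obtain ⟨hv1', _⟩ := (hBm v').mp hvB'
      funext a
      have h1 := (cell_len m (H a) (v a) hm (hH a) (hv1 a) (u a) (by rw [← hvu])).1
      have h1' := (cell_len m (H a) (v' a) hm (hH a) (hv1' a) (u a) (by rw [← hvu'])).1
      have h2 : v a - m * u a = v' a - m * u a := congrFun hvv a
      omega
  have hsum : ∑ u ∈ Fintype.piFinset (fun a => Finset.range (H a / m)),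
      ∏ a, (Ln u a : ℝ) = ∏ a, (H a : ℝ) := by
    have h1 := Finset.prod_univ_sum (fun a => Finset.range (H a / m))
      (fun a j => ((if j < H a / m - 1 then m else H a - m * j : ℕ) : ℝ))
    rw [hLn]
    refine h1.symm.trans ?_
    refine Finset.prod_congr rfl fun a _ => ?_
    rw [← Nat.cast_sum, cell_sum m (H a / m) (H a) ((Nat.one_le_div_iff hm).mpr (hH a))
      (Nat.mul_div_le (H a) m)]
  have hfin : (B.card : ℝ) ≤ η * ∏ a, (H a : ℝ) := by
    calc (B.card : ℝ) ≤ ((∑ u ∈ Fintype.piFinset (fun a => Finset.range (H a / m)),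
          Set.ncard {v : ι → ℕ | (∀ a, v a < Ln u a) ∧ Q fun a => m * u a + v a} : ℕ) : ℝ) := by
          exact_mod_cast hcard
      _ ≤ ∑ u ∈ Fintype.piFinset (fun a => Finset.range (H a / m)), η * ∏ a, (Ln u a : ℝ) := by
          rw [Nat.cast_sum]
          exact Finset.sum_le_sum hcell
      _ = η * ∏ a, (H a : ℝ) := by rw [← Finset.mul_sum, hsum]
  unfold pr
  rw [Set.ncard_eq_toFinset_card _ (box_finite H Q), div_le_iff₀ hprod]
  exact hfin

end Pool.Agent.RPert
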