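import Pool.Agent.RPert.Box

/-!
# Clusters (modules CLU, PIG)
-/

set_option autoImplicit false

namespace Pool.Agent.RPert

open Finset

/-- CLU. A collision has probability at most `1 / m`: the map
`(v, s) ↦ Function.update v a s` from `{v | x a + v a = x b + v b} × {0, ..., m - 1}` into the box
is injective (`v a` is determined by the other coordinates). -/
theorem pr_collision {ι : Type} [Fintype ι] (x L : ι → ℕ) (m : ℕ) (hm : 0 < m)
    (hL : ∀ a, m ≤ L a) {a b : ι} (hab : a ≠ b) :
    pr L (fun v => x a + v a = x b + v b) ≤ 1 / m := by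
  classical
  have hL0 : ∀ c, 0 < L c := fun c => lt_of_lt_of_le hm (hL c)
  have hP : (0 : ℝ) < ∏ c, (L c : ℝ) := Finset.prod_pos fun c _ => by exact_mod_cast hL0 c
  have hm0 : (0 : ℝ) < m := by exact_mod_cast hm
  have h1 : Set.ncard ({v : ι → ℕ | (∀ c, v c < L c) ∧ x a + v a = x b + v b} ×ˢ
      ((range m : Finset ℕ) : Set ℕ)) ≤ Set.ncard {v : ι → ℕ | ∀ c, v c < L c} := by
    refine Set.ncard_le_ncard_of_injOn (fun p => Function.update p.1 a p.2) ?_ ?_ ?_
    · rintro ⟨v, s⟩ ⟨⟨hv, _⟩, hs⟩ c
      simp only [Finset.coe_range, Set.mem_Iio] at hs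
      by_cases hc : c = a
      · subst hc
        simp only [Function.update_self]
        exact lt_of_lt_of_le hs (hL c)
      · simp only [Function.update_of_ne hc]
        exact hv c
    · rintro ⟨v, s⟩ ⟨⟨_, hv⟩, _⟩ ⟨w, r⟩ ⟨⟨_, hw⟩, _⟩ h
      simp only at hv hw h
      have h2 : ∀ c, c ≠ a → v c = w c := by
        intro c hc
        have h3 := congrFun h c
        rwa [Function.update_of_ne hc, Function.update_of_ne hc] at h3
      have h3 : s = r := by
        have h4 := congrFun h a
        rwa [Function.update_self, Function.update_self] at h4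
      have h4 : v = w := by
        funext c
        by_cases hc : c = a
        · subst hc
          have h5 := h2 b (Ne.symm hab)
          omega
        · exact h2 c hc
      rw [h3, h4]
    · have h2 := box_finite L (fun _ => True)
      simpa using h2
  rw [Set.ncard_prod, Set.ncard_coe_finset, card_range, box_card] at h1
  unfold pr
  rw [div_le_div_iff₀ hP hm0, one_mul]
  exact_mod_cast h1

private theorem CLU_coll {ι : Type} [DecidableEq ι] (G : Finset ι) (f : ι → ℕ)
    (h : 2 * (G.image f).card ≤ G.card) :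
    G.card ≤ (G.offDiag.filter fun p => f p.1 = f p.2).card := by
  classical
  rcases G.eq_empty_or_nonempty with hG | ⟨a0, _⟩
  · simp [hG]
  have : Nonempty ι := ⟨a0⟩
  -- choose a representative of every value
  have hex : ∀ y ∈ G.image f, ∃ a ∈ G, f a = y := fun y hy => Finset.mem_image.1 hy
  choose! g hg1 hg2 using hex
  have hgf : ∀ a ∈ G, g (f a) ∈ G ∧ f (g (f a)) = f a := fun a ha =>
    ⟨hg1 _ (Finset.mem_image_of_mem f ha), hg2 _ (Finset.mem_image_of_mem f ha)⟩
  -- the elements which are not representatives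
  set N := G.filter fun a => g (f a) ≠ a with hN
  have hRle : (G.filter fun a => g (f a) = a).card ≤ (G.image f).card := by
    refine Finset.card_le_card_of_injOn f (fun a ha => ?_) ?_
    · exact Finset.mem_image_of_mem f (Finset.mem_filter.1 ha).1
    · intro a ha b hb hab
      have h1 := (Finset.mem_filter.1 ha).2
      have h2 := (Finset.mem_filter.1 hb).2
      rw [← h1, ← h2, hab]
  have hsum : (G.filter fun a => g (f a) = a).card + N.card = G.card :=
    Finset.card_filter_add_card_filter_not _
  have hNc : G.card ≤ 2 * N.card := by omega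
  -- two ordered pairs for each of them
  have h1 : (N.image fun a => (a, g (f a))) ∪ (N.image fun a => (g (f a), a)) ⊆
      G.offDiag.filter fun p => f p.1 = f p.2 := by
    intro p hp
    rcases Finset.mem_union.1 hp with hp | hp
    · obtain ⟨a, ha, rfl⟩ := Finset.mem_image.1 hp
      obtain ⟨ha1, ha2⟩ := Finset.mem_filter.1 ha
      exact Finset.mem_filter.2 ⟨Finset.mem_offDiag.2 ⟨ha1, (hgf a ha1).1, Ne.symm ha2⟩,
        (hgf a ha1).2.symm⟩
    · obtain ⟨a, ha, rfl⟩ := Finset.mem_image.1 hp
      obtain ⟨ha1, ha2⟩ := Finset.mem_filter.1 ha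
      exact Finset.mem_filter.2 ⟨Finset.mem_offDiag.2 ⟨(hgf a ha1).1, ha1, ha2⟩,
        (hgf a ha1).2⟩
  have h2 : Disjoint (N.image fun a => (a, g (f a))) (N.image fun a => (g (f a), a)) := by
    rw [Finset.disjoint_left]
    intro p hp hp'
    obtain ⟨a, ha, rfl⟩ := Finset.mem_image.1 hp
    obtain ⟨b, hb, hab⟩ := Finset.mem_image.1 hp'
    obtain ⟨ha1, ha2⟩ := Finset.mem_filter.1 ha
    obtain ⟨hb1, hb2⟩ := Finset.mem_filter.1 hb
    simp only [Prod.mk.injEq] at hab
    -- `a = g (f b)` is a representative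
    apply ha2
    have h3 : f a = f b := by rw [← hab.1]; exact (hgf b hb1).2
    rw [h3]
    exact hab.1
  have h3 := Finset.card_le_card h1
  rw [Finset.card_union_of_disjoint h2, Finset.card_image_of_injective _ (fun a b h => by
    simpa using congrArg Prod.fst h), Finset.card_image_of_injective _ (fun a b h => by
    simpa using congrArg Prod.snd h)] at h3
  omega

/-- CLU. If the values `x a + v a`, `a ∈ G`, are at most `#G / 2` different numbers, there are at
least `#G` ordered pairs `a ≠ b` in `G` with the same value; `pr_markov` with the `#G (#G - 1)`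
ordered pairs and `pr_collision`. -/
theorem pr_few {ι : Type} [Fintype ι] (x L : ι → ℕ) (m : ℕ) (hm : 0 < m) (hL : ∀ a, m ≤ L a)
    (G : Finset ι) (hG : G.Nonempty) :
    pr L (fun v => 2 * (G.image fun a => x a + v a).card ≤ G.card) ≤ G.card / m := by
  classical
  have hm0 : (0 : ℝ) < m := by exact_mod_cast hm
  have hc : (0 : ℝ) < G.card := by exact_mod_cast Finset.card_pos.2 hG
  have h1 := pr_markov (L := L) (Q := fun v => 2 * (G.image fun a => x a + v a).card ≤ G.card)
    G.offDiag (fun p v => x p.1 + v p.1 = x p.2 + v p.2) G.card (by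
      intro v _ hv
      have h2 := CLU_coll G (fun a => x a + v a) hv
      have h3 : {p : ι × ι | p ∈ G.offDiag ∧ x p.1 + v p.1 = x p.2 + v p.2} =
          ((G.offDiag.filter fun p => x p.1 + v p.1 = x p.2 + v p.2 : Finset (ι × ι)) :
            Set (ι × ι)) := by
        ext p
        simp
      rw [h3, Set.ncard_coe_finset]
      exact h2)
  have h2 : ∑ p ∈ G.offDiag, pr L (fun v => x p.1 + v p.1 = x p.2 + v p.2) ≤
      G.offDiag.card * (1 / (m : ℝ)) := by
    rw [← nsmul_eq_mul]
    refine Finset.sum_le_card_nsmul _ _ _ fun p hp => ?_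
    exact pr_collision x L m hm hL (Finset.mem_offDiag.1 hp).2.2
  have h3 : (G.offDiag.card : ℝ) ≤ G.card * G.card := by
    have : G.offDiag.card ≤ G.card * G.card := by
      rw [Finset.offDiag_card]
      exact Nat.sub_le _ _
    exact_mod_cast this
  have h4 : (G.card : ℝ) * pr L (fun v => 2 * (G.image fun a => x a + v a).card ≤ G.card) ≤
      G.card * (G.card / m) := by
    refine h1.trans (h2.trans ?_)
    calc (G.offDiag.card : ℝ) * (1 / (m : ℝ)) ≤ (G.card * G.card) * (1 / (m : ℝ)) :=
          mul_le_mul_of_nonneg_right h3 (by positivity)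
      _ = _ := by ring
  exact le_of_mul_le_mul_left h4 hc

/-- PIG. Pigeonhole: the sums of two elements of `S` lie in an interval of length `2 W`. -/
theorem pigeon {A : Set ℕ} (S : Finset ℕ) (hS : ∀ x ∈ S, x ∈ A) (y W K : ℕ)
    (hW : ∀ x ∈ S, y ≤ x ∧ x < y + W) (hK : K * (2 * W) ≤ S.card ^ 2) (hK0 : 0 < S.card) :
    ∃ n, K ≤ rep A n := by
  classical
  by_contra hcon
  push Not at hcon
  have hmaps : ∀ p ∈ S ×ˢ S, p.1 + p.2 ∈ Finset.Ico (2 * y) (2 * y + 2 * W) := by
    intro p hp
    obtain ⟨h1, h2⟩ := Finset.mem_product.1 hp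
    have h3 := hW _ h1
    have h4 := hW _ h2
    rw [Finset.mem_Ico]
    omega
  have h1 := Finset.card_eq_sum_card_fiberwise hmaps
  have h2 : ∀ n ∈ Finset.Ico (2 * y) (2 * y + 2 * W),
      ((S ×ˢ S).filter fun p => p.1 + p.2 = n).card ≤ K - 1 := by
    intro n _
    have h3 : ((S ×ˢ S).filter fun p => p.1 + p.2 = n).card ≤ rep A n := by
      unfold rep
      rw [← Set.ncard_coe_finset]
      refine Set.ncard_le_ncard ?_ ?_
      · intro p hp
        rw [Finset.mem_coe, Finset.mem_filter, Finset.mem_product] at hp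
        exact ⟨hS _ hp.1.1, hS _ hp.1.2, hp.2⟩
      · refine Set.Finite.subset ((Set.finite_Iic n).prod (Set.finite_Iic n)) ?_
        rintro ⟨u, w⟩ ⟨_, _, h⟩
        simp only at h
        exact ⟨by simp only [Set.mem_Iic]; omega, by simp only [Set.mem_Iic]; omega⟩
    have h4 := hcon n
    omega
  have h3 : S.card ^ 2 ≤ (2 * W) * (K - 1) := by
    rw [sq, ← Finset.card_product, h1]
    refine (Finset.sum_le_card_nsmul _ _ _ h2).trans ?_
    rw [Nat.card_Ico, smul_eq_mul]
    refine Nat.mul_le_mul_right _ ?_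
    omega
  have hK1 : 0 < K := by
    have := hcon 0
    omega
  have hW0 : 0 < W := by
    obtain ⟨x, hx⟩ := Finset.card_pos.1 hK0
    have := hW x hx
    omega
  obtain ⟨K', rfl⟩ : ∃ K', K = K' + 1 := ⟨K - 1, by omega⟩
  have h4 : (K' + 1) * (2 * W) ≤ 2 * W * K' := hK.trans (by simpa using h3)
  nlinarith

end Pool.Agent.RPert
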