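import Pool.Agent.RPert.Ene

/-!
# Rotation of a dyadic block (modules ROT, CYC)
-/

set_option autoImplicit false

namespace Pool.Agent.RPert

open Finset

/-- the block `[2^k, 2^(k+1))` of `A`, rotated by `t` (cyclically inside the block) -/
def blk (A : Set ℕ) (k t : ℕ) : Set ℕ :=
  {b | ∃ a ∈ A, 2 ^ k ≤ a ∧ a < 2 ^ (k + 1) ∧ b = 2 ^ k + (a + t) % 2 ^ k}

private theorem pow2 (k : ℕ) : 2 ^ (k + 1) = 2 ^ k + 2 ^ k := by ring

/-- ROT. Elementary. -/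
theorem blk_sub (A : Set ℕ) (k t : ℕ) {b : ℕ} (hb : b ∈ blk A k t) :
    2 ^ k ≤ b ∧ b < 2 ^ (k + 1) := by
  obtain ⟨a, _, _, _, rfl⟩ := hb
  have h1 : (a + t) % 2 ^ k < 2 ^ k := Nat.mod_lt _ (by positivity)
  rw [pow2]
  omega

private theorem rot_inj (k t : ℕ) {a a' : ℕ} (h1 : 2 ^ k ≤ a) (h2 : a < 2 ^ (k + 1))
    (h1' : 2 ^ k ≤ a') (h2' : a' < 2 ^ (k + 1))
    (h : 2 ^ k + (a + t) % 2 ^ k = 2 ^ k + (a' + t) % 2 ^ k) : a = a' := by
  rw [pow2] at h2 h2'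
  have h3 : (a + t) % 2 ^ k = (a' + t) % 2 ^ k := Nat.add_left_cancel h
  have h4 : a ≡ a' [MOD 2 ^ k] := Nat.ModEq.add_right_cancel' t h3
  have h5 : a - 2 ^ k ≡ a' - 2 ^ k [MOD 2 ^ k] := by
    have h6 : a - 2 ^ k + 2 ^ k ≡ a' - 2 ^ k + 2 ^ k [MOD 2 ^ k] := by
      rw [Nat.sub_add_cancel h1, Nat.sub_add_cancel h1']
      exact h4
    exact Nat.ModEq.add_right_cancel' _ h6
  have h6 := Nat.ModEq.eq_of_lt_of_lt h5 (by omega) (by omega)
  omega

/-- ROT. The rotation is injective on the block. -/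
theorem blk_ncard (A : Set ℕ) (k t : ℕ) :
    (blk A k t).ncard = (A ∩ Set.Ico (2 ^ k) (2 ^ (k + 1))).ncard := by
  have h : blk A k t = (fun a => 2 ^ k + (a + t) % 2 ^ k) '' (A ∩ Set.Ico (2 ^ k) (2 ^ (k + 1))) := by
    ext b
    simp only [blk, Set.mem_ofPred_eq, Set.mem_image, Set.mem_inter_iff, Set.mem_Ico]
    constructor
    · rintro ⟨a, h1, h2, h3, rfl⟩
      exact ⟨a, ⟨h1, h2, h3⟩, rfl⟩
    · rintro ⟨a, ⟨h1, h2, h3⟩, rfl⟩
      exact ⟨a, h1, h2, h3, rfl⟩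
  rw [h, Set.ncard_image_of_injOn]
  intro a ha a' ha' haa
  exact rot_inj k t ha.2.1 ha.2.2 ha'.2.1 ha'.2.2 haa

private theorem repset_finite (A : Set ℕ) (n : ℕ) :
    {p : ℕ × ℕ | p.1 ∈ A ∧ p.2 ∈ A ∧ p.1 + p.2 = n}.Finite := by
  refine Set.Finite.subset ((Set.finite_Iic n).prod (Set.finite_Iic n)) ?_
  rintro ⟨x, y⟩ ⟨_, _, h⟩
  simp only at h
  exact ⟨by simp only [Set.mem_Iic]; omega, by simp only [Set.mem_Iic]; omega⟩

/-- two possible sums -/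
private theorem two_sums (k t m a a' : ℕ) (h : a + a' = m) :
    (2 ^ k + (a + t) % 2 ^ k) + (2 ^ k + (a' + t) % 2 ^ k) = 2 * 2 ^ k + (m + 2 * t) % 2 ^ k ∨
    (2 ^ k + (a + t) % 2 ^ k) + (2 ^ k + (a' + t) % 2 ^ k) = 3 * 2 ^ k + (m + 2 * t) % 2 ^ k := by
  have hM : 0 < 2 ^ k := by positivity
  generalize 2 ^ k = M at *
  have h1 : (a + t) % M < M := Nat.mod_lt _ hM
  have h2 : (a' + t) % M < M := Nat.mod_lt _ hM
  have h3 : ((a + t) % M + (a' + t) % M) % M = (m + 2 * t) % M := by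
    rw [← Nat.add_mod]
    congr 1
    omega
  rcases Nat.lt_or_ge ((a + t) % M + (a' + t) % M) M with h4 | h4
  · left
    rw [Nat.mod_eq_of_lt h4] at h3
    omega
  · right
    rw [Nat.mod_eq_sub_mod h4, Nat.mod_eq_of_lt (by omega)] at h3
    omega

/-- ROT. The pairs `(a, a')` of the block with sum `m` are mapped injectively to pairs of
`blk A k t` whose sum is congruent to `m + 2 t` modulo `2^k` and lies in `[2^(k+1), 2^(k+2) - 1)`:
at most two possible sums. -/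
theorem blk_rep (A : Set ℕ) (k t K m : ℕ)
    (h : 2 * K ≤ rep (A ∩ Set.Ico (2 ^ k) (2 ^ (k + 1))) m) : ∃ n, K ≤ rep (blk A k t) n := by
  set F : ℕ → ℕ := fun a => 2 ^ k + (a + t) % 2 ^ k with hF
  set P : Set (ℕ × ℕ) := {p : ℕ × ℕ | p.1 ∈ A ∩ Set.Ico (2 ^ k) (2 ^ (k + 1)) ∧
    p.2 ∈ A ∩ Set.Ico (2 ^ k) (2 ^ (k + 1)) ∧ p.1 + p.2 = m} with hP
  have hPf : P.Finite := repset_finite _ m
  have h1 : ∀ n, ({p ∈ P | F p.1 + F p.2 = n}).ncard ≤ rep (blk A k t) n := by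
    intro n
    refine Set.ncard_le_ncard_of_injOn (fun p => (F p.1, F p.2)) ?_ ?_ (repset_finite _ n)
    · rintro ⟨x, y⟩ ⟨⟨hx, hy, _⟩, hn⟩
      exact ⟨⟨x, hx.1, hx.2.1, hx.2.2, rfl⟩, ⟨y, hy.1, hy.2.1, hy.2.2, rfl⟩, hn⟩
    · rintro ⟨x, y⟩ ⟨⟨hx, hy, _⟩, _⟩ ⟨x', y'⟩ ⟨⟨hx', hy', _⟩, _⟩ hh
      simp only [Prod.mk.injEq] at hh ⊢
      exact ⟨rot_inj k t hx.2.1 hx.2.2 hx'.2.1 hx'.2.2 hh.1,
        rot_inj k t hy.2.1 hy.2.2 hy'.2.1 hy'.2.2 hh.2⟩
  have h2 : P ⊆ {p ∈ P | F p.1 + F p.2 = 2 * 2 ^ k + (m + 2 * t) % 2 ^ k} ∪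
      {p ∈ P | F p.1 + F p.2 = 3 * 2 ^ k + (m + 2 * t) % 2 ^ k} := by
    rintro ⟨x, y⟩ hp
    rcases two_sums k t m x y hp.2.2 with h3 | h3
    · left; exact ⟨hp, h3⟩
    · right; exact ⟨hp, h3⟩
  have h3 := (Set.ncard_le_ncard h2 (Set.Finite.subset hPf (by
    rintro p (hp | hp)
    · exact hp.1
    · exact hp.1))).trans (Set.ncard_union_le _ _)
  have h4 : 2 * K ≤ P.ncard := h
  have h5 := h1 (2 * 2 ^ k + (m + 2 * t) % 2 ^ k)
  have h6 := h1 (3 * 2 ^ k + (m + 2 * t) % 2 ^ k)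
  rcases Nat.lt_or_ge (rep (blk A k t) (2 * 2 ^ k + (m + 2 * t) % 2 ^ k)) K with h7 | h7
  · exact ⟨_, (by omega : K ≤ rep (blk A k t) (3 * 2 ^ k + (m + 2 * t) % 2 ^ k))⟩
  · exact ⟨_, h7⟩

private theorem cast_inj_of_interval {M c x x' : ℕ} (h1 : c ≤ x) (h2 : x < c + M) (h1' : c ≤ x')
    (h2' : x' < c + M) (h : (x : ZMod M) = (x' : ZMod M)) : x = x' := by
  rw [ZMod.natCast_eq_natCast_iff] at h
  have h5 : x - c ≡ x' - c [MOD M] := by
    have h6 : x - c + c ≡ x' - c + c [MOD M] := by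
      rw [Nat.sub_add_cancel h1, Nat.sub_add_cancel h1']
      exact h
    exact Nat.ModEq.add_right_cancel' _ h6
  have h6 := Nat.ModEq.eq_of_lt_of_lt h5 (by omega) (by omega)
  omega

private theorem pairs_le {M c K : ℕ} (hM : 0 < M) (B : Finset ℕ) (hB : ∀ x ∈ B, c ≤ x ∧ x < c + M)
    (hr : ∀ m, rep (B : Set ℕ) m < K) (g : ZMod M) :
    (((B.image fun x : ℕ => (x : ZMod M)) ×ˢ (B.image fun x : ℕ => (x : ZMod M))).filter
      fun p => p.1 + p.2 = g).card ≤ 2 * K := by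
  classical
  haveI : NeZero M := ⟨hM.ne'⟩
  have hrep : ∀ m, ((B ×ˢ B).filter fun p => p.1 + p.2 = m).card ≤ K := by
    intro m
    have h1 : (((B ×ˢ B).filter fun p => p.1 + p.2 = m : Finset (ℕ × ℕ)) : Set (ℕ × ℕ)) =
        {p : ℕ × ℕ | p.1 ∈ (B : Set ℕ) ∧ p.2 ∈ (B : Set ℕ) ∧ p.1 + p.2 = m} := by
      ext p
      simp only [Finset.coe_filter, Finset.mem_product, Set.mem_ofPred_eq, Finset.mem_coe]
      tauto
    have h2 := hr m
    rw [rep, ← h1, Set.ncard_coe_finset] at h2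
    exact h2.le
  set r0 : ℕ := (g - 2 * c : ZMod M).val with hr0
  have hsub : (((B.image fun x : ℕ => (x : ZMod M)) ×ˢ (B.image fun x : ℕ => (x : ZMod M))).filter
      fun p => p.1 + p.2 = g) ⊆
      (((B ×ˢ B).filter fun p => p.1 + p.2 = 2 * c + r0) ∪
        ((B ×ˢ B).filter fun p => p.1 + p.2 = 2 * c + r0 + M)).image
          fun p => ((p.1 : ZMod M), (p.2 : ZMod M)) := by
    rintro ⟨u, v⟩ hp
    rw [Finset.mem_filter, Finset.mem_product] at hp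
    obtain ⟨⟨hu, hv⟩, hg⟩ := hp
    obtain ⟨x, hx, hxu⟩ := Finset.mem_image.mp hu
    obtain ⟨y, hy, hyv⟩ := Finset.mem_image.mp hv
    simp only at hxu hyv hg
    rw [Finset.mem_image]
    refine ⟨(x, y), ?_, by rw [← hxu, ← hyv]⟩
    have hxc := hB x hx
    have hyc := hB y hy
    have h1 : ((x + y - 2 * c : ℕ) : ZMod M) = g - 2 * c := by
      rw [Nat.cast_sub (by omega), ← hg, ← hxu, ← hyv]
      push_cast
      ring
    have h2 : (x + y - 2 * c) % M = r0 := by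
      rw [hr0, ← h1, ZMod.val_natCast]
    rw [Finset.mem_union, Finset.mem_filter, Finset.mem_filter, Finset.mem_product]
    rcases Nat.lt_or_ge (x + y - 2 * c) M with h4 | h4
    · left
      rw [Nat.mod_eq_of_lt h4] at h2
      exact ⟨⟨hx, hy⟩, by show x + y = _; omega⟩
    · right
      rw [Nat.mod_eq_sub_mod h4, Nat.mod_eq_of_lt (by omega)] at h2
      exact ⟨⟨hx, hy⟩, by show x + y = _; omega⟩
  refine (Finset.card_le_card hsub).trans (Finset.card_image_le.trans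
    ((Finset.card_union_le _ _).trans ?_))
  have h1 := hrep (2 * c + r0)
  have h2 := hrep (2 * c + r0 + M)
  omega

open scoped Pointwise in
private theorem cyc_aux {M c c' n K : ℕ} (hM : 0 < M) (A : Set ℕ) (a S : Finset ℕ)
    (ha : ∀ x ∈ a, x ∈ A ∧ M ≤ x ∧ x < M + M)
    (hS : ∀ y ∈ S, y + M ≤ n ∧ n < y + (M + M)) (hc : c = M) (hc' : c' = n + 1 - (M + M))
    (hra : ∀ m, rep (a : Set ℕ) m < K) (hrS : ∀ m, rep (S : Set ℕ) m < K) :
    a.card * S.card ≤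
      2 * K * Set.ncard {t : ℕ | t < M ∧ ∃ y ∈ S, ∃ x ∈ A, M ≤ x ∧ x < M + M ∧
        n - y = M + (x + t) % M} := by
  classical
  haveI : NeZero M := ⟨hM.ne'⟩
  have ha2 : ∀ x ∈ a, c ≤ x ∧ x < c + M := by
    intro x hx
    have := ha x hx
    omega
  have hS2 : ∀ y ∈ S, c' ≤ y ∧ y < c' + M := by
    intro y hy
    have := hS y hy
    omega
  have h1 := ene (a.image fun x : ℕ => (x : ZMod M)) (S.image fun x : ℕ => (x : ZMod M)) (2 * K)
    (pairs_le hM a ha2 hra) (pairs_le hM S hS2 hrS)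
  rw [Finset.card_image_of_injOn, Finset.card_image_of_injOn] at h1
  · refine h1.trans (Nat.mul_le_mul_left _ ?_)
    set f : ZMod M → ℕ := fun g => ((n : ZMod M) - g).val with hf
    have hfi : Function.Injective f := by
      intro g g' h
      have h2 := ZMod.val_injective M h
      exact sub_right_injective h2
    rw [← Finset.card_image_of_injective _ hfi, ← Set.ncard_coe_finset]
    refine Set.ncard_le_ncard ?_ (Set.Finite.subset (Set.finite_Iio M) fun t ht => ht.1)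
    intro t ht
    rw [Finset.mem_coe, Finset.mem_image] at ht
    obtain ⟨g, hg, rfl⟩ := ht
    obtain ⟨u, hu, v, hv, rfl⟩ := Finset.mem_add.mp hg
    obtain ⟨x, hx, rfl⟩ := Finset.mem_image.mp hu
    obtain ⟨y, hy, rfl⟩ := Finset.mem_image.mp hv
    refine ⟨ZMod.val_lt _, y, hy, x, (ha x hx).1, (ha x hx).2.1, (ha x hx).2.2, ?_⟩
    have hyn := hS y hy
    have h3 : ((x + f ((x : ZMod M) + (y : ZMod M)) : ℕ) : ZMod M) = ((n - y : ℕ) : ZMod M) := by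
      rw [Nat.cast_add, hf]
      simp only
      rw [ZMod.natCast_zmod_val, Nat.cast_sub (by omega)]
      ring
    rw [ZMod.natCast_eq_natCast_iff] at h3
    have h4 : (x + f ((x : ZMod M) + (y : ZMod M))) % M = (n - y) % M := h3
    show n - y = M + (x + f ((x : ZMod M) + (y : ZMod M))) % M
    rw [h4, Nat.mod_eq_sub_mod (by omega), Nat.mod_eq_of_lt (by omega)]
    omega
  · intro y hy y' hy' h
    exact cast_inj_of_interval (hS2 y hy).1 (hS2 y hy).2 (hS2 y' hy').1 (hS2 y' hy').2 h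
  · intro y hy y' hy' h
    exact cast_inj_of_interval (ha2 y hy).1 (ha2 y hy).2 (ha2 y' hy').1 (ha2 y' hy').2 h

/-- CYC. `ene` in `ZMod (2^k)` with `2 K`: the reductions of `a` and of `S` modulo `2^k` are
injective (both lie in intervals of length `2^k`), and a residue class contains at most two of the
possible sums of two elements. For `x ∈ a`, `y ∈ S` let `t` be the residue of `n - y - x`: then
`(x + t) % 2^k = n - y - 2^k`, so `n - y ∈ blk A k t`; the number of these `t` is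
`#(a + S)` in `ZMod (2^k)`. -/
theorem cyc (A : Set ℕ) (k n K : ℕ) (a S : Finset ℕ)
    (ha : ∀ x ∈ a, x ∈ A ∧ 2 ^ k ≤ x ∧ x < 2 ^ (k + 1))
    (hS : ∀ y ∈ S, y + 2 ^ k ≤ n ∧ n < y + 2 ^ (k + 1))
    (hra : ∀ m, rep (a : Set ℕ) m < K) (hrS : ∀ m, rep (S : Set ℕ) m < K) :
    a.card * S.card ≤
      2 * K * Set.ncard {t : ℕ | t < 2 ^ k ∧ ∃ y ∈ S, n - y ∈ blk A k t} := by
  have h := cyc_aux (M := 2 ^ k) (n := n) (K := K) (c := 2 ^ k) (c' := n + 1 - (2 ^ k + 2 ^ k))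
    (by positivity) A a S (fun x hx => by
      have := ha x hx
      rw [pow2] at this
      exact this) (fun y hy => by
      have := hS y hy
      rw [pow2] at this
      exact this) rfl rfl hra hrS
  refine h.trans (le_of_eq ?_)
  congr 2
  ext t
  simp only [blk, Set.mem_ofPred_eq, pow2]

end Pool.Agent.RPert
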