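import Mathlib

/-!
# A good dyadic block (module DENS)
-/

set_option autoImplicit false

namespace Pool.Agent.RPert

open Finset Filter

private theorem dens_count (A : Set ℕ) (j₀ k : ℕ) (hk : j₀ ≤ k) :
    (A ∩ Set.Ico 1 (2 ^ k)).ncard ≤ 2 ^ j₀ +
      ∑ j ∈ Finset.Ico j₀ k, (A ∩ Set.Ico (2 ^ j) (2 ^ (j + 1))).ncard := by
  induction k, hk using Nat.le_induction with
  | base =>
    rw [Finset.Ico_self, Finset.sum_empty, add_zero]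
    calc (A ∩ Set.Ico 1 (2 ^ j₀)).ncard ≤ (Set.Ico 1 (2 ^ j₀) : Set ℕ).ncard :=
          Set.ncard_le_ncard Set.inter_subset_right (Set.finite_Ico _ _)
      _ = 2 ^ j₀ - 1 := by
          rw [← Finset.coe_Ico, Set.ncard_coe_finset, Nat.card_Ico]
      _ ≤ 2 ^ j₀ := Nat.sub_le _ _
  | succ k hk ih =>
    rw [Finset.sum_Ico_succ_top hk]
    have h1 : (A ∩ Set.Ico 1 (2 ^ (k + 1))) ⊆
        (A ∩ Set.Ico 1 (2 ^ k)) ∪ (A ∩ Set.Ico (2 ^ k) (2 ^ (k + 1))) := by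
      rintro x ⟨hx, hx1, hx2⟩
      rcases Nat.lt_or_ge x (2 ^ k) with h | h
      · exact Or.inl ⟨hx, hx1, h⟩
      · exact Or.inr ⟨hx, h, hx2⟩
    have h2 : (A ∩ Set.Ico 1 (2 ^ (k + 1))).ncard ≤
        (A ∩ Set.Ico 1 (2 ^ k)).ncard + (A ∩ Set.Ico (2 ^ k) (2 ^ (k + 1))).ncard :=
      (Set.ncard_le_ncard h1 (((Set.finite_Ico _ _).subset Set.inter_subset_right).union
        ((Set.finite_Ico _ _).subset Set.inter_subset_right))).trans (Set.ncard_union_le _ _)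
    omega

/-- DENS. Suppose that for all `j ≥ j₀` the block `A ∩ [2^j, 2^(j+1))` has fewer than
`T 2^(j/2) / h(2^j)^(1/2)` elements (and `h (2^j) ≥ 1`). Then
`#(A ∩ [1, 2^k]) ≤ 2^j₀ + 1 + Σ_{j₀ ≤ j ≤ k} T 2^(j/2) h(2^j)^(-1/2)`. Put
`u k = h(2^k)^(1/2) 2^(-k/8)`; by `hsub` (with a small exponent) `u k → 0`, so there are arbitrarily
large `k` with `u k ≤ u j` for all `j₀ ≤ j ≤ k`; for these `k`,
`h(2^j)^(-1/2) ≤ h(2^k)^(-1/2) 2^((k-j)/8)` and the sum is at most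
`T h(2^k)^(-1/2) 2^(k/2) Σ_i 2^(-3 i/8) ≤ 5 T h(2^k)^(-1/2) 2^(k/2)`. So
`#(A ∩ [1, 2^k]) h(2^k)^(1/2) / 2^(k/2)` is bounded along these `k`: contradiction. -/
theorem dens (A : Set ℕ) (h : ℕ → ℕ) (hinf : Tendsto h atTop atTop)
    (hsub : ∀ ε : ℝ, 0 < ε → ∀ᶠ n : ℕ in atTop, (h n : ℝ) ≤ (n : ℝ) ^ ε)
    (hA : Tendsto (fun N : ℕ => ((A ∩ Set.Icc 1 N).ncard : ℝ) * Real.sqrt (h N) /
      Real.sqrt N) atTop atTop) (T : ℝ) :
    ∃ᶠ j : ℕ in atTop, T * Real.sqrt ((2 ^ j : ℕ) : ℝ) ≤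
      ((A ∩ Set.Ico (2 ^ j) (2 ^ (j + 1))).ncard : ℝ) * Real.sqrt (h (2 ^ j)) := by
  intro hcon
  have hcon' : ∀ᶠ j : ℕ in atTop, ((A ∩ Set.Ico (2 ^ j) (2 ^ (j + 1))).ncard : ℝ) *
      Real.sqrt (h (2 ^ j)) < T * Real.sqrt ((2 ^ j : ℕ) : ℝ) := by
    filter_upwards [hcon] with j hj
    exact not_le.1 hj
  have hpow : Tendsto (fun j : ℕ => 2 ^ j) atTop (atTop : Filter ℕ) :=
    tendsto_pow_atTop_atTop_of_one_lt (by norm_num)
  -- the number `x = 2^(1/8)`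
  set x : ℝ := (2 : ℝ) ^ (1 / 8 : ℝ) with hx
  have hx0 : 0 < x := by positivity
  have hx1 : 1 < x := Real.one_lt_rpow (by norm_num) (by norm_num)
  have hx8 : x ^ 8 = 2 := by
    rw [hx, ← Real.rpow_natCast, ← Real.rpow_mul (by norm_num)]
    norm_num
  have hsqrt : ∀ j : ℕ, Real.sqrt ((2 ^ j : ℕ) : ℝ) = x ^ (4 * j) := by
    intro j
    rw [Real.sqrt_eq_iff_mul_self_eq (by positivity) (by positivity)]
    rw [← pow_add, show 4 * j + 4 * j = 8 * j by ring, pow_mul, hx8]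
    push_cast
    rfl
  set W : ℕ → ℝ := fun j => Real.sqrt (h (2 ^ j)) with hW
  -- `W j ≥ 1` and `W j ≤ x^(j/2)`
  have hW1 : ∀ᶠ j : ℕ in atTop, 1 ≤ W j := by
    filter_upwards [(hinf.comp hpow).eventually_ge_atTop 1] with j hj
    have h1 : (1 : ℝ) ≤ (h (2 ^ j) : ℝ) := by exact_mod_cast hj
    exact Real.one_le_sqrt.2 h1
  have hW2 : ∀ᶠ j : ℕ in atTop, W j ^ 2 ≤ x ^ j := by
    filter_upwards [hpow.eventually (hsub (1 / 8) (by norm_num))] with j hj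
    have h1 : W j ^ 2 = (h (2 ^ j) : ℝ) := Real.sq_sqrt (Nat.cast_nonneg _)
    have h2 : ((2 ^ j : ℕ) : ℝ) ^ (1 / 8 : ℝ) = x ^ j := by
      push_cast
      rw [hx, ← Real.rpow_natCast, ← Real.rpow_natCast, ← Real.rpow_mul (by norm_num),
        ← Real.rpow_mul (by norm_num), mul_comm]
    rw [h1, ← h2]
    exact hj
  -- `v j = x^j / W j` tends to infinity
  have hv : Tendsto (fun j : ℕ => x ^ j / W j) atTop atTop := by
    have h1 : Tendsto (fun j : ℕ => Real.sqrt (x ^ j)) atTop atTop :=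
      Real.tendsto_sqrt_atTop.comp (tendsto_pow_atTop_atTop_of_one_lt hx1)
    refine tendsto_atTop_mono' _ ?_ h1
    filter_upwards [hW1, hW2] with j hj1 hj2
    have hWp : 0 < W j := by linarith
    rw [le_div_iff₀ hWp]
    have h2 : W j ≤ Real.sqrt (x ^ j) := Real.le_sqrt_of_sq_le hj2
    calc Real.sqrt (x ^ j) * W j ≤ Real.sqrt (x ^ j) * Real.sqrt (x ^ j) :=
          mul_le_mul_of_nonneg_left h2 (Real.sqrt_nonneg _)
      _ = x ^ j := Real.mul_self_sqrt (by positivity)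
  obtain ⟨j₀, hj₀⟩ := eventually_atTop.1 (hcon'.and (hW1.and hW2))
  have hT0 : 0 < T := by
    have h1 := (hj₀ j₀ le_rfl).1
    have h2 : 0 ≤ ((A ∩ Set.Ico (2 ^ j₀) (2 ^ (j₀ + 1))).ncard : ℝ) * W j₀ := by positivity
    have h3 : 0 < T * Real.sqrt ((2 ^ j₀ : ℕ) : ℝ) := lt_of_le_of_lt h2 h1
    have h4 : 0 < Real.sqrt ((2 ^ j₀ : ℕ) : ℝ) := by
      rw [hsqrt]
      positivity
    exact (mul_pos_iff_of_pos_right h4).1 h3
  have hx3 : 0 < x ^ 3 - 1 := by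
    have : 1 < x ^ 3 := one_lt_pow₀ hx1 (by norm_num)
    linarith
  set Cst : ℝ := (2 ^ j₀ + 1) + T / (x ^ 3 - 1) with hCst
  have hbig := (hA.comp hpow).eventually_gt_atTop Cst
  obtain ⟨k₀, hk₀⟩ := eventually_atTop.1 hbig
  obtain ⟨k, hk, hrec⟩ := Filter.high_scores hv (max j₀ k₀)
  have hkj : j₀ ≤ k := (le_max_left _ _).trans hk
  have hbk : Cst < ((A ∩ Set.Icc 1 (2 ^ k)).ncard : ℝ) * W k / Real.sqrt ((2 ^ k : ℕ) : ℝ) :=
    hk₀ k ((le_max_right _ _).trans hk)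
  have hWk1 : 1 ≤ W k := (hj₀ k hkj).2.1
  have hWk2 : W k ^ 2 ≤ x ^ k := (hj₀ k hkj).2.2
  have hWk0 : 0 < W k := by linarith
  have hWk : W k ≤ x ^ (4 * k) := by
    calc W k ≤ W k ^ 2 := by nlinarith
      _ ≤ x ^ k := hWk2
      _ ≤ x ^ (4 * k) := pow_le_pow_right₀ hx1.le (by omega)
  -- the count
  have hcount : ((A ∩ Set.Icc 1 (2 ^ k)).ncard : ℝ) ≤ (2 ^ j₀ + 1) +
      ∑ j ∈ Finset.Ico j₀ k, ((A ∩ Set.Ico (2 ^ j) (2 ^ (j + 1))).ncard : ℝ) := by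
    have h1 : (A ∩ Set.Icc 1 (2 ^ k)) ⊆ insert (2 ^ k) (A ∩ Set.Ico 1 (2 ^ k)) := by
      rintro y ⟨hy, hy1, hy2⟩
      rcases Nat.lt_or_ge y (2 ^ k) with hlt | hge
      · exact Or.inr ⟨hy, hy1, hlt⟩
      · exact Or.inl (le_antisymm hy2 hge)
    have hfin : (A ∩ Set.Ico 1 (2 ^ k)).Finite := (Set.finite_Ico _ _).subset
      Set.inter_subset_right
    have h2 := (Set.ncard_le_ncard h1 (hfin.insert _)).trans (Set.ncard_insert_le _ _)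
    have h3 := dens_count A j₀ k hkj
    have h4 : (A ∩ Set.Icc 1 (2 ^ k)).ncard ≤ (2 ^ j₀ + 1) +
        ∑ j ∈ Finset.Ico j₀ k, (A ∩ Set.Ico (2 ^ j) (2 ^ (j + 1))).ncard := by omega
    exact_mod_cast h4
  have hterm : ∀ j ∈ Finset.Ico j₀ k, ((A ∩ Set.Ico (2 ^ j) (2 ^ (j + 1))).ncard : ℝ) ≤
      T * x ^ k / W k * (x ^ 3) ^ j := by
    intro j hj
    obtain ⟨hj1, hj2⟩ := Finset.mem_Ico.1 hj
    have h1 := (hj₀ j hj1).1
    rw [hsqrt] at h1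
    have hWj : 0 < W j := by linarith [(hj₀ j hj1).2.1]
    have h2 : x ^ j / W j < x ^ k / W k := hrec j hj2
    have h3 : ((A ∩ Set.Ico (2 ^ j) (2 ^ (j + 1))).ncard : ℝ) < T * x ^ (4 * j) / W j := by
      rw [lt_div_iff₀ hWj]
      exact h1
    calc ((A ∩ Set.Ico (2 ^ j) (2 ^ (j + 1))).ncard : ℝ) ≤ T * x ^ (4 * j) / W j := h3.le
      _ = T * (x ^ 3) ^ j * (x ^ j / W j) := by
          rw [show 4 * j = 3 * j + j by ring, pow_add, pow_mul]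
          ring
      _ ≤ T * (x ^ 3) ^ j * (x ^ k / W k) := by
          refine mul_le_mul_of_nonneg_left h2.le (by positivity)
      _ = T * x ^ k / W k * (x ^ 3) ^ j := by ring
  have hgeo : ∑ j ∈ Finset.Ico j₀ k, (x ^ 3) ^ j ≤ (x ^ 3) ^ k / (x ^ 3 - 1) := by
    calc ∑ j ∈ Finset.Ico j₀ k, (x ^ 3) ^ j ≤ ∑ j ∈ Finset.range k, (x ^ 3) ^ j := by
          refine Finset.sum_le_sum_of_subset_of_nonneg ?_ (fun _ _ _ => by positivity)
          intro j hj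
          exact Finset.mem_range.2 (Finset.mem_Ico.1 hj).2
      _ = ((x ^ 3) ^ k - 1) / (x ^ 3 - 1) := by
          rw [geom_sum_eq (by linarith)]
      _ ≤ (x ^ 3) ^ k / (x ^ 3 - 1) := by
          gcongr
          linarith
  have hsum : ∑ j ∈ Finset.Ico j₀ k, ((A ∩ Set.Ico (2 ^ j) (2 ^ (j + 1))).ncard : ℝ) ≤
      T / (x ^ 3 - 1) * (x ^ (4 * k) / W k) := by
    calc ∑ j ∈ Finset.Ico j₀ k, ((A ∩ Set.Ico (2 ^ j) (2 ^ (j + 1))).ncard : ℝ)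
        ≤ ∑ j ∈ Finset.Ico j₀ k, T * x ^ k / W k * (x ^ 3) ^ j := Finset.sum_le_sum hterm
      _ = T * x ^ k / W k * ∑ j ∈ Finset.Ico j₀ k, (x ^ 3) ^ j := by rw [Finset.mul_sum]
      _ ≤ T * x ^ k / W k * ((x ^ 3) ^ k / (x ^ 3 - 1)) :=
          mul_le_mul_of_nonneg_left hgeo (by positivity)
      _ = T / (x ^ 3 - 1) * (x ^ (4 * k) / W k) := by
          rw [show 4 * k = k + 3 * k by ring, pow_add, pow_mul]
          ring
  have hxk : 0 < x ^ (4 * k) := by positivity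
  have hfin : ((A ∩ Set.Icc 1 (2 ^ k)).ncard : ℝ) * W k / Real.sqrt ((2 ^ k : ℕ) : ℝ) ≤
      Cst := by
    rw [hsqrt, div_le_iff₀ hxk]
    calc ((A ∩ Set.Icc 1 (2 ^ k)).ncard : ℝ) * W k
        ≤ ((2 ^ j₀ + 1) + T / (x ^ 3 - 1) * (x ^ (4 * k) / W k)) * W k :=
          mul_le_mul_of_nonneg_right (hcount.trans (by linarith)) hWk0.le
      _ = (2 ^ j₀ + 1) * W k + T / (x ^ 3 - 1) * x ^ (4 * k) := by
          field_simp
      _ ≤ (2 ^ j₀ + 1) * x ^ (4 * k) + T / (x ^ 3 - 1) * x ^ (4 * k) := by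
          have : (2 ^ j₀ + 1) * W k ≤ (2 ^ j₀ + 1) * x ^ (4 * k) :=
            mul_le_mul_of_nonneg_left hWk (by positivity)
          linarith
      _ = Cst * x ^ (4 * k) := by rw [hCst]; ring
  linarith

end Pool.Agent.RPert
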