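import Pool.Agent.RPert.Clu

/-!
# Energy and intervals (modules ENE, HOL)
-/

set_option autoImplicit false

namespace Pool.Agent.RPert

open Finset
open scoped Pointwise

private def eneR {G : Type} [AddCommGroup G] [DecidableEq G] (A : Finset G) (d : G) : ℕ :=
  ((A ×ˢ A).filter fun p => p.1 - p.2 = d).card

/-- `Σ_d r(d)² ≤ K #A²` -/
private theorem ene_sq {G : Type} [AddCommGroup G] [DecidableEq G] (A : Finset G) (K : ℕ)
    (hA : ∀ g, ((A ×ˢ A).filter fun p => p.1 + p.2 = g).card ≤ K) (D : Finset G) :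
    ∑ d ∈ D, eneR A d ^ 2 ≤ K * A.card ^ 2 := by
  classical
  -- quadruples
  set Q := ((A ×ˢ A) ×ˢ (A ×ˢ A)).filter fun t => t.1.1 - t.1.2 = t.2.1 - t.2.2 with hQ
  have h1 : ∑ d ∈ D, eneR A d ^ 2 ≤ Q.card := by
    have h2 : ∀ d ∈ D, eneR A d ^ 2 =
        (((A ×ˢ A).filter fun p => p.1 - p.2 = d) ×ˢ
          ((A ×ˢ A).filter fun p => p.1 - p.2 = d)).card := by
      intro d _
      rw [Finset.card_product, sq]
      rfl
    rw [Finset.sum_congr rfl h2, ← Finset.card_biUnion]
    · apply Finset.card_le_card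
      intro t ht
      simp only [Finset.mem_biUnion, Finset.mem_product, Finset.mem_filter] at ht
      obtain ⟨d, _, ⟨h3, h4⟩, h5, h6⟩ := ht
      rw [hQ, Finset.mem_filter, Finset.mem_product, Finset.mem_product, Finset.mem_product]
      exact ⟨⟨h3, h5⟩, by rw [h4, h6]⟩
    · intro d _ e _ hde
      rw [Function.onFun, Finset.disjoint_left]
      intro t ht ht'
      simp only [Finset.mem_product, Finset.mem_filter] at ht ht'
      exact hde (ht.1.2.symm.trans ht'.1.2)
  refine h1.trans ?_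
  -- map (a, b), (c, d) to (a, d): fibre
  have h3 : Q.card ≤ ∑ u ∈ A ×ˢ A, ((A ×ˢ A).filter fun p => p.1 + p.2 = u.1 + u.2).card := by
    have h4 : ∀ u ∈ A ×ˢ A, ((A ×ˢ A).filter fun p => p.1 + p.2 = u.1 + u.2).card =
        (({u} : Finset (G × G)) ×ˢ
          ((A ×ˢ A).filter fun p => p.1 + p.2 = u.1 + u.2)).card := by
      intro u _
      rw [Finset.card_product, Finset.card_singleton, one_mul]
    rw [Finset.sum_congr rfl h4, ← Finset.card_biUnion]
    · apply Finset.card_le_card_of_injOn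
        (fun t : (G × G) × (G × G) => ((t.1.1, t.2.2), (t.1.2, t.2.1)))
      · intro t ht
        rw [hQ, Finset.mem_coe, Finset.mem_filter, Finset.mem_product, Finset.mem_product,
          Finset.mem_product] at ht
        obtain ⟨⟨⟨ha, hb⟩, hc, hd⟩, he⟩ := ht
        simp only [Finset.coe_biUnion, Set.mem_iUnion, Finset.mem_coe, Finset.mem_product,
          Finset.mem_filter, Finset.mem_singleton, exists_prop]
        refine ⟨(t.1.1, t.2.2), ⟨ha, hd⟩, rfl, ⟨hb, hc⟩, ?_⟩
        rw [sub_eq_sub_iff_add_eq_add] at he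
        rw [he]
        exact add_comm _ _
      · intro t _ t' _ h
        simp only [Prod.mk.injEq] at h
        obtain ⟨⟨h5, h6⟩, h7, h8⟩ := h
        exact Prod.ext (Prod.ext h5 h7) (Prod.ext h8 h6)
    · intro u _ v _ huv
      rw [Function.onFun, Finset.disjoint_left]
      intro t ht ht'
      simp only [Finset.mem_product, Finset.mem_singleton] at ht ht'
      exact huv (ht.1.symm.trans ht'.1)
  refine h3.trans ?_
  calc ∑ u ∈ A ×ˢ A, ((A ×ˢ A).filter fun p => p.1 + p.2 = u.1 + u.2).card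
      ≤ ∑ _u ∈ A ×ˢ A, K := Finset.sum_le_sum fun u _ => hA _
    _ = K * A.card ^ 2 := by
        rw [Finset.sum_const, Finset.card_product, smul_eq_mul]
        ring

/-- ENE. Additive energy: `#A² #S² ≤ #(A + S) E(A, S)` (Cauchy-Schwarz; Mathlib:
`Finset.card_sq_le_card_mul_addEnergy` or `le_card_add_mul_addEnergy`), where
`E(A, S) = #{a + s = a' + s'} = #{a - a' = s' - s} = Σ_d r_{A-A}(d) r_{S-S}(d)
≤ (Σ_d r_{A-A}(d)²)^(1/2) (Σ_d r_{S-S}(d)²)^(1/2)`, and
`Σ_d r_{A-A}(d)² = #{a + a'' = a' + a'''} = Σ_g r_{A+A}(g)² ≤ K #A²`, the same for `S`. So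
`E(A, S) ≤ K #A #S`. -/
theorem ene {G : Type} [AddCommGroup G] [DecidableEq G] (A S : Finset G) (K : ℕ)
    (hA : ∀ g, ((A ×ˢ A).filter fun p => p.1 + p.2 = g).card ≤ K)
    (hS : ∀ g, ((S ×ˢ S).filter fun p => p.1 + p.2 = g).card ≤ K) :
    A.card * S.card ≤ K * (A + S).card := by
  rcases Nat.eq_zero_or_pos (A.card * S.card) with h0 | h0
  · rw [h0]
    exact Nat.zero_le _
  have hCS : A.card ^ 2 * S.card ^ 2 ≤ (A + S).card * Finset.addEnergy A S :=
    Finset.le_card_add_mul_addEnergy A S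
  -- the energy
  have hE : Finset.addEnergy A S ≤ ∑ d ∈ (A ×ˢ A).image (fun p => p.1 - p.2),
      eneR A d * eneR S d := by
    rw [Finset.addEnergy]
    have h2 : ∀ d ∈ (A ×ˢ A).image (fun p => p.1 - p.2), eneR A d * eneR S d =
        (((A ×ˢ A).filter fun p => p.1 - p.2 = d) ×ˢ
          ((S ×ˢ S).filter fun p => p.1 - p.2 = d)).card := by
      intro d _
      rw [Finset.card_product]
      rfl
    rw [Finset.sum_congr rfl h2, ← Finset.card_biUnion]
    · apply Finset.card_le_card_of_injOn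
        (fun t : (G × G) × (G × G) => (t.1, (t.2.2, t.2.1)))
      · intro t ht
        rw [Finset.mem_coe, Finset.mem_filter, Finset.mem_product, Finset.mem_product,
          Finset.mem_product] at ht
        obtain ⟨⟨⟨ha, hb⟩, hc, hd⟩, he⟩ := ht
        simp only [Finset.coe_biUnion, Set.mem_iUnion, Finset.mem_coe, Finset.mem_product,
          Finset.mem_filter, Finset.mem_image, exists_prop, Prod.exists]
        refine ⟨t.1.1 - t.1.2, ⟨t.1.1, t.1.2, ⟨ha, hb⟩, rfl⟩, ⟨⟨ha, hb⟩, rfl⟩, ⟨hd, hc⟩, ?_⟩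
        rw [eq_comm, sub_eq_sub_iff_add_eq_add]
        rw [he]
        exact add_comm _ _
      · intro t _ t' _ h
        simp only [Prod.mk.injEq] at h
        obtain ⟨h5, h6, h7⟩ := h
        exact Prod.ext h5 (Prod.ext h7 h6)
    · intro u _ v _ huv
      rw [Function.onFun, Finset.disjoint_left]
      intro t ht ht'
      simp only [Finset.mem_product, Finset.mem_filter] at ht ht'
      exact huv (ht.1.2.symm.trans ht'.1.2)
  set D := (A ×ˢ A).image (fun p : G × G => p.1 - p.2) with hD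
  have hC2 : (∑ d ∈ D, eneR A d * eneR S d) ^ 2 ≤
      (∑ d ∈ D, eneR A d ^ 2) * ∑ d ∈ D, eneR S d ^ 2 := by
    exact Finset.sum_mul_sq_le_sq_mul_sq D (fun d => eneR A d) (fun d => eneR S d)
  have hE2 : Finset.addEnergy A S ≤ K * (A.card * S.card) := by
    refine hE.trans ?_
    have h5 : (∑ d ∈ D, eneR A d * eneR S d) ^ 2 ≤ (K * (A.card * S.card)) ^ 2 := by
      refine hC2.trans ?_
      calc (∑ d ∈ D, eneR A d ^ 2) * ∑ d ∈ D, eneR S d ^ 2
          ≤ (K * A.card ^ 2) * (K * S.card ^ 2) :=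
            Nat.mul_le_mul (ene_sq A K hA D) (ene_sq S K hS D)
        _ = (K * (A.card * S.card)) ^ 2 := by ring
    exact (Nat.pow_le_pow_iff_left (by norm_num)).1 h5
  have h6 : (A.card * S.card) * (A.card * S.card) ≤
      (A.card * S.card) * (K * (A + S).card) := by
    calc (A.card * S.card) * (A.card * S.card) = A.card ^ 2 * S.card ^ 2 := by ring
      _ ≤ (A + S).card * Finset.addEnergy A S := hCS
      _ ≤ (A + S).card * (K * (A.card * S.card)) := Nat.mul_le_mul_left _ hE2
      _ = (A.card * S.card) * (K * (A + S).card) := by ring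
  exact Nat.le_of_mul_le_mul_left h6 h0

/-- HOL. `pigeon`. -/
theorem hold (B : Finset ℕ) (K : ℕ) (hB : ∀ n, rep (B : Set ℕ) n < K) (y L : ℕ) :
    (B.filter fun b => y ≤ b ∧ b < y + L).card ^ 2 ≤ 2 * K * L := by
  by_contra hcon
  push Not at hcon
  have hpos : 0 < (B.filter fun b => y ≤ b ∧ b < y + L).card := by
    rw [Nat.pos_iff_ne_zero]
    intro h0
    rw [h0] at hcon
    simp at hcon
  obtain ⟨n, hn⟩ := pigeon (A := (B : Set ℕ)) (B.filter fun b => y ≤ b ∧ b < y + L)
    (fun x hx => Finset.mem_coe.2 (Finset.mem_of_mem_filter x hx)) y L K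
    (fun x hx => (Finset.mem_filter.1 hx).2) (by nlinarith) hpos
  exact absurd (hB n) (not_lt.2 hn)

end Pool.Agent.RPert
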