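import Pool.Agent.RPert.One

/-!
# Many disjoint ranges of scales (module FAI)
-/

set_option autoImplicit false

namespace Pool.Agent.RPert

open Finset

/-- FAI. `R` disjoint ranges `[l₀ + r (M + 1), l₀ + r (M + 1) + M]`, `r < R`, inside `F`:
`pr_forall`, `pr_not` and `one`. -/
theorem fail (K q : ℕ) (hK : 0 < K) (hq : 0 < q) : ∃ (M : ℕ) (p : ℝ), 0 < p ∧ p ≤ 1 ∧
    ∀ (l₀ R : ℕ) (A : Set ℕ),
      (∀ k, l₀ ≤ k → k < l₀ + R * (M + 1) →
        2 ^ k ≤ q * (A ∩ Set.Ico (2 ^ k) (2 ^ (k + 1))).ncard ^ 2) →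
      pr (fun k : Finset.Ico l₀ (l₀ + R * (M + 1)) => 2 ^ (k : ℕ)) (fun t => ∀ n,
        rep {b | ∃ k : Finset.Ico l₀ (l₀ + R * (M + 1)), b ∈ blk A k (t k)} n < K) ≤
          (1 - p) ^ R := by
  classical
  obtain ⟨M, p, hp0, hp1, hone⟩ := one K q hK hq
  refine ⟨M, p, hp0, hp1, fun l₀ R A hA => ?_⟩
  have hL : ∀ a : Finset.Ico l₀ (l₀ + R * (M + 1)),
      0 < (fun k : Finset.Ico l₀ (l₀ + R * (M + 1)) => 2 ^ (k : ℕ)) a := fun a => by
    show 0 < 2 ^ (a : ℕ)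
    positivity
  let l : ℕ → ℕ := fun r => l₀ + r * (M + 1) + M
  let E : ℕ → (Finset.Ico l₀ (l₀ + R * (M + 1)) → ℕ) → Prop := fun r t => ∃ n, K ≤
    rep {b | ∃ k : Finset.Ico l₀ (l₀ + R * (M + 1)), l r ≤ (k : ℕ) + M ∧ (k : ℕ) ≤ l r ∧
      b ∈ blk A k (t k)} n
  have hrR : ∀ r, r < R → r * (M + 1) + (M + 1) ≤ R * (M + 1) := by
    intro r hr
    have := Nat.mul_le_mul_right (M + 1) (Nat.succ_le_of_lt hr)
    rwa [Nat.succ_mul] at this
  have h1 : ∀ r ∈ Finset.range R,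
      p ≤ pr (fun k : Finset.Ico l₀ (l₀ + R * (M + 1)) => 2 ^ (k : ℕ)) (E r) := by
    intro r hr
    have h2 := hrR r (Finset.mem_range.1 hr)
    refine hone (Finset.Ico l₀ (l₀ + R * (M + 1))) (l r) A (Nat.le_add_left _ _) ?_ ?_
    · intro k hk1 hk2
      rw [Finset.mem_Ico]
      constructor
      · have : l₀ + r * (M + 1) + M ≤ k + M := hk1
        omega
      · have : k ≤ l₀ + r * (M + 1) + M := hk2
        omega
    · intro k hk1 hk2
      have h3 : l₀ + r * (M + 1) + M ≤ k + M := hk1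
      have h4 : k ≤ l₀ + r * (M + 1) + M := hk2
      exact hA k (by omega) (by omega)
  let S : ℕ → Finset (Finset.Ico l₀ (l₀ + R * (M + 1))) := fun r =>
    Finset.univ.filter fun k => l r ≤ (k : ℕ) + M ∧ (k : ℕ) ≤ l r
  have hdis : ∀ i j : ℕ, i < j → Disjoint (S i) (S j) := by
    intro i j hij
    rw [Finset.disjoint_left]
    intro k hk hk'
    have h3 : (k : ℕ) ≤ l₀ + i * (M + 1) + M := (Finset.mem_filter.1 hk).2.2
    have h4 : l₀ + j * (M + 1) + M ≤ (k : ℕ) + M := (Finset.mem_filter.1 hk').2.1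
    have h5 : i * (M + 1) + (M + 1) ≤ j * (M + 1) := by
      have := Nat.mul_le_mul_right (M + 1) (Nat.succ_le_of_lt hij)
      rwa [Nat.succ_mul] at this
    omega
  have hall := pr_forall (L := fun k : Finset.Ico l₀ (l₀ + R * (M + 1)) => 2 ^ (k : ℕ)) hL
    (Finset.range R) S
    (by
      intro i _ j _ hij
      rcases Nat.lt_or_gt_of_ne hij with h | h
      · exact hdis i j h
      · exact (hdis j i h).symm)
    (fun r t => ¬ E r t)
    (by
      intro r _ v w hvw hv hw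
      apply hv
      obtain ⟨n, hn⟩ := hw
      refine ⟨n, hn.trans (rep_mono ?_ n)⟩
      rintro b ⟨k, hk1, hk2, hb⟩
      refine ⟨k, hk1, hk2, ?_⟩
      rw [hvw k (Finset.mem_filter.2 ⟨Finset.mem_univ _, hk1, hk2⟩)]
      exact hb)
  calc pr (fun k : Finset.Ico l₀ (l₀ + R * (M + 1)) => 2 ^ (k : ℕ)) (fun t => ∀ n,
        rep {b | ∃ k : Finset.Ico l₀ (l₀ + R * (M + 1)), b ∈ blk A k (t k)} n < K)
      ≤ pr (fun k : Finset.Ico l₀ (l₀ + R * (M + 1)) => 2 ^ (k : ℕ))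
          (fun t => ∀ r ∈ Finset.range R, ¬ E r t) := by
        refine pr_mono ?_
        intro t _ ht r _ hE
        obtain ⟨n, hn⟩ := hE
        refine absurd (ht n) (not_lt.2 (hn.trans (rep_mono ?_ n)))
        rintro b ⟨k, _, _, hb⟩
        exact ⟨k, hb⟩
    _ = ∏ r ∈ Finset.range R, pr (fun k : Finset.Ico l₀ (l₀ + R * (M + 1)) => 2 ^ (k : ℕ))
          (fun t => ¬ E r t) := hall
    _ = ∏ r ∈ Finset.range R,
          (1 - pr (fun k : Finset.Ico l₀ (l₀ + R * (M + 1)) => 2 ^ (k : ℕ)) (E r)) :=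
        Finset.prod_congr rfl fun r _ => pr_not hL
    _ ≤ ∏ _r ∈ Finset.range R, (1 - p) := by
        refine Finset.prod_le_prod ?_ ?_
        · intro r _
          exact sub_nonneg.2 pr_le_one
        · intro r hr
          exact sub_le_sub_left (h1 r hr) 1
    _ = (1 - p) ^ R := by rw [Finset.prod_const, Finset.card_range]

end Pool.Agent.RPert
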