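import Pool.Agent.RPert.Box

/-!
# The probability that all trials fail (module TRI)
-/

set_option autoImplicit false

namespace Pool.Agent.RPert

open Finset

/-- TRI. `R` disjoint trials, each fixes the values of at most `M` coordinates: all of them fail
with probability `∏ (1 - ∏_{a ∈ S r} 1 / L a) ≤ (1 - (2 m)^(-M))^R ≤ exp (- R / (2 m)^M)`
(`pr_forall`, `pr_not`, `pr_prod` with `G a = {c r a}`, `Real.add_one_le_exp`). -/
theorem trials {ι : Type} [Fintype ι] (L : ι → ℕ) (m M R : ℕ) (hm : 0 < m)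
    (hL : ∀ a, m ≤ L a ∧ L a < 2 * m) (S : Fin R → Finset ι) (c : Fin R → ι → ℕ)
    (hS : ∀ r, (S r).card ≤ M) (hd : ∀ r r', r ≠ r' → Disjoint (S r) (S r'))
    (hc : ∀ r a, c r a < m) :
    pr L (fun v => ∀ r, ¬ ∀ a ∈ S r, v a = c r a) ≤ Real.exp (- (R / (2 * (m : ℝ)) ^ M)) := by
  classical
  have hL0 : ∀ a, 0 < L a := fun a => lt_of_lt_of_le hm (hL a).1
  have hm0 : (0 : ℝ) < m := by exact_mod_cast hm
  have hm1 : (1 : ℝ) ≤ m := by exact_mod_cast hm
  have h2m : (0 : ℝ) < 2 * (m : ℝ) := by positivity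
  have h1 : pr L (fun v => ∀ r, ¬ ∀ a ∈ S r, v a = c r a) =
      ∏ r : Fin R, pr L (fun v => ¬ ∀ a ∈ S r, v a = c r a) := by
    rw [← pr_forall (L := L) hL0 (univ : Finset (Fin R)) S (fun r _ r' _ hne => hd r r' hne)
      (fun r v => ¬ ∀ a ∈ S r, v a = c r a)]
    · congr 1
      funext v
      simp only [mem_univ, true_imp_iff]
    · intro r _ v w hvw hv hw
      exact hv fun a ha => by rw [hvw a ha]; exact hw a ha
  have h2 : ∀ r, pr L (fun v => ¬ ∀ a ∈ S r, v a = c r a) ≤
      Real.exp (- (1 / (2 * (m : ℝ)) ^ M)) := by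
    intro r
    rw [pr_not hL0]
    have h3 : pr L (fun v => ∀ a ∈ S r, v a = c r a) =
        ∏ a ∈ S r, ((({c r a} : Finset ℕ).card : ℝ) / L a) := by
      rw [← pr_prod hL0 (S r) (fun a => {c r a}) (fun a _ x hx => by
        rw [mem_singleton] at hx
        rw [hx]
        exact lt_of_lt_of_le (hc r a) (hL a).1)]
      congr 1
      funext v
      simp only [mem_singleton]
    have h4 : (1 / (2 * (m : ℝ))) ^ M ≤ pr L (fun v => ∀ a ∈ S r, v a = c r a) := by
      rw [h3]
      calc (1 / (2 * (m : ℝ))) ^ M ≤ (1 / (2 * (m : ℝ))) ^ (S r).card := by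
            refine pow_le_pow_of_le_one (by positivity) ?_ (hS r)
            rw [div_le_one h2m]
            linarith
        _ = ∏ _a ∈ S r, (1 / (2 * (m : ℝ))) := by rw [prod_const]
        _ ≤ _ := by
            refine prod_le_prod (fun _ _ => by positivity) fun a _ => ?_
            rw [card_singleton, Nat.cast_one]
            have h5 : (L a : ℝ) ≤ 2 * m := by exact_mod_cast (hL a).2.le
            exact one_div_le_one_div_of_le (by exact_mod_cast hL0 a) h5
    have h5 := Real.add_one_le_exp (- (1 / (2 * (m : ℝ)) ^ M))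
    have h6 : (1 / (2 * (m : ℝ))) ^ M = 1 / (2 * (m : ℝ)) ^ M := by
      rw [div_pow, one_pow]
    rw [h6] at h4
    linarith
  rw [h1]
  calc ∏ r : Fin R, pr L (fun v => ¬ ∀ a ∈ S r, v a = c r a) ≤
        ∏ _r : Fin R, Real.exp (- (1 / (2 * (m : ℝ)) ^ M)) :=
        prod_le_prod (fun _ _ => pr_nonneg) fun r _ => h2 r
    _ = Real.exp (- (R / (2 * (m : ℝ)) ^ M)) := by
        rw [prod_const, card_univ, Fintype.card_fin, ← Real.exp_nat_mul]
        congr 1
        ring

end Pool.Agent.RPert
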