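import Pool.Agent.RPert.Itr
import Pool.Agent.RPert.Tri

/-!
# The finite form of the noise theorem (module FIN)
-/

set_option autoImplicit false

namespace Pool.Agent.RPert

open Finset

private theorem FIN_real {q u : ℝ} (hq : 1 ≤ q) (hu : 0 ≤ u) (h : 2500 * q ≤ u ^ 2) :
    2 ≤ u ∧ 144 * q < u * (u - 1) := by
  have h1 : 2 ≤ u := by
    by_contra hcon
    push Not at hcon
    nlinarith
  refine ⟨h1, ?_⟩
  nlinarith

/-- FIN. The finite theorem. `iterate` with `w = m / 4` (`8 w ≥ m`) and `R = #ι / (4 K)`, then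
`trials` with `M = 2 K`. The hypothesis of `iterate` is `16 K² (X N / w + 1) ≤ 144 q < u (u - 1)`
with `q = K² X N / m ≥ 1`, for `u ≥ #ι / 2`, and `4 u² ≥ #ι² ≥ T² N / m ≥ 10000 q`. -/
theorem fin_main (K X : ℕ) (hK : 0 < K) (hX : 0 < X) : ∃ T : ℝ, 0 < T ∧ ∃ m0 : ℕ,
    ∀ (ι : Type) [Fintype ι] (N m : ℕ) (x L : ι → ℕ), m0 ≤ m → m ≤ N → (∀ a, x a < X * N) →
      (∀ a, m ≤ L a ∧ L a < 2 * m) →
      T * Real.sqrt N ≤ Fintype.card ι * Real.sqrt m →
      pr L (fun v => ∀ n, rep (Set.range fun a => x a + v a) n < K) ≤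
        Real.exp (- ((Fintype.card ι / (4 * K) : ℕ) / (2 * (m : ℝ)) ^ (2 * K))) := by
  classical
  have hKR : (1 : ℝ) ≤ K := by exact_mod_cast hK
  have hXR : (1 : ℝ) ≤ X := by exact_mod_cast hX
  obtain ⟨T, hT⟩ : ∃ T : ℝ, T = 100 * K * X := ⟨_, rfl⟩
  have hT0 : 0 < T := by rw [hT]; positivity
  refine ⟨T, hT0, 4 * K + 8, ?_⟩
  intro ι _ N m x L hm0 hmN hx hL hcard
  have hm : 0 < m := by omega
  have hmR : (8 : ℝ) ≤ m := by
    have : 8 ≤ m := by omega
    exact_mod_cast this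
  have hmpos : (0 : ℝ) < m := by linarith
  have hNR : (m : ℝ) ≤ N := by exact_mod_cast hmN
  obtain ⟨w, hw⟩ : ∃ w : ℕ, w = m / 4 := ⟨_, rfl⟩
  have hw0 : 0 < w := by omega
  have hwK : 2 * w + K < m := by omega
  have hw3 : m ≤ 8 * w := by omega
  obtain ⟨R, hR⟩ : ∃ R : ℕ, R = Fintype.card ι / (4 * K) := ⟨_, rfl⟩
  have hR4 : 4 * K * R ≤ Fintype.card ι := by
    rw [hR]
    exact Nat.mul_div_le _ _
  have hbig : ∀ u : ℕ, Fintype.card ι ≤ 2 * u →
      16 * K ^ 2 * (X * N / w + 1) < u * (u - 1) := by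
    intro u hu
    have hwR : (0 : ℝ) < w := by exact_mod_cast hw0
    have h1 : ((X * N / w : ℕ) : ℝ) ≤ 8 * X * N / m := by
      have h2 : ((X * N / w : ℕ) : ℝ) ≤ ((X * N : ℕ) : ℝ) / w := Nat.cast_div_le
      have h3 : ((X * N : ℕ) : ℝ) / w ≤ 8 * X * N / m := by
        rw [div_le_div_iff₀ hwR hmpos]
        push_cast
        have h4 : (m : ℝ) ≤ 8 * w := by exact_mod_cast hw3
        have h5 : (0 : ℝ) ≤ X * N := by positivity
        have h6 := mul_le_mul_of_nonneg_left h4 h5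
        linarith
      exact h2.trans h3
    have h2 : (1 : ℝ) ≤ X * N / m := by
      rw [le_div_iff₀ hmpos, one_mul]
      calc (m : ℝ) ≤ N := hNR
        _ = 1 * N := (one_mul _).symm
        _ ≤ X * N := mul_le_mul_of_nonneg_right hXR (Nat.cast_nonneg _)
    obtain ⟨q, hqdef⟩ : ∃ q : ℝ, q = K ^ 2 * X * N / m := ⟨_, rfl⟩
    have hK2 : (1 : ℝ) ≤ (K : ℝ) ^ 2 := one_le_pow₀ hKR
    have hq : 1 ≤ q := by
      have e : q = K ^ 2 * (X * N / m) := by rw [hqdef]; ring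
      rw [e]
      exact one_le_mul_of_one_le_of_one_le hK2 h2
    have h3 : ((16 * K ^ 2 * (X * N / w + 1) : ℕ) : ℝ) ≤ 144 * q := by
      push_cast
      have h4 : ((X * N / w : ℕ) : ℝ) + 1 ≤ 9 * (X * N / m) := by
        have e : 8 * (X : ℝ) * N / m = 8 * (X * N / m) := by ring
        rw [e] at h1
        linarith
      calc (16 : ℝ) * K ^ 2 * (((X * N / w : ℕ) : ℝ) + 1) ≤ (16 * K ^ 2) * (9 * (X * N / m)) :=
            mul_le_mul_of_nonneg_left h4 (by positivity)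
        _ = 144 * q := by rw [hqdef]; ring
    have h4 : T ^ 2 * N / m ≤ (Fintype.card ι : ℝ) ^ 2 := by
      have h5 := mul_self_le_mul_self (by positivity) hcard
      have e1 : T * Real.sqrt N * (T * Real.sqrt N) = T ^ 2 * N := by
        have : Real.sqrt N * Real.sqrt N = N := Real.mul_self_sqrt (Nat.cast_nonneg N)
        calc _ = T ^ 2 * (Real.sqrt N * Real.sqrt N) := by ring
          _ = _ := by rw [this]
      have e2 : (Fintype.card ι : ℝ) * Real.sqrt m * (Fintype.card ι * Real.sqrt m) =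
          (Fintype.card ι : ℝ) ^ 2 * m := by
        have : Real.sqrt m * Real.sqrt m = m := Real.mul_self_sqrt hmpos.le
        calc _ = (Fintype.card ι : ℝ) ^ 2 * (Real.sqrt m * Real.sqrt m) := by ring
          _ = _ := by rw [this]
      rw [e1, e2] at h5
      rw [div_le_iff₀ hmpos]
      exact h5
    have h5 : (Fintype.card ι : ℝ) ≤ 2 * u := by exact_mod_cast hu
    have h6 : T ^ 2 * N / m ≤ 4 * (u : ℝ) ^ 2 := by
      refine h4.trans ?_
      calc (Fintype.card ι : ℝ) ^ 2 ≤ (2 * (u : ℝ)) ^ 2 :=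
            pow_le_pow_left₀ (Nat.cast_nonneg _) h5 2
        _ = _ := by ring
    have h7 : 10000 * q ≤ T ^ 2 * N / m := by
      have h9 : (X : ℝ) ≤ X ^ 2 := le_self_pow₀ hXR two_ne_zero
      have h10 : (K : ℝ) ^ 2 * X * (N / m) ≤ K ^ 2 * X ^ 2 * (N / m) :=
        mul_le_mul_of_nonneg_right (mul_le_mul_of_nonneg_left h9 (sq_nonneg _)) (by positivity)
      have e : T ^ 2 * N / m = 10000 * (K ^ 2 * (X : ℝ) ^ 2 * (N / m)) := by rw [hT]; ring
      have e' : q = K ^ 2 * X * (N / m) := by rw [hqdef]; ring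
      rw [e, e']
      linarith
    have h8 : 2500 * q ≤ (u : ℝ) ^ 2 := by linarith
    obtain ⟨hu1, hu2⟩ := FIN_real hq (Nat.cast_nonneg u) h8
    have hu1' : 1 ≤ u := by
      have : (1 : ℝ) ≤ u := by linarith
      exact_mod_cast this
    have h9 : ((16 * K ^ 2 * (X * N / w + 1) : ℕ) : ℝ) < ((u * (u - 1) : ℕ) : ℝ) := by
      rw [Nat.cast_mul u (u - 1), Nat.cast_sub hu1', Nat.cast_one]
      exact lt_of_le_of_lt h3 hu2
    exact_mod_cast h9
  obtain ⟨S, c, hS1, hS2, hc, hgood⟩ := iterate x w K (X * N) m R hw0 hwK hx hR4 hbig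
  have h1 := trials L m (2 * K) R hm hL S c hS1 hS2 hc
  have h2 : pr L (fun v => ∀ n, rep (Set.range fun a => x a + v a) n < K) ≤
      pr L (fun v => ∀ r, ¬ ∀ a ∈ S r, v a = c r a) := by
    refine pr_mono fun v _ hv r hr => ?_
    obtain ⟨n, hn⟩ := hgood r v hr
    exact absurd hn (not_le.2 (hv n))
  rw [← hR]
  exact h2.trans h1

end Pool.Agent.RPert
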