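import Pool.Agent.RPert.Mat

/-!
# Many disjoint trials (module ITR)
-/

set_option autoImplicit false

namespace Pool.Agent.RPert

open Finset

/-- One step: `K` disjoint pairs with sums in a window of length `2 w`. Either some interval
`[y, y + w)` contains `x a` for `2 K` elements `a`, and then any `K` disjoint pairs of these elements
will do; or every interval of length `2 w` contains fewer than `4 K` of them and `matching`
applies. -/
private theorem ITR_step {ι : Type} [DecidableEq ι] (x : ι → ℕ) (U : Finset ι) (w K X : ℕ)
    (hw : 0 < w) (hX : ∀ a ∈ U, x a < X)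
    (hbig : 16 * K ^ 2 * (X / w + 1) < U.card * (U.card - 1)) :
    ∃ (p q : Fin K → ι) (y : ℕ), (∀ s, p s ∈ U) ∧ (∀ s, q s ∈ U) ∧ Function.Injective p ∧
      Function.Injective q ∧ (∀ s s', p s ≠ q s') ∧
        ∀ s, y ≤ x (p s) + x (q s) ∧ x (p s) + x (q s) < y + 2 * w := by
  by_cases hclu : ∃ y, 2 * K ≤ (U.filter fun a => y ≤ x a ∧ x a < y + w).card
  · obtain ⟨y, hy⟩ := hclu
    obtain ⟨G, hG1, hG2⟩ := Finset.exists_subset_card_eq hy
    have hGm : ∀ a ∈ G, a ∈ U ∧ y ≤ x a ∧ x a < y + w := fun a ha =>
      ⟨(Finset.mem_filter.1 (hG1 ha)).1, (Finset.mem_filter.1 (hG1 ha)).2⟩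
    let f : Fin (K + K) ≃ G := (Finset.equivFinOfCardEq (by omega : G.card = K + K)).symm
    refine ⟨fun s => f (Fin.castAdd K s), fun s => f (Fin.natAdd K s), 2 * y, fun s => ?_,
      fun s => ?_, ?_, ?_, ?_, fun s => ?_⟩
    · exact (hGm _ (f _).2).1
    · exact (hGm _ (f _).2).1
    · intro s s' h
      exact Fin.castAdd_injective K K (f.injective (Subtype.ext h))
    · intro s s' h
      exact Fin.natAdd_injective K K (f.injective (Subtype.ext h))
    · intro s s' h
      have h1 := f.injective (Subtype.ext h)
      have h2 := congrArg Fin.val h1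
      simp only [Fin.val_castAdd, Fin.val_natAdd] at h2
      have h3 := s.2
      omega
    · have h1 := (hGm _ (f (Fin.castAdd K s)).2).2
      have h2 := (hGm _ (f (Fin.natAdd K s)).2).2
      show 2 * y ≤ x (f (Fin.castAdd K s)) + x (f (Fin.natAdd K s)) ∧
        x (f (Fin.castAdd K s)) + x (f (Fin.natAdd K s)) < 2 * y + 2 * w
      omega
  · push Not at hclu
    refine matching x U (2 * w) (4 * K) K X (by omega) hX (fun y => ?_) ?_
    · have h1 : (U.filter fun a => y ≤ x a ∧ x a < y + 2 * w) ⊆
          (U.filter fun a => y ≤ x a ∧ x a < y + w) ∪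
            (U.filter fun a => y + w ≤ x a ∧ x a < y + w + w) := by
        intro a ha
        obtain ⟨h1, h2, h3⟩ := Finset.mem_filter.1 ha
        rw [Finset.mem_union, Finset.mem_filter, Finset.mem_filter]
        rcases Nat.lt_or_ge (x a) (y + w) with h | h
        · exact Or.inl ⟨h1, h2, h⟩
        · exact Or.inr ⟨h1, h, by omega⟩
      have h2 := (Finset.card_le_card h1).trans (Finset.card_union_le _ _)
      have h3 := hclu y
      have h4 := hclu (y + w)
      omega
    · rw [Nat.mul_div_mul_left _ _ (by norm_num : 0 < 2)]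
      refine lt_of_le_of_lt (le_of_eq ?_) hbig
      ring

/-- ITR. As long as at least half of the elements are left, `ITR_step` and `assign` give a set `S`
of `2 K` elements and values `c` on it which force `K` representations; remove `S` and continue:
`R` disjoint sets if `4 K R ≤ #ι`. -/
theorem iterate {ι : Type} [Fintype ι] [DecidableEq ι] (x : ι → ℕ) (w K X m R : ℕ) (hw : 0 < w)
    (hm : 2 * w + K < m) (hX : ∀ a, x a < X) (hR : 4 * K * R ≤ Fintype.card ι)
    (hbig : ∀ u : ℕ, Fintype.card ι ≤ 2 * u → 16 * K ^ 2 * (X / w + 1) < u * (u - 1)) :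
    ∃ (S : Fin R → Finset ι) (c : Fin R → ι → ℕ), (∀ r, (S r).card ≤ 2 * K) ∧
      (∀ r r', r ≠ r' → Disjoint (S r) (S r')) ∧ (∀ r a, c r a < m) ∧
        ∀ r (v : ι → ℕ), (∀ a ∈ S r, v a = c r a) →
          ∃ n, K ≤ rep (Set.range fun a => x a + v a) n := by
  have key : ∀ r, r ≤ R → ∃ (S : Fin r → Finset ι) (c : Fin r → ι → ℕ),
      (∀ i, (S i).card ≤ 2 * K) ∧ (∀ i j, i ≠ j → Disjoint (S i) (S j)) ∧ (∀ i a, c i a < m) ∧
        ∀ i (v : ι → ℕ), (∀ a ∈ S i, v a = c i a) →
          ∃ n, K ≤ rep (Set.range fun a => x a + v a) n := by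
    intro r
    induction r with
    | zero =>
      intro _
      exact ⟨fun i => i.elim0, fun i => i.elim0, fun i => i.elim0, fun i => i.elim0,
        fun i => i.elim0, fun i => i.elim0⟩
    | succ r ih =>
      intro hr
      obtain ⟨S, c, hS, hd, hc, hv⟩ := ih (by omega)
      set V : Finset ι := univ.biUnion S with hV
      have hVc : V.card ≤ 2 * K * r := by
        refine Finset.card_biUnion_le.trans ?_
        calc ∑ i, (S i).card ≤ ∑ _i : Fin r, 2 * K := Finset.sum_le_sum fun i _ => hS i
          _ = 2 * K * r := by
              rw [Finset.sum_const, Finset.card_univ, Fintype.card_fin, smul_eq_mul, Nat.mul_comm]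
      set U : Finset ι := univ \ V with hU
      have hUc : U.card + V.card = Fintype.card ι := by
        rw [hU, Finset.card_sdiff_add_card_eq_card (Finset.subset_univ V), Finset.card_univ]
      have h1 : Fintype.card ι ≤ 2 * U.card := by
        have h2 : 4 * K * r ≤ 4 * K * R := Nat.mul_le_mul_left _ (by omega)
        have h3 : 4 * K * r = 2 * (2 * K * r) := by ring
        omega
      obtain ⟨p, q, y, hpU, hqU, hp, hq, hpq, hy⟩ := ITR_step x U w K X hw (fun a _ => hX a)
        (hbig U.card h1)
      obtain ⟨c0, hc0, hc1⟩ := assign x (2 * w) K m y hm p q hp hq hpq hy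
      have hnV : ∀ a ∈ univ.image p ∪ univ.image q, a ∉ V := by
        intro a ha haV
        rw [Finset.mem_union, Finset.mem_image, Finset.mem_image] at ha
        rcases ha with ⟨s, _, rfl⟩ | ⟨s, _, rfl⟩
        · exact (Finset.mem_sdiff.mp (hpU s)).2 haV
        · exact (Finset.mem_sdiff.mp (hqU s)).2 haV
      have hdisj : ∀ i, Disjoint (univ.image p ∪ univ.image q) (S i) := by
        intro i
        rw [Finset.disjoint_left]
        intro a ha haS
        exact hnV a ha (Finset.mem_biUnion.mpr ⟨i, Finset.mem_univ i, haS⟩)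
      refine ⟨Fin.cons (univ.image p ∪ univ.image q) S, Fin.cons c0 c, ?_, ?_, ?_, ?_⟩
      · intro i
        refine Fin.cases ?_ (fun j => ?_) i
        · refine (Finset.card_union_le _ _).trans ?_
          have h3 : (univ.image p).card ≤ K := by
            simpa using Finset.card_image_le (s := (univ : Finset (Fin K))) (f := p)
          have h4 : (univ.image q).card ≤ K := by
            simpa using Finset.card_image_le (s := (univ : Finset (Fin K))) (f := q)
          omega
        · exact hS j
      · intro i j
        refine Fin.cases ?_ (fun i' => ?_) i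
        · refine Fin.cases ?_ (fun j' => ?_) j
          · intro h
            exact absurd rfl h
          · intro _
            exact hdisj j'
        · refine Fin.cases ?_ (fun j' => ?_) j
          · intro _
            exact (hdisj i').symm
          · intro h
            exact hd i' j' (fun h' => h (by rw [h']))
      · intro i
        refine Fin.cases ?_ (fun j => ?_) i
        · exact hc0
        · exact hc j
      · intro i
        refine Fin.cases ?_ (fun j => ?_) i
        · intro v hv'
          refine hc1 v (fun s => ?_) (fun s => ?_)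
          · exact hv' _ (Finset.mem_union_left _ (Finset.mem_image_of_mem _ (Finset.mem_univ s)))
          · exact hv' _ (Finset.mem_union_right _ (Finset.mem_image_of_mem _ (Finset.mem_univ s)))
        · exact hv j
  exact key R le_rfl

end Pool.Agent.RPert
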