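import Pool.Agent.RPert.Box

/-!
# Disjoint pairs with sums in a short window (modules MAT, ASG)
-/

set_option autoImplicit false

namespace Pool.Agent.RPert

open Finset

private theorem mat_deg {ι : Type} [DecidableEq ι] (x : ι → ℕ) (U : Finset ι) (w D y : ℕ)
    (hD : ∀ y, (U.filter fun a => y ≤ x a ∧ x a < y + w).card ≤ D) (a : ι) :
    ((U.offDiag.filter fun r => (x r.1 + x r.2) / w = y ∧ 0 < w).filter
      fun r => r.1 = a).card ≤ D ∧
    ((U.offDiag.filter fun r => (x r.1 + x r.2) / w = y ∧ 0 < w).filter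
      fun r => r.2 = a).card ≤ D := by
  constructor
  · refine le_trans ?_ (hD (y * w - x a))
    refine Finset.card_le_card_of_injOn (fun r => r.2) ?_ ?_
    · rintro ⟨b, c⟩ h
      simp only [Finset.coe_filter, Finset.mem_filter, Finset.mem_offDiag, Set.mem_ofPred_eq] at h
      obtain ⟨⟨⟨h1, h2, h3⟩, h4, h5⟩, h6⟩ := h
      subst h6
      simp only [Finset.coe_filter, Set.mem_ofPred_eq]
      have h7 := Nat.div_mul_le_self (x b + x c) w
      have h8 := Nat.lt_div_mul_add (a := x b + x c) h5
      rw [h4] at h7 h8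
      exact ⟨h2, by omega, by omega⟩
    · rintro ⟨b, c⟩ h ⟨b', c'⟩ h' h7
      simp only [Finset.coe_filter, Finset.mem_filter, Set.mem_ofPred_eq] at h h'
      simp only at h7
      rw [Prod.mk.injEq]
      exact ⟨h.2.trans h'.2.symm, h7⟩
  · refine le_trans ?_ (hD (y * w - x a))
    refine Finset.card_le_card_of_injOn (fun r => r.1) ?_ ?_
    · rintro ⟨b, c⟩ h
      simp only [Finset.coe_filter, Finset.mem_filter, Finset.mem_offDiag, Set.mem_ofPred_eq] at h
      obtain ⟨⟨⟨h1, h2, h3⟩, h4, h5⟩, h6⟩ := h
      subst h6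
      simp only [Finset.coe_filter, Set.mem_ofPred_eq]
      have h7 := Nat.div_mul_le_self (x b + x c) w
      have h8 := Nat.lt_div_mul_add (a := x b + x c) h5
      rw [h4] at h7 h8
      exact ⟨h1, by omega, by omega⟩
    · rintro ⟨b, c⟩ h ⟨b', c'⟩ h' h7
      simp only [Finset.coe_filter, Finset.mem_filter, Set.mem_ofPred_eq] at h h'
      simp only at h7
      rw [Prod.mk.injEq]
      exact ⟨h7, h.2.trans h'.2.symm⟩

private theorem mat_greedy {ι : Type} [DecidableEq ι] (G : Finset (ι × ι)) (D K : ℕ)
    (h1 : ∀ a, (G.filter fun r => r.1 = a).card ≤ D) (h2 : ∀ a, (G.filter fun r => r.2 = a).card ≤ D)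
    (hne : ∀ r ∈ G, r.1 ≠ r.2) (hG : 4 * K * D < G.card) : ∀ s, s ≤ K →
    ∃ p q : Fin s → ι, (∀ i, (p i, q i) ∈ G) ∧ Function.Injective p ∧ Function.Injective q ∧
      ∀ i j, p i ≠ q j := by
  intro s
  induction s with
  | zero =>
    intro _
    exact ⟨fun i => i.elim0, fun i => i.elim0, fun i => i.elim0, fun i => i.elim0,
      fun i => i.elim0, fun i => i.elim0⟩
  | succ s ih =>
    intro hs
    obtain ⟨p, q, hpq, hp, hq, hd⟩ := ih (by omega)
    set V : Finset ι := univ.image p ∪ univ.image q with hV
    have hVc : V.card ≤ 2 * s := by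
      refine (Finset.card_union_le _ _).trans ?_
      have h3 : (univ.image p).card ≤ s := by
        simpa using Finset.card_image_le (s := (univ : Finset (Fin s))) (f := p)
      have h4 : (univ.image q).card ≤ s := by
        simpa using Finset.card_image_le (s := (univ : Finset (Fin s))) (f := q)
      omega
    set W : Finset (ι × ι) := V.biUnion fun a =>
      (G.filter fun r => r.1 = a) ∪ (G.filter fun r => r.2 = a) with hW
    have hWc : W.card ≤ 4 * K * D := by
      calc W.card ≤ ∑ a ∈ V, ((G.filter fun r => r.1 = a) ∪ (G.filter fun r => r.2 = a)).card :=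
            Finset.card_biUnion_le
        _ ≤ ∑ _a ∈ V, 2 * D := by
            refine Finset.sum_le_sum fun a _ => ?_
            refine (Finset.card_union_le _ _).trans ?_
            have := h1 a
            have := h2 a
            omega
        _ = V.card * (2 * D) := by rw [Finset.sum_const, smul_eq_mul]
        _ ≤ (2 * K) * (2 * D) := Nat.mul_le_mul_right _ (by omega)
        _ = 4 * K * D := by ring
    obtain ⟨r, hr, hrW⟩ := Finset.exists_mem_notMem_of_card_lt_card (lt_of_le_of_lt hWc hG)
    have hr1 : r.1 ∉ V := by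
      intro h
      apply hrW
      rw [hW, Finset.mem_biUnion]
      exact ⟨r.1, h, Finset.mem_union_left _ (Finset.mem_filter.mpr ⟨hr, rfl⟩)⟩
    have hr2 : r.2 ∉ V := by
      intro h
      apply hrW
      rw [hW, Finset.mem_biUnion]
      exact ⟨r.2, h, Finset.mem_union_right _ (Finset.mem_filter.mpr ⟨hr, rfl⟩)⟩
    have hpV : ∀ i, p i ∈ V := fun i =>
      Finset.mem_union_left _ (Finset.mem_image_of_mem _ (Finset.mem_univ i))
    have hqV : ∀ i, q i ∈ V := fun i =>
      Finset.mem_union_right _ (Finset.mem_image_of_mem _ (Finset.mem_univ i))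
    refine ⟨Fin.cons r.1 p, Fin.cons r.2 q, ?_, ?_, ?_, ?_⟩
    · intro i
      refine Fin.cases ?_ (fun j => ?_) i
      · exact hr
      · exact hpq j
    · rw [Fin.cons_injective_iff]
      refine ⟨?_, hp⟩
      rintro ⟨i, hi⟩
      exact hr1 (hi ▸ hpV i)
    · rw [Fin.cons_injective_iff]
      refine ⟨?_, hq⟩
      rintro ⟨i, hi⟩
      exact hr2 (hi ▸ hqV i)
    · intro i j
      refine Fin.cases ?_ (fun i' => ?_) i
      · refine Fin.cases ?_ (fun j' => ?_) j
        · exact hne r hr
        · intro h
          simp only [Fin.cons_zero, Fin.cons_succ] at h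
          exact hr1 (h ▸ hqV j')
      · refine Fin.cases ?_ (fun j' => ?_) j
        · intro h
          simp only [Fin.cons_zero, Fin.cons_succ] at h
          exact hr2 (h ▸ hpV i')
        · exact hd i' j'

/-- MAT. Some window `[y w, (y + 1) w)`, `y ≤ 2 X / w`, contains the sums `x a + x b` of more than
`4 K D` ordered pairs `a ≠ b` of elements of `U` (pigeonhole; the number of these pairs is
`#U (#U - 1)`). Every `a` is in at most `2 D` of these ordered pairs (`D` as first, `D` as second
element), so one can choose `K` of them, greedily, so that the `2 K` elements are different: after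
`s < K` steps `2 s` elements are used and at most `4 s D ≤ 4 K D` ordered pairs contain one of
them. -/
theorem matching {ι : Type} [DecidableEq ι] (x : ι → ℕ) (U : Finset ι) (w D K X : ℕ) (hw : 0 < w)
    (hX : ∀ a ∈ U, x a < X) (hD : ∀ y, (U.filter fun a => y ≤ x a ∧ x a < y + w).card ≤ D)
    (hbig : 4 * K * D * (2 * X / w + 1) < U.card * (U.card - 1)) :
    ∃ (p q : Fin K → ι) (y : ℕ), (∀ s, p s ∈ U) ∧ (∀ s, q s ∈ U) ∧ Function.Injective p ∧
      Function.Injective q ∧ (∀ s s', p s ≠ q s') ∧
        ∀ s, y ≤ x (p s) + x (q s) ∧ x (p s) + x (q s) < y + w := by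
  have h0 : U.offDiag.card = U.card * (U.card - 1) := by
    rw [Finset.offDiag_card, Nat.mul_sub, Nat.mul_one]
  have h1 : ∀ r ∈ U.offDiag, (x r.1 + x r.2) / w ∈ Finset.range (2 * X / w + 1) := by
    intro r hr
    rw [Finset.mem_offDiag] at hr
    rw [Finset.mem_range, Nat.lt_succ_iff]
    refine Nat.div_le_div_right ?_
    have := hX _ hr.1
    have := hX _ hr.2.1
    omega
  have h2 : (Finset.range (2 * X / w + 1)).card * (4 * K * D) < U.offDiag.card := by
    rw [Finset.card_range, h0, Nat.mul_comm]
    exact hbig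
  obtain ⟨y, _, hy⟩ := Finset.exists_lt_card_fiber_of_mul_lt_card_of_maps_to h1 h2
  have h3 : (U.offDiag.filter fun r => (x r.1 + x r.2) / w = y) =
      U.offDiag.filter fun r => (x r.1 + x r.2) / w = y ∧ 0 < w := by
    refine Finset.filter_congr fun r _ => ?_
    simp [hw]
  rw [h3] at hy
  have hdeg := mat_deg x U w D y hD
  obtain ⟨p, q, hpq, hp, hq, hd⟩ := mat_greedy _ D K (fun a => (hdeg a).1) (fun a => (hdeg a).2)
    (fun r hr => by
      rw [Finset.mem_filter, Finset.mem_offDiag] at hr
      exact hr.1.2.2) hy K le_rfl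
  refine ⟨p, q, y * w, ?_, ?_, hp, hq, hd, ?_⟩
  · intro s
    have := hpq s
    rw [Finset.mem_filter, Finset.mem_offDiag] at this
    exact this.1.1
  · intro s
    have := hpq s
    rw [Finset.mem_filter, Finset.mem_offDiag] at this
    exact this.1.2.1
  · intro s
    have h4 := hpq s
    rw [Finset.mem_filter, Finset.mem_offDiag] at h4
    obtain ⟨_, h5, _⟩ := h4
    simp only at h5
    have h7 := Nat.div_mul_le_self (x (p s) + x (q s)) w
    have h8 := Nat.lt_div_mul_add (a := x (p s) + x (q s)) hw
    rw [h5] at h7 h8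
    exact ⟨h7, h8⟩

private theorem asg_inj (K : ℕ) : ∀ (n : ℕ) (x : Fin n → ℕ), n ≤ K →
    ∃ c : Fin n → ℕ, (∀ s, c s < K) ∧ Function.Injective fun s => x s + c s := by
  intro n
  induction n with
  | zero =>
    intro x _
    exact ⟨fun i => i.elim0, fun i => i.elim0, fun i => i.elim0⟩
  | succ n ih =>
    intro x hn
    obtain ⟨c, hc, hi⟩ := ih (fun s => x s.succ) (by omega)
    have h1 : (univ.image fun s : Fin n => x s.succ + c s).card <
        ((Finset.range K).image fun t => x 0 + t).card := by
      have h2 : ((Finset.range K).image fun t => x 0 + t).card = K := by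
        rw [Finset.card_image_of_injective _ (fun a b h => Nat.add_left_cancel h),
          Finset.card_range]
      rw [h2]
      refine lt_of_le_of_lt Finset.card_image_le ?_
      rw [Finset.card_univ, Fintype.card_fin]
      omega
    obtain ⟨e, he, he'⟩ := Finset.exists_mem_notMem_of_card_lt_card h1
    obtain ⟨t, ht, rfl⟩ := Finset.mem_image.mp he
    rw [Finset.mem_range] at ht
    refine ⟨Fin.cons t c, ?_, ?_⟩
    · intro s
      refine Fin.cases ?_ (fun j => ?_) s
      · exact ht
      · exact hc j
    · have h2 : (fun s : Fin (n + 1) => x s + (Fin.cons t c : Fin (n + 1) → ℕ) s) =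
          Fin.cons (x 0 + t) (fun s : Fin n => x s.succ + c s) := by
        funext s
        refine Fin.cases ?_ (fun j => ?_) s
        · rfl
        · rfl
      rw [h2, Fin.cons_injective_iff]
      refine ⟨?_, hi⟩
      rintro ⟨i, hi'⟩
      exact he' (Finset.mem_image.mpr ⟨i, Finset.mem_univ i, hi'⟩)

/-- ASG. Choose `c (p s) ∈ {0, ..., K - 1}` one after the other so that the numbers
`x (p s) + c (p s)` are different, and `c (q s) = y + w + K - (x (p s) + c (p s) + x (q s))`, which
is in `[1, w + K]`. Then `n = y + w + K` is the sum of `x (p s) + c (p s)` and `x (q s) + c (q s)`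
for all `s`: `le_rep`. -/
theorem assign {ι : Type} [DecidableEq ι] (x : ι → ℕ) (w K m y : ℕ) (hm : w + K < m)
    (p q : Fin K → ι) (hp : Function.Injective p) (hq : Function.Injective q)
    (hpq : ∀ s s', p s ≠ q s') (hy : ∀ s, y ≤ x (p s) + x (q s) ∧ x (p s) + x (q s) < y + w) :
    ∃ c : ι → ℕ, (∀ a, c a < m) ∧ ∀ v : ι → ℕ, (∀ s, v (p s) = c (p s)) →
      (∀ s, v (q s) = c (q s)) → ∃ n, K ≤ rep (Set.range fun a => x a + v a) n := by
  obtain ⟨c', hc', hinj⟩ := asg_inj K K (fun s => x (p s)) le_rfl
  have hcp : ∀ s, Function.extend p c' (Function.extend q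
      (fun s => y + w + K - (x (p s) + c' s + x (q s))) 0) (p s) = c' s := fun s =>
    hp.extend_apply _ _ s
  have hcq : ∀ s, Function.extend p c' (Function.extend q
      (fun s => y + w + K - (x (p s) + c' s + x (q s))) 0) (q s) =
      y + w + K - (x (p s) + c' s + x (q s)) := by
    intro s
    rw [Function.extend_apply' _ _ _ (by rintro ⟨t, ht⟩; exact hpq t s ht), hq.extend_apply]
  refine ⟨Function.extend p c' (Function.extend q
      (fun s => y + w + K - (x (p s) + c' s + x (q s))) 0), ?_, ?_⟩
  · intro a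
    by_cases h1 : ∃ s, p s = a
    · obtain ⟨s, rfl⟩ := h1
      rw [hcp]
      have := hc' s
      omega
    · rw [Function.extend_apply' _ _ _ h1]
      by_cases h2 : ∃ s, q s = a
      · obtain ⟨s, rfl⟩ := h2
        rw [hq.extend_apply]
        have := (hy s).1
        omega
      · rw [Function.extend_apply' _ _ _ h2]
        simp only [Pi.zero_apply]
        omega
  · intro v hvp hvq
    refine ⟨y + w + K, le_rep (fun s => x (p s) + v (p s)) (fun s => x (q s) + v (q s))
      (fun s => ⟨p s, rfl⟩) (fun s => ⟨q s, rfl⟩) ?_ ?_⟩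
    · intro s
      show x (p s) + v (p s) + (x (q s) + v (q s)) = y + w + K
      rw [hvp s, hvq s, hcp, hcq]
      have := hy s
      have := hc' s
      omega
    · intro s s' h
      simp only at h
      rw [hvp s, hvp s', hcp, hcp] at h
      exact hinj h

end Pool.Agent.RPert
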