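import Pool.Agent.RPert.Box

/-!
# From independent uniform random variables to boxes (module PROB)
-/

set_option autoImplicit false

namespace Pool.Agent.RPert

open Finset MeasureTheory ProbabilityTheory

/-- `e 0, e 1, ...` are independent and `e a` is uniform on `{0, ..., L a - 1}`. -/
structure Unif {Ω : Type} [MeasurableSpace Ω] (P : Measure Ω) (L : ℕ → ℕ) (e : ℕ → Ω → ℕ) :
    Prop where
  meas : ∀ a, Measurable (e a)
  indep : iIndepFun e P
  unif : ∀ a x, x < L a → P {ω | e a ω = x} = (L a : ENNReal)⁻¹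

/-- PROB. Almost surely `e a ω < L a`: the `L a` values have total probability one. -/
theorem Unif.lt {Ω : Type} [MeasurableSpace Ω] {P : Measure Ω} [IsProbabilityMeasure P]
    {L : ℕ → ℕ} {e : ℕ → Ω → ℕ} (h : Unif P L e) {a : ℕ} (ha : 0 < L a) :
    ∀ᵐ ω ∂P, e a ω < L a := by
  have hmeas : ∀ x : ℕ, MeasurableSet {ω | e a ω = x} := fun x =>
    (h.meas a) (measurableSet_singleton x)
  have h1 : {ω | e a ω < L a} = ⋃ x ∈ range (L a), {ω | e a ω = x} := by
    ext ω
    simp
  have h2 : P {ω | e a ω < L a} = 1 := by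
    rw [h1, measure_biUnion_finset]
    · rw [Finset.sum_congr rfl fun x hx => h.unif a x (mem_range.1 hx), sum_const, card_range,
        nsmul_eq_mul]
      exact ENNReal.mul_inv_cancel (by exact_mod_cast ha.ne') (ENNReal.natCast_ne_top _)
    · intro x _ y _ hxy
      rw [Function.onFun, Set.disjoint_left]
      intro ω hx hy
      exact hxy (hx.symm.trans hy)
    · exact fun x _ => hmeas x
  have hms : MeasurableSet {ω | e a ω < L a} := (h.meas a) measurableSet_Iio
  rw [ae_iff]
  have h3 : {ω | ¬ e a ω < L a} = {ω | e a ω < L a}ᶜ := rfl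
  rw [h3, prob_compl_eq_zero_iff hms]
  exact h2

/-- PROB. The probability of an event which depends on finitely many of the variables is a
proportion in a box: sum over the points `v` of the box,
`P {ω | ∀ a : F, e a ω = v a} = ∏ P {e a = v a} = (∏ L a)⁻¹`
(`iIndepFun.measure_inter_preimage_eq_mul`). -/
theorem Unif.prob {Ω : Type} [MeasurableSpace Ω] {P : Measure Ω} [IsProbabilityMeasure P]
    {L : ℕ → ℕ} {e : ℕ → Ω → ℕ} (h : Unif P L e) (hL : ∀ a, 0 < L a) (F : Finset ℕ)
    (Q : (F → ℕ) → Prop) :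
    P {ω | Q fun a => e a ω} = ENNReal.ofReal (pr (fun a : F => L a) Q) := by
  classical
  obtain ⟨B, hB⟩ : ∃ B : Finset (F → ℕ), ∀ v, v ∈ B ↔ (∀ a : F, v a < L a) ∧ Q v :=
    ⟨(box_finite (fun a : F => L a) Q).toFinset, fun v => by simp⟩
  have hms : ∀ v : F → ℕ, MeasurableSet {ω | ∀ a : F, e a ω = v a} := by
    intro v
    have h1 : {ω | ∀ a : F, e a ω = v a} = ⋂ a : F, {ω | e a ω = v a} := by
      ext ω
      simp
    rw [h1]
    exact MeasurableSet.iInter fun a => (h.meas a) (measurableSet_singleton _)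
  have hpt : ∀ v : F → ℕ, (∀ a : F, v a < L a) →
      P {ω | ∀ a : F, e a ω = v a} = ∏ a : F, (L a : ENNReal)⁻¹ := by
    intro v hv
    have h1 := h.indep.measure_inter_preimage_eq_mul F
      (sets := fun a => if ha : a ∈ F then {v ⟨a, ha⟩} else Set.univ)
      (fun a ha => by
        simp only [dif_pos ha]
        exact measurableSet_singleton _)
    have h2 : {ω | ∀ a : F, e a ω = v a} =
        ⋂ a ∈ F, e a ⁻¹' (if ha : a ∈ F then {v ⟨a, ha⟩} else Set.univ) := by
      ext ω
      simp only [Set.mem_ofPred_eq, Set.mem_iInter, Set.mem_preimage, Subtype.forall]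
      refine forall_congr' fun a => forall_congr' fun ha => ?_
      rw [dif_pos ha, Set.mem_singleton_iff]
    rw [h2, h1, ← Finset.prod_coe_sort F]
    refine Finset.prod_congr rfl fun a _ => ?_
    rw [dif_pos a.2]
    exact h.unif a (v a) (hv a)
  have hae : P {ω | Q fun a => e a ω} = P (⋃ v ∈ B, {ω | ∀ a : F, e a ω = v a}) := by
    refine measure_congr ?_
    have h1 : ∀ᵐ ω ∂P, ∀ a : F, e a ω < L a := by
      rw [ae_all_iff]
      exact fun a => h.lt (hL a)
    filter_upwards [h1] with ω hω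
    apply propext
    show (Q fun a : F => e a ω) ↔ ω ∈ ⋃ v ∈ B, {ω | ∀ a : F, e a ω = v a}
    simp only [Set.mem_iUnion, Set.mem_ofPred_eq, exists_prop]
    constructor
    · intro hq
      exact ⟨fun a => e a ω, (hB _).2 ⟨hω, hq⟩, fun a => rfl⟩
    · rintro ⟨v, hv, hva⟩
      have h2 : (fun a : F => e a ω) = v := funext hva
      rw [h2]
      exact ((hB v).1 hv).2
  rw [hae, measure_biUnion_finset]
  · rw [Finset.sum_congr rfl fun v hv => hpt v ((hB v).1 hv).1, sum_const, nsmul_eq_mul]
    unfold pr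
    have h1 : {v : F → ℕ | (∀ a : F, v a < L a) ∧ Q v} = (B : Set (F → ℕ)) := by
      ext v
      exact (hB v).symm
    have hP : (0 : ℝ) < ∏ a : F, (L a : ℝ) :=
      Finset.prod_pos fun a _ => by exact_mod_cast hL a
    rw [h1, Set.ncard_coe_finset, ENNReal.ofReal_div_of_pos hP, ENNReal.ofReal_natCast,
      div_eq_mul_inv]
    congr 1
    rw [ENNReal.ofReal_prod_of_nonneg fun _ _ => Nat.cast_nonneg _]
    simp only [ENNReal.ofReal_natCast]
    rw [ENNReal.prod_inv_distrib]
    intro a _ b _ _
    exact Or.inr (ENNReal.natCast_ne_top _)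
  · intro v _ w _ hvw
    rw [Function.onFun, Set.disjoint_left]
    intro ω hv hw
    exact hvw (funext fun a => (hv a).symm.trans (hw a))
  · exact fun v _ => hms v

end Pool.Agent.RPert
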