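import Pool.Agent.RPert.Fin1
import Pool.Agent.RPert.Cell
import Pool.Agent.RPert.Prob
import Pool.Agent.RPert.Dens

/-!
# The noise theorem (module NOI)
-/

set_option autoImplicit false

namespace Pool.Agent.RPert

open Finset Filter MeasureTheory ProbabilityTheory

/-- the elementary estimate for the number of trials -/
private theorem NOI_real {T y n m : ℝ} {K : ℕ} (hK : 0 < K) (hT : 0 < T) (hy : 1 ≤ y)
    (hm1 : 1 ≤ m) (hmy : m ^ (2 * K) ≤ y) (hn : T * y ^ 4 ≤ n * Real.sqrt m) (hn0 : 0 ≤ n)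
    {R : ℝ} (hR : n / (4 * K) - 1 ≤ R) :
    T / (4 * K * 4 ^ K) * y ^ 2 - 1 ≤ R / (2 * m) ^ (2 * K) := by
  have hKR : (1 : ℝ) ≤ K := by exact_mod_cast hK
  have hy0 : 0 < y := by linarith
  have hm0 : 0 < m := by linarith
  have h1 : Real.sqrt m ≤ y := by
    refine le_trans ?_ hmy
    rw [← Real.rpow_natCast, Real.sqrt_eq_rpow]
    refine Real.rpow_le_rpow_of_exponent_le hm1 ?_
    push_cast
    linarith
  have h2 : T * y ^ 3 ≤ n := by
    have h3 : T * y ^ 4 ≤ n * y := hn.trans (mul_le_mul_of_nonneg_left h1 hn0)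
    have h4 : T * y ^ 3 * y ≤ n * y := by
      calc T * y ^ 3 * y = T * y ^ 4 := by ring
        _ ≤ _ := h3
    exact le_of_mul_le_mul_right h4 hy0
  have h4K : (0 : ℝ) < 4 ^ K := by positivity
  have h1K : (1 : ℝ) ≤ 4 ^ K := one_le_pow₀ (by norm_num)
  have h3 : (2 * m) ^ (2 * K) ≤ 4 ^ K * y := by
    rw [mul_pow, pow_mul (2 : ℝ) 2 K]
    norm_num
    exact hmy
  have hpos : 0 < (2 * m) ^ (2 * K) := by positivity
  rw [le_div_iff₀ hpos]
  have h5 : T * y ^ 3 / (4 * K) - 1 ≤ R := by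
    refine le_trans ?_ hR
    have : T * y ^ 3 / (4 * K) ≤ n / (4 * K) := div_le_div_of_nonneg_right h2 (by positivity)
    linarith
  refine le_trans ?_ h5
  rcases le_total (T / (4 * K * 4 ^ K) * y ^ 2 - 1) 0 with h6 | h6
  · -- the left factor is nonpositive
    have h7 : 1 ≤ (2 * m) ^ (2 * K) := one_le_pow₀ (by linarith)
    have h8 : (T / (4 * K * 4 ^ K) * y ^ 2 - 1) * (2 * m) ^ (2 * K) ≤
        (T / (4 * K * 4 ^ K) * y ^ 2 - 1) := by nlinarith
    refine h8.trans ?_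
    have h9 : T / (4 * K * 4 ^ K) * y ^ 2 ≤ T * y ^ 3 / (4 * K) := by
      rw [div_mul_eq_mul_div, div_le_div_iff₀ (by positivity) (by positivity)]
      have h10 : y ^ 2 ≤ 4 ^ K * y ^ 3 := by
        calc y ^ 2 = 1 * y ^ 2 := (one_mul _).symm
          _ ≤ (4 ^ K * y) * y ^ 2 := by
              refine mul_le_mul_of_nonneg_right ?_ (by positivity)
              exact one_le_mul_of_one_le_of_one_le h1K hy
          _ = _ := by ring
      calc T * y ^ 2 * (4 * K) ≤ T * (4 ^ K * y ^ 3) * (4 * K) := by gcongr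
        _ = _ := by ring
    linarith
  · calc (T / (4 * K * 4 ^ K) * y ^ 2 - 1) * (2 * m) ^ (2 * K) ≤
          (T / (4 * K * 4 ^ K) * y ^ 2 - 1) * (4 ^ K * y) := mul_le_mul_of_nonneg_left h3 h6
      _ = T * y ^ 3 / (4 * K) - 4 ^ K * y := by field_simp
      _ ≤ T * y ^ 3 / (4 * K) - 1 := by
          have : 1 ≤ 4 ^ K * y := one_le_mul_of_one_le_of_one_le h1K hy
          linarith

/-- NOI. Fix `K ≥ 1` and `η > 0`. With `X = 3 + 2 C`, `T`, `m₀` from `fin_main`, take `j` large with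
`T √(2^j) ≤ #(A ∩ block) h(2^j)^(1/2)` (`dens`), `N = 2^j`, `m = h (2^j)` (`≤ 2^j` and `≥ m₀`),
`ι` = the elements of `A` in the block (a finset `F`), side lengths `H a + 1 ≥ m` (`h` is monotone
and `h ≤ H`). By `pr_cells` and `fin_main` (`x a = a + c a < X N`) the proportion of the noises
with `rep < K` everywhere is at most `exp (- (#F / (4 K)) / (2 m)^(2 K)) ≤ η` (`#F ≥
T 2^(j/2) m^(-1/2)` and `m ≤ 2^(j/(16 K))`). By `Unif.prob` and `rep_mono` the probability that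
`rep` of the perturbed set is `< K` everywhere is at most `η`; `η` is arbitrary, so it is `0`;
countable union over `K`. -/
theorem noise (H h : ℕ → ℕ) (C : ℕ) (hmono : Monotone h) (hinf : Tendsto h atTop atTop)
    (hsub : ∀ ε : ℝ, 0 < ε → ∀ᶠ n : ℕ in atTop, (h n : ℝ) ≤ (n : ℝ) ^ ε) (hH : ∀ n, h n ≤ H n)
    (hC : ∀ᶠ n : ℕ in atTop, H n ≤ C * n) (A : Set ℕ)
    (hA : Tendsto (fun N : ℕ => ((A ∩ Set.Icc 1 N).ncard : ℝ) * Real.sqrt (h N) /
      Real.sqrt N) atTop atTop) {Ω : Type} [MeasurableSpace Ω] (P : Measure Ω)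
    [IsProbabilityMeasure P] (e : ℕ → Ω → ℕ) (he : Unif P (fun a => H a + 1) e) :
    ∀ᵐ ω ∂P, ∀ K : ℕ, ∃ n, K ≤ rep {y | ∃ a ∈ A, y = a + e a ω} n := by
  classical
  rw [ae_all_iff]
  intro K
  rcases Nat.eq_zero_or_pos K with hK0 | hK
  · subst hK0
    exact Filter.Eventually.of_forall fun ω => ⟨0, Nat.zero_le _⟩
  rw [ae_iff]
  refine nonpos_iff_eq_zero.1 (ENNReal.le_of_forall_pos_le_add fun η hη _ => ?_)
  rw [zero_add]
  have hηR : (0 : ℝ) < η := hη
  have hKR : (1 : ℝ) ≤ K := by exact_mod_cast hK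
  obtain ⟨T, hT, m0, hfin⟩ := fin_main K (3 + 2 * C) hK (by omega)
  -- the scales
  have hpow : Tendsto (fun j : ℕ => 2 ^ j) atTop atTop :=
    tendsto_pow_atTop_atTop_of_one_lt one_lt_two
  have hpowR : Tendsto (fun j : ℕ => ((2 ^ j : ℕ) : ℝ)) atTop atTop :=
    tendsto_natCast_atTop_atTop.comp hpow
  have hy : Tendsto (fun j : ℕ => ((2 ^ j : ℕ) : ℝ) ^ (1 / 8 : ℝ)) atTop atTop :=
    (tendsto_rpow_atTop (by norm_num)).comp hpowR
  have hhj : Tendsto (fun j : ℕ => h (2 ^ j)) atTop atTop := hinf.comp hpow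
  have hhjR : Tendsto (fun j : ℕ => (h (2 ^ j) : ℝ)) atTop atTop :=
    tendsto_natCast_atTop_atTop.comp hhj
  have e2 : ∀ᶠ j : ℕ in atTop, Real.exp (-(T / (4 * K * 4 ^ K) *
      (((2 ^ j : ℕ) : ℝ) ^ (1 / 8 : ℝ)) ^ 2 - 1)) ≤ η := by
    have h1 : Tendsto (fun j : ℕ => T / (4 * K * 4 ^ K) *
        (((2 ^ j : ℕ) : ℝ) ^ (1 / 8 : ℝ)) ^ 2 - 1) atTop atTop :=
      tendsto_atTop_add_const_right _ _
        (((tendsto_pow_atTop two_ne_zero).comp hy).const_mul_atTop (by positivity))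
    have h2 := Real.tendsto_exp_neg_atTop_nhds_zero.comp h1
    exact h2.eventually_le_const hηR
  have e3 : ∀ᶠ j : ℕ in atTop, (h (2 ^ j) : ℝ) ≤ ((2 ^ j : ℕ) : ℝ) ^ (1 / (16 * K) : ℝ) :=
    hpow.eventually (hsub (1 / (16 * K)) (by positivity))
  have e4 : ∀ᶠ j : ℕ in atTop, max m0 1 ≤ h (2 ^ j) := hhj.eventually_ge_atTop _
  have e5 : ∀ᶠ j : ℕ in atTop, ∀ a, 2 ^ j ≤ a → H a ≤ C * a := by
    obtain ⟨n0, hn0⟩ := eventually_atTop.1 hC
    filter_upwards [hpow.eventually_ge_atTop n0] with j hj a ha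
    exact hn0 a (hj.trans ha)
  obtain ⟨j, hj, e2, e3, e4, e5⟩ := ((dens A h hinf hsub hA T).and_eventually
    (e2.and (e3.and (e4.and e5)))).exists
  obtain ⟨m, hm⟩ : ∃ m : ℕ, m = h (2 ^ j) := ⟨_, rfl⟩
  rw [← hm] at hj e3 e4
  have hm0 : m0 ≤ m := (le_max_left _ _).trans e4
  have hm1 : 1 ≤ m := (le_max_right _ _).trans e4
  have hm1R : (1 : ℝ) ≤ m := by exact_mod_cast hm1
  obtain ⟨N, hN⟩ : ∃ N : ℕ, N = 2 ^ j := ⟨_, rfl⟩
  have hN2 : 2 ^ (j + 1) = 2 * N := by rw [hN, pow_succ]; ring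
  have hN1 : (1 : ℝ) ≤ (N : ℝ) := by
    have : 1 ≤ N := by rw [hN]; exact Nat.one_le_two_pow
    exact_mod_cast this
  rw [← hN, hN2] at hj
  rw [← hN] at e2 e3
  have hmN : m ≤ N := by
    have h1 : (N : ℝ) ^ (1 / (16 * K) : ℝ) ≤ (N : ℝ) ^ (1 : ℝ) := by
      refine Real.rpow_le_rpow_of_exponent_le hN1 ?_
      rw [div_le_one (by positivity)]
      linarith
    rw [Real.rpow_one] at h1
    exact_mod_cast e3.trans h1
  -- the elements of the block
  have hfinite : (A ∩ Set.Ico N (2 * N)).Finite := (Set.finite_Ico _ _).inter_of_right _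
  obtain ⟨F, hF⟩ : ∃ F : Finset ℕ, (F : Set ℕ) = A ∩ Set.Ico N (2 * N) :=
    ⟨hfinite.toFinset, hfinite.coe_toFinset⟩
  have hFmem : ∀ a : F, (a : ℕ) ∈ A ∧ N ≤ (a : ℕ) ∧ (a : ℕ) < 2 * N := by
    intro a
    have h1 : (a : ℕ) ∈ (F : Set ℕ) := a.2
    rw [hF] at h1
    exact ⟨h1.1, h1.2.1, h1.2.2⟩
  have hFcard : (A ∩ Set.Ico N (2 * N)).ncard = Fintype.card F := by
    rw [← hF, Set.ncard_coe_finset, Fintype.card_coe]
  rw [hFcard] at hj
  obtain ⟨Q, hQ⟩ : ∃ Q : (F → ℕ) → Prop, Q = fun v => ∀ n,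
      rep (Set.range fun a : F => (a : ℕ) + v a) n < K := ⟨_, rfl⟩
  have hsubset : {ω | ¬ ∃ n, K ≤ rep {y | ∃ a ∈ A, y = a + e a ω} n} ⊆
      {ω | Q fun a : F => e a ω} := by
    intro ω hω
    rw [Set.mem_ofPred_eq] at hω ⊢
    push Not at hω
    rw [hQ]
    intro n
    refine lt_of_le_of_lt (rep_mono ?_ n) (hω n)
    rintro _ ⟨a, rfl⟩
    exact ⟨a, (hFmem a).1, rfl⟩
  have hpr : pr (fun a : F => H a + 1) Q ≤ η := by
    refine pr_cells m hm1 (fun a : F => H a + 1) (fun a => ?_) Q η ?_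
    · have h1 : h (2 ^ j) ≤ h a := hmono (by rw [← hN]; exact (hFmem a).2.1)
      have h2 := hH a
      rw [← hm] at h1
      omega
    · intro c L hcL
      have h1 := hfin F N m (fun a => (a : ℕ) + c a) L hm0 hmN (fun a => by
        have h2 := (hcL a).1
        have h3 := (hcL a).2.2
        have h4 := e5 a (by rw [← hN]; exact (hFmem a).2.1)
        have h5 := (hFmem a).2.2
        have h6 : C * (a : ℕ) ≤ C * (2 * N) := Nat.mul_le_mul_left _ h5.le
        have h7 : (3 + 2 * C) * N = 3 * N + C * (2 * N) := by ring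
        rw [h7]
        omega) (fun a => ⟨(hcL a).1, (hcL a).2.1⟩) hj
      have h2 : pr L (fun v => Q fun a => c a + v a) =
          pr L (fun v => ∀ n, rep (Set.range fun a : F => (a : ℕ) + c a + v a) n < K) := by
        rw [hQ]
        simp only [add_assoc]
      rw [h2]
      refine h1.trans (le_trans (Real.exp_le_exp.2 (neg_le_neg ?_)) e2)
      have hyN : Real.sqrt N = ((N : ℝ) ^ (1 / 8 : ℝ)) ^ 4 := by
        rw [Real.sqrt_eq_rpow, ← Real.rpow_natCast, ← Real.rpow_mul (by linarith)]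
        norm_num
      refine NOI_real (m := m) (n := Fintype.card F) hK hT
        (Real.one_le_rpow hN1 (by norm_num)) hm1R ?_ ?_ (Nat.cast_nonneg _) ?_
      · have h4 : (m : ℝ) ^ (2 * K) ≤ ((N : ℝ) ^ (1 / (16 * K) : ℝ)) ^ (2 * K) :=
          pow_le_pow_left₀ (by linarith) e3 _
        refine h4.trans (le_of_eq ?_)
        rw [← Real.rpow_natCast, ← Real.rpow_mul (by linarith)]
        congr 1
        push_cast
        field_simp
        norm_num
      · rw [← hyN]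
        exact hj
      · have h4 := Nat.lt_floor_add_one ((Fintype.card F : ℝ) / ((4 * K : ℕ) : ℝ))
        rw [Nat.floor_div_natCast, Nat.floor_natCast] at h4
        push_cast at h4 ⊢
        linarith
  calc P {ω | ¬ ∃ n, K ≤ rep {y | ∃ a ∈ A, y = a + e a ω} n} ≤
        P {ω | Q fun a : F => e a ω} := measure_mono hsubset
    _ = ENNReal.ofReal (pr (fun a : F => H a + 1) Q) :=
        he.prob (fun a => Nat.succ_pos _) F Q
    _ ≤ ENNReal.ofReal η := ENNReal.ofReal_le_ofReal hpr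
    _ = η := ENNReal.ofReal_coe_nnreal

end Pool.Agent.RPert
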