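import Pool.Agent.RPert.Noise

/-!
# The noise theorem with a universal function (module NOG)
-/

set_option autoImplicit false

namespace Pool.Agent.RPert

open Finset Filter MeasureTheory ProbabilityTheory

private noncomputable def nogI (H : ℕ → ℕ) (n : ℕ) : ℕ := sInf (H '' Set.Ici n)

private theorem nogI_le (H : ℕ → ℕ) (n : ℕ) : nogI H n ≤ H n :=
  Nat.sInf_le ⟨n, Set.self_mem_Ici, rfl⟩

private theorem nogI_mono (H : ℕ → ℕ) : Monotone (nogI H) := by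
  intro a b hab
  refine csInf_le_csInf (OrderBot.bddBelow _) ⟨H b, b, Set.self_mem_Ici, rfl⟩ ?_
  exact Set.image_mono (Set.Ici_subset_Ici.2 hab)

private theorem nogI_tendsto (H : ℕ → ℕ) (hinf : Tendsto H atTop atTop) :
    Tendsto (nogI H) atTop atTop := by
  rw [tendsto_atTop]
  intro b
  obtain ⟨n₀, hn₀⟩ := eventually_atTop.1 (hinf.eventually_ge_atTop b)
  filter_upwards [eventually_ge_atTop n₀] with n hn
  have hne : (H '' Set.Ici n).Nonempty := ⟨H n, n, Set.self_mem_Ici, rfl⟩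
  obtain ⟨m, hm, hm2⟩ := Nat.sInf_mem hne
  show b ≤ sInf (H '' Set.Ici n)
  rw [← hm2]
  exact hn₀ m (hn.trans hm)

private theorem nog_log : Tendsto (fun n : ℕ => Nat.log 2 n) atTop atTop := by
  rw [tendsto_atTop]
  intro b
  filter_upwards [eventually_ge_atTop (2 ^ b)] with n hn
  exact Nat.le_log_of_pow_le (by norm_num) hn

/-- NOG. Take `h n = min (inf_{m ≥ n} H m) (log₂ n)` (nondecreasing, tends to infinity, `n^(o(1))`)
and `g n = h(n)^(1/4) + 1`. -/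
theorem noise_g (H : ℕ → ℕ) (hinf : Tendsto H atTop atTop) (C : ℕ)
    (hC : ∀ᶠ n : ℕ in atTop, H n ≤ C * n) :
    ∃ g : ℕ → ℝ, Tendsto g atTop atTop ∧ ∀ A : Set ℕ,
      (∃ c : ℝ, 0 < c ∧ ∀ᶠ N : ℕ in atTop,
        c * Real.sqrt (N : ℝ) / g N ≤ ((A ∩ Set.Icc 1 N).ncard : ℝ)) →
      ∀ (Ω : Type) [MeasurableSpace Ω] (P : Measure Ω) [IsProbabilityMeasure P] (e : ℕ → Ω → ℕ),
        Unif P (fun a => H a + 1) e →
          ∀ᵐ ω ∂P, ∀ K : ℕ, ∃ n, K ≤ rep {y | ∃ a ∈ A, y = a + e a ω} n := by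
  set h : ℕ → ℕ := fun n => min (nogI H n) (Nat.log 2 n) with hh
  have hmono : Monotone h := by
    intro a b hab
    exact min_le_min (nogI_mono H hab) (Nat.log_mono_right hab)
  have htend : Tendsto h atTop atTop :=
    tendsto_atTop.2 fun b => by
      filter_upwards [(nogI_tendsto H hinf).eventually_ge_atTop b,
        nog_log.eventually_ge_atTop b] with n h1 h2
      exact le_min h1 h2
  have hhH : ∀ n, h n ≤ H n := fun n => (min_le_left _ _).trans (nogI_le H n)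
  have hsub : ∀ ε : ℝ, 0 < ε → ∀ᶠ n : ℕ in atTop, (h n : ℝ) ≤ (n : ℝ) ^ ε := by
    intro ε hε
    have h2 : (0 : ℝ) < Real.log 2 := Real.log_pos (by norm_num)
    have h1 := ((isLittleO_log_rpow_atTop hε).bound h2)
    have h3 := tendsto_natCast_atTop_atTop (R := ℝ) |>.eventually h1
    filter_upwards [h3, eventually_ge_atTop 1] with n hn hn1
    have hn1' : (1 : ℝ) ≤ (n : ℝ) := by exact_mod_cast hn1
    have h4 : (h n : ℝ) ≤ (Nat.log 2 n : ℝ) := by
      exact_mod_cast min_le_right _ _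
    have h5 : (Nat.log 2 n : ℝ) ≤ Real.logb 2 n := Real.natLog_le_logb n 2
    rw [Real.norm_of_nonneg (Real.log_nonneg hn1'),
      Real.norm_of_nonneg (by positivity)] at hn
    have h6 : Real.logb 2 n ≤ (n : ℝ) ^ ε := by
      rw [Real.logb, div_le_iff₀ h2]
      linarith
    linarith
  have hhR : Tendsto (fun n : ℕ => (h n : ℝ)) atTop atTop :=
    tendsto_natCast_atTop_atTop.comp htend
  refine ⟨fun n => (h n : ℝ) ^ (1 / 4 : ℝ) + 1, ?_, ?_⟩
  · exact tendsto_atTop_add_const_right _ _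
      ((tendsto_rpow_atTop (by norm_num : (0 : ℝ) < 1 / 4)).comp hhR)
  · rintro A ⟨c, hc, hcA⟩ Ω _ P _ e he
    refine noise H h C hmono htend hsub hhH hC A ?_ P e he
    have h1 : Tendsto (fun n : ℕ => c / 2 * (h n : ℝ) ^ (1 / 4 : ℝ)) atTop atTop :=
      Tendsto.const_mul_atTop (by positivity)
        ((tendsto_rpow_atTop (by norm_num : (0 : ℝ) < 1 / 4)).comp hhR)
    refine tendsto_atTop_mono' _ ?_ h1
    filter_upwards [hcA, hhR.eventually_ge_atTop 1, eventually_ge_atTop 1] with N hN hh1 hN1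
    have hN0 : (0 : ℝ) < Real.sqrt N := Real.sqrt_pos.2 (by exact_mod_cast hN1)
    have hh0 : (0 : ℝ) < (h N : ℝ) := by linarith
    have hg1 : (1 : ℝ) ≤ (h N : ℝ) ^ (1 / 4 : ℝ) := Real.one_le_rpow hh1 (by norm_num)
    have hg0 : (0 : ℝ) < (h N : ℝ) ^ (1 / 4 : ℝ) + 1 := by linarith
    have h4 : Real.sqrt (h N) = (h N : ℝ) ^ (1 / 4 : ℝ) * (h N : ℝ) ^ (1 / 4 : ℝ) := by
      rw [← Real.rpow_add hh0, Real.sqrt_eq_rpow]
      norm_num
    have h20 : (0 : ℝ) ≤ (h N : ℝ) ^ (1 / 4 : ℝ) := by positivity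
    rw [le_div_iff₀ hN0]
    have hN' : c * Real.sqrt (N : ℝ) ≤
        ((A ∩ Set.Icc 1 N).ncard : ℝ) * ((h N : ℝ) ^ (1 / 4 : ℝ) + 1) := by
      rwa [div_le_iff₀ hg0] at hN
    have hcard0 : (0 : ℝ) ≤ ((A ∩ Set.Icc 1 N).ncard : ℝ) := by positivity
    calc c / 2 * (h N : ℝ) ^ (1 / 4 : ℝ) * Real.sqrt N
        = (h N : ℝ) ^ (1 / 4 : ℝ) / 2 * (c * Real.sqrt N) := by ring
      _ ≤ (h N : ℝ) ^ (1 / 4 : ℝ) / 2 *
          (((A ∩ Set.Icc 1 N).ncard : ℝ) * ((h N : ℝ) ^ (1 / 4 : ℝ) + 1)) :=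
          mul_le_mul_of_nonneg_left hN' (by positivity)
      _ ≤ (h N : ℝ) ^ (1 / 4 : ℝ) / 2 *
          (((A ∩ Set.Icc 1 N).ncard : ℝ) * (2 * (h N : ℝ) ^ (1 / 4 : ℝ))) := by
          refine mul_le_mul_of_nonneg_left ?_ (by positivity)
          exact mul_le_mul_of_nonneg_left (by linarith) hcard0
      _ = ((A ∩ Set.Icc 1 N).ncard : ℝ) * Real.sqrt (h N) := by
          rw [h4]
          ring

end Pool.Agent.RPert
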