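import Mathlib

/-!
# A point which sees a set at many scales (module SCA)
-/

set_option autoImplicit false

namespace Pool.Agent.RPert

open Finset

/-- pigeonhole: a set mapped into a set of at most `m` values has a fibre of size at least
`#s / m`. -/
private theorem sca_pigeon {α β : Type} [DecidableEq β] (s : Finset α) (t : Finset β)
    (f : α → β) (hf : ∀ a ∈ s, f a ∈ t) (hs : s.Nonempty) :
    ∃ c ∈ t, s.card ≤ t.card * (s.filter fun a => f a = c).card := by
  have hsum : s.card = ∑ c ∈ t, (s.filter fun a => f a = c).card :=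
    Finset.card_eq_sum_card_fiberwise hf
  have ht : t.Nonempty := by
    obtain ⟨a, ha⟩ := hs
    exact ⟨f a, hf a ha⟩
  by_contra hcon
  push Not at hcon
  have h1 : ∑ c ∈ t, t.card * (s.filter fun a => f a = c).card < ∑ _c ∈ t, s.card :=
    Finset.sum_lt_sum_of_nonempty ht hcon
  rw [← Finset.mul_sum, ← hsum, Finset.sum_const, smul_eq_mul] at h1
  exact lt_irrefl _ h1

/-- SCA. Induction on `K`. `K = 0`: `n ∈ B`, `s = ∅`. Step: let `b = #B`, `y₁` minimal with
`b ≤ 3 #(B ∩ [0, y₁])`, `y₂` maximal with `b ≤ 3 #(B ∩ [y₂, ∞))`; then more than `b / 3` elements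
are in `[y₁, y₂]`, so `(b / 3)² ≤ C (y₂ - y₁ + 1)`. Choose `M₀ ≥ 2` with `2^M₀ ≥ 36 C q + 4`: then
`y₂ - y₁ ≥ 2^(l' + 2)` with `l' = l - M₀`. One of the `2^M₀` intervals `J` of length `2^l'` which
divide `[X, X + 2^l)` contains `#(B ∩ [y₂, ∞)) / 2^M₀` points of `B' = B ∩ [y₂, ∞) ∩ J`:
`2^l' ≤ 9 q 2^M₀ #B'²`. Apply the induction hypothesis for `q' = 9 q 2^M₀` to `B'` and `l'`: `n` and
`s'`, all scales of `s'` are `≤ l'`. For `y ∈ B ∩ [0, y₁]`:
`2^(l' + 2) ≤ y₂ - y₁ ≤ n - y ≤ 2^l + 2^(l' + 1) < 2^(l + 1)`, so `y` is in one of the scales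
`l' + 2, ..., l` (seen from `n`), and one of these at most `M₀` scales `k₀` contains `b / (3 M₀)` of
them. `s = insert k₀ s'`, `M = M₀ + M'`, `D = max (2^M₀ D') (9 q M₀²)` or the sum. -/
theorem scales (K q C : ℕ) : ∃ M D : ℕ, 0 < D ∧ ∀ (l : ℕ) (B : Finset ℕ) (X : ℕ), M ≤ l →
    (∀ b ∈ B, X ≤ b ∧ b < X + 2 ^ l) → 2 ^ l ≤ q * B.card ^ 2 →
    (∀ y L, (B.filter fun b => y ≤ b ∧ b < y + L).card ^ 2 ≤ C * L) →
    ∃ n : ℕ, (∃ b ∈ B, b ≤ n ∧ n ≤ b + 2 ^ (l + 1)) ∧ ∃ s : Finset ℕ, s.card = K ∧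
      ∀ k ∈ s, l ≤ k + M ∧ k ≤ l ∧
        2 ^ l ≤ D * (B.filter fun b => b + 2 ^ k ≤ n ∧ n < b + 2 ^ (k + 1)).card ^ 2 := by
  induction K generalizing q with
  | zero =>
    refine ⟨0, 1, one_pos, fun l B X _ _ hq _ => ?_⟩
    have hne : B.Nonempty := by
      rw [Finset.nonempty_iff_ne_empty]
      rintro rfl
      have : 0 < 2 ^ l := by positivity
      simp at hq
    obtain ⟨b, hb⟩ := hne
    exact ⟨b, ⟨b, hb, le_rfl, Nat.le_add_right _ _⟩, ∅, rfl, by simp⟩
  | succ K ih =>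
    obtain ⟨M₀, hM₀⟩ : ∃ M₀ : ℕ, 36 * C * q + 4 ≤ 2 ^ M₀ :=
      ⟨36 * C * q + 4, Nat.lt_two_pow_self.le⟩
    have hM2 : 2 ≤ M₀ := by
      by_contra h
      have : 2 ^ M₀ ≤ 2 ^ 1 := Nat.pow_le_pow_right (by norm_num) (by omega)
      omega
    obtain ⟨M', D', hD', hI⟩ := ih (9 * q * 2 ^ M₀)
    refine ⟨M₀ + M', 2 ^ M₀ * D' + 9 * q * M₀ ^ 2, by positivity, fun l B X hl hX hq hC => ?_⟩
    obtain ⟨l', rfl⟩ : ∃ l', l = l' + M₀ := ⟨l - M₀, by omega⟩
    have hne : B.Nonempty := by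
      rw [Finset.nonempty_iff_ne_empty]
      rintro rfl
      simp at hq
    have hb0 : 0 < B.card := Finset.card_pos.2 hne
    -- y₁
    have hex1 : ∃ y, B.card ≤ 3 * (B.filter fun b => b ≤ y).card := by
      refine ⟨X + 2 ^ (l' + M₀), ?_⟩
      rw [Finset.filter_true_of_mem fun b hb => (hX b hb).2.le]
      omega
    classical
    let y₁ := Nat.find hex1
    have hy₁ : B.card ≤ 3 * (B.filter fun b => b ≤ y₁).card := Nat.find_spec hex1
    have hy₁' : 3 * (B.filter fun b => b < y₁).card < B.card := by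
      rcases Nat.eq_zero_or_pos y₁ with h0 | h0
      · rw [h0]
        simpa using hb0
      · have h1 := Nat.find_min hex1 (m := y₁ - 1) (by omega)
        push Not at h1
        refine lt_of_eq_of_lt ?_ h1
        congr 2
        ext b
        simp only [Finset.mem_filter]
        constructor
        · rintro ⟨h2, h3⟩
          exact ⟨h2, by omega⟩
        · rintro ⟨h2, h3⟩
          exact ⟨h2, by omega⟩
    -- y₂
    let P : ℕ → Prop := fun y => B.card ≤ 3 * (B.filter fun b => y ≤ b).card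
    have hP0 : P 0 := by
      show B.card ≤ 3 * (B.filter fun b => 0 ≤ b).card
      simp only [Nat.zero_le, Finset.filter_true]
      omega
    let y₂ := Nat.findGreatest P (X + 2 ^ (l' + M₀))
    have hy₂ : P y₂ := Nat.findGreatest_spec (Nat.zero_le _) hP0
    have hy₂' : 3 * (B.filter fun b => y₂ < b).card < B.card := by
      by_contra hcon
      push Not at hcon
      have hPs : P (y₂ + 1) := hcon
      rcases Nat.lt_or_ge (X + 2 ^ (l' + M₀)) (y₂ + 1) with h | h
      · have : (B.filter fun b => y₂ < b) = ∅ := by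
          rw [Finset.filter_eq_empty_iff]
          intro b hb
          have := (hX b hb).2
          omega
        rw [this, Finset.card_empty] at hcon
        omega
      · have h1 : y₂ + 1 ≤ y₂ := Nat.le_findGreatest h hPs
        omega
    -- the middle
    have hle12 : y₁ ≤ y₂ := by
      by_contra hcon
      push Not at hcon
      have hcov : B ⊆ (B.filter fun b => b < y₁) ∪ (B.filter fun b => y₂ < b) := by
        intro b hb
        rw [Finset.mem_union, Finset.mem_filter, Finset.mem_filter]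
        rcases Nat.lt_or_ge b y₁ with h | h
        · exact Or.inl ⟨hb, h⟩
        · exact Or.inr ⟨hb, by omega⟩
      have h1 := (Finset.card_le_card hcov).trans (Finset.card_union_le _ _)
      omega
    have hmid : B.card < 3 * (B.filter fun b => y₁ ≤ b ∧ b < y₁ + (y₂ - y₁ + 1)).card := by
      have hcov : B ⊆ ((B.filter fun b => b < y₁) ∪ (B.filter fun b => y₂ < b)) ∪
          (B.filter fun b => y₁ ≤ b ∧ b < y₁ + (y₂ - y₁ + 1)) := by
        intro b hb
        simp only [Finset.mem_union, Finset.mem_filter]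
        rcases Nat.lt_or_ge b y₁ with h | h
        · exact Or.inl (Or.inl ⟨hb, h⟩)
        · rcases Nat.lt_or_ge y₂ b with h' | h'
          · exact Or.inl (Or.inr ⟨hb, h'⟩)
          · exact Or.inr ⟨hb, h, by omega⟩
      have h1 := (Finset.card_le_card hcov).trans (Finset.card_union_le _ _)
      have h2 := Finset.card_union_le (B.filter fun b => b < y₁) (B.filter fun b => y₂ < b)
      omega
    have hgap : 2 ^ (l' + 2) ≤ y₂ - y₁ := by
      have h1 := hC y₁ (y₂ - y₁ + 1)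
      set c := (B.filter fun b => y₁ ≤ b ∧ b < y₁ + (y₂ - y₁ + 1)).card with hc
      set Δ := y₂ - y₁ with hΔ
      have h2 : B.card ^ 2 ≤ 9 * c ^ 2 := by
        calc B.card ^ 2 ≤ (3 * c) ^ 2 := Nat.pow_le_pow_left hmid.le 2
          _ = 9 * c ^ 2 := by ring
      have h3 : 2 ^ (l' + M₀) ≤ 9 * C * q * (Δ + 1) := by
        calc 2 ^ (l' + M₀) ≤ q * B.card ^ 2 := hq
          _ ≤ q * (9 * c ^ 2) := Nat.mul_le_mul_left _ h2
          _ ≤ q * (9 * (C * (Δ + 1))) := by gcongr
          _ = 9 * C * q * (Δ + 1) := by ring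
      have h4 : (36 * C * q + 4) * 2 ^ l' ≤ 9 * C * q * (Δ + 1) := by
        calc (36 * C * q + 4) * 2 ^ l' ≤ 2 ^ M₀ * 2 ^ l' := Nat.mul_le_mul_right _ hM₀
          _ = 2 ^ (l' + M₀) := by rw [pow_add, mul_comm]
          _ ≤ _ := h3
      have hp : 0 < 2 ^ l' := by positivity
      have h5 : (9 * C * q) * (4 * 2 ^ l') < (9 * C * q) * (Δ + 1) := by
        nlinarith
      have h6 := Nat.lt_of_mul_lt_mul_left h5
      rw [pow_add]
      omega
    -- the interval J
    set B₂ := B.filter fun b => y₂ ≤ b with hB₂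
    have hB₂card : B.card ≤ 3 * B₂.card := hy₂
    have hB₂ne : B₂.Nonempty := by
      rw [← Finset.card_pos]
      omega
    have hpl : 0 < 2 ^ l' := by positivity
    obtain ⟨i, hi, hpi⟩ := sca_pigeon B₂ (Finset.range (2 ^ M₀)) (fun b => (b - X) / 2 ^ l')
      (by
        intro b hb
        rw [Finset.mem_range]
        have h1 := hX b (Finset.mem_of_mem_filter b hb)
        rw [Nat.div_lt_iff_lt_mul hpl, ← pow_add, add_comm M₀ l']
        omega) hB₂ne
    rw [Finset.card_range] at hpi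
    set B' := B₂.filter fun b => (b - X) / 2 ^ l' = i with hB'
    have hB'B : B' ⊆ B := (Finset.filter_subset _ _).trans (Finset.filter_subset _ _)
    have hcard : B.card ≤ 3 * (2 ^ M₀ * B'.card) := by
      calc B.card ≤ 3 * B₂.card := hB₂card
        _ ≤ 3 * (2 ^ M₀ * B'.card) := Nat.mul_le_mul_left _ hpi
    have hq' : 2 ^ l' ≤ 9 * q * 2 ^ M₀ * B'.card ^ 2 := by
      have h1 : 2 ^ M₀ * 2 ^ l' ≤ 2 ^ M₀ * (9 * q * 2 ^ M₀ * B'.card ^ 2) := by
        calc 2 ^ M₀ * 2 ^ l' = 2 ^ (l' + M₀) := by rw [pow_add, mul_comm]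
          _ ≤ q * B.card ^ 2 := hq
          _ ≤ q * (3 * (2 ^ M₀ * B'.card)) ^ 2 :=
              Nat.mul_le_mul_left _ (Nat.pow_le_pow_left hcard 2)
          _ = 2 ^ M₀ * (9 * q * 2 ^ M₀ * B'.card ^ 2) := by ring
      exact Nat.le_of_mul_le_mul_left h1 (by positivity)
    obtain ⟨n, ⟨b', hb', hb'n, hnb'⟩, s', hs'c, hs'⟩ := hI l' B' (X + i * 2 ^ l') (by omega)
      (by
        intro b hb
        have h1 := (Finset.mem_filter.1 hb).2
        have h2 := hX b (hB'B hb)
        have h3 := Nat.div_mul_le_self (b - X) (2 ^ l')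
        have h4 := Nat.lt_div_mul_add hpl (a := b - X)
        rw [h1] at h3 h4
        constructor
        · omega
        · omega) hq'
      (by
        intro y L
        refine le_trans ?_ (hC y L)
        refine Nat.pow_le_pow_left (Finset.card_le_card ?_) 2
        exact Finset.filter_subset_filter _ hB'B)
    have hb'B := hB'B hb'
    have hb'2 : y₂ ≤ b' := (Finset.mem_filter.1 (Finset.mem_of_mem_filter b' hb')).2
    have hb'X := hX b' hb'B
    -- the new scale
    set B₁ := B.filter fun b => b ≤ y₁ with hB₁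
    have hB₁ne : B₁.Nonempty := by
      rw [← Finset.card_pos]
      omega
    have hlow : 2 ^ (l' + 1) ≤ 2 ^ (l' + M₀) := Nat.pow_le_pow_right (by norm_num) (by omega)
    have hrange : ∀ y ∈ B₁, 2 ^ (l' + 2) ≤ n - y ∧ n - y < 2 ^ (l' + M₀ + 1) ∧ y ≤ n := by
      intro y hy
      have h1 := Finset.mem_filter.1 hy
      have h2 := hX y h1.1
      have h3 : 2 ^ (l' + M₀ + 1) = 2 ^ (l' + M₀) + 2 ^ (l' + M₀) := by rw [pow_succ]; ring
      refine ⟨by omega, by omega, by omega⟩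
    obtain ⟨k₀, hk₀, hpk⟩ := sca_pigeon B₁ (Finset.Ico (l' + 2) (l' + M₀ + 1))
      (fun y => Nat.log 2 (n - y))
      (by
        intro y hy
        obtain ⟨h1, h2, h3⟩ := hrange y hy
        have hpos : n - y ≠ 0 := by
          have : 0 < 2 ^ (l' + 2) := by positivity
          omega
        rw [Finset.mem_Ico]
        exact ⟨(Nat.le_log_iff_pow_le (by norm_num) hpos).2 h1,
          (Nat.log_lt_iff_lt_pow (by norm_num) hpos).2 h2⟩) hB₁ne
    rw [Nat.card_Ico] at hpk
    rw [Finset.mem_Ico] at hk₀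
    have hsub : (B₁.filter fun y => Nat.log 2 (n - y) = k₀) ⊆
        (B.filter fun b => b + 2 ^ k₀ ≤ n ∧ n < b + 2 ^ (k₀ + 1)) := by
      intro y hy
      have h1 := Finset.mem_filter.1 hy
      obtain ⟨h2, h3, h4⟩ := hrange y h1.1
      have hpos : n - y ≠ 0 := by
        have : 0 < 2 ^ (l' + 2) := by positivity
        omega
      have h5 : 2 ^ k₀ ≤ n - y := by
        have := Nat.pow_log_le_self 2 hpos
        rwa [h1.2] at this
      have h6 : n - y < 2 ^ (k₀ + 1) := by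
        have := Nat.lt_pow_succ_log_self (b := 2) (by norm_num) (n - y)
        rwa [h1.2] at this
      rw [Finset.mem_filter]
      exact ⟨(Finset.mem_filter.1 h1.1).1, by omega, by omega⟩
    have hk₀card : B.card ≤ 3 * (M₀ *
        (B.filter fun b => b + 2 ^ k₀ ≤ n ∧ n < b + 2 ^ (k₀ + 1)).card) := by
      calc B.card ≤ 3 * B₁.card := hy₁
        _ ≤ 3 * ((l' + M₀ + 1 - (l' + 2)) *
            (B₁.filter fun y => Nat.log 2 (n - y) = k₀).card) := Nat.mul_le_mul_left _ hpk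
        _ ≤ 3 * (M₀ * (B.filter fun b => b + 2 ^ k₀ ≤ n ∧ n < b + 2 ^ (k₀ + 1)).card) := by
            refine Nat.mul_le_mul_left _ (Nat.mul_le_mul (by omega) (Finset.card_le_card hsub))
    have hk₀s : k₀ ∉ s' := fun h => by
      have := (hs' k₀ h).2.1
      omega
    refine ⟨n, ⟨b', hb'B, hb'n, ?_⟩, insert k₀ s', ?_, ?_⟩
    · have : 2 ^ (l' + 1) ≤ 2 ^ (l' + M₀ + 1) :=
        Nat.pow_le_pow_right (by norm_num) (by omega)
      omega
    · rw [Finset.card_insert_of_notMem hk₀s, hs'c]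
    · intro k hk
      rcases Finset.mem_insert.1 hk with rfl | hk
      · refine ⟨by omega, by omega, ?_⟩
        set c := (B.filter fun b => b + 2 ^ k ≤ n ∧ n < b + 2 ^ (k + 1)).card
        calc 2 ^ (l' + M₀) ≤ q * B.card ^ 2 := hq
          _ ≤ q * (3 * (M₀ * c)) ^ 2 := Nat.mul_le_mul_left _ (Nat.pow_le_pow_left hk₀card 2)
          _ = 9 * q * M₀ ^ 2 * c ^ 2 := by ring
          _ ≤ (2 ^ M₀ * D' + 9 * q * M₀ ^ 2) * c ^ 2 :=
              Nat.mul_le_mul_right _ (Nat.le_add_left _ _)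
      · obtain ⟨h1, h2, h3⟩ := hs' k hk
        refine ⟨by omega, by omega, ?_⟩
        have hmono : (B'.filter fun b => b + 2 ^ k ≤ n ∧ n < b + 2 ^ (k + 1)).card ≤
            (B.filter fun b => b + 2 ^ k ≤ n ∧ n < b + 2 ^ (k + 1)).card :=
          Finset.card_le_card (Finset.filter_subset_filter _ hB'B)
        calc 2 ^ (l' + M₀) = 2 ^ M₀ * 2 ^ l' := by rw [pow_add, mul_comm]
          _ ≤ 2 ^ M₀ * (D' *
              (B'.filter fun b => b + 2 ^ k ≤ n ∧ n < b + 2 ^ (k + 1)).card ^ 2) :=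
              Nat.mul_le_mul_left _ h3
          _ ≤ 2 ^ M₀ * (D' *
              (B.filter fun b => b + 2 ^ k ≤ n ∧ n < b + 2 ^ (k + 1)).card ^ 2) := by gcongr
          _ = (2 ^ M₀ * D') *
              (B.filter fun b => b + 2 ^ k ≤ n ∧ n < b + 2 ^ (k + 1)).card ^ 2 := by ring
          _ ≤ (2 ^ M₀ * D' + 9 * q * M₀ ^ 2) *
              (B.filter fun b => b + 2 ^ k ≤ n ∧ n < b + 2 ^ (k + 1)).card ^ 2 :=
              Nat.mul_le_mul_right _ (Nat.le_add_right _ _)

end Pool.Agent.RPert
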