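import Pool.Agent.RPert.Cyc
import Pool.Agent.RPert.Sca

/-!
# One range of scales (module ONE)
-/

set_option autoImplicit false

namespace Pool.Agent.RPert

open Finset

/-- the set of the first summands of one rotation -/
private theorem one_key (K q D M' l' : ℕ) (hq : 0 < q) (hD : 0 < D)
    (hsc : ∀ (l : ℕ) (B : Finset ℕ) (X : ℕ), M' ≤ l →
      (∀ b ∈ B, X ≤ b ∧ b < X + 2 ^ l) → 2 ^ l ≤ 2 * q * B.card ^ 2 →
      (∀ y L, (B.filter fun b => y ≤ b ∧ b < y + L).card ^ 2 ≤ 2 * K * L) →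
      ∃ n : ℕ, (∃ b ∈ B, b ≤ n ∧ n ≤ b + 2 ^ (l + 1)) ∧ ∃ s : Finset ℕ, s.card = K ∧
        ∀ k ∈ s, l ≤ k + M' ∧ k ≤ l ∧
          2 ^ l ≤ D * (B.filter fun b => b + 2 ^ k ≤ n ∧ n < b + 2 ^ (k + 1)).card ^ 2)
    (F : Finset ℕ) (A : Set ℕ) (hl : M' ≤ l')
    (hF : ∀ k, l' + 1 ≤ k + (M' + 1) → k ≤ l' + 1 → k ∈ F)
    (hA : ∀ k, l' + 1 ≤ k + (M' + 1) → k ≤ l' + 1 →
      2 ^ k ≤ q * (A ∩ Set.Ico (2 ^ k) (2 ^ (k + 1))).ncard ^ 2)
    (hsm : ∀ k, l' + 1 ≤ k + (M' + 1) → k ≤ l' + 1 →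
      ∀ m, rep (A ∩ Set.Ico (2 ^ k) (2 ^ (k + 1))) m < 2 * K)
    (lF : F) (hlF : (lF : ℕ) = l' + 1) (τ : ℕ) :
    ∃ (s : Finset F) (G : F → Finset ℕ), lF ∉ s ∧ s.card ≤ K ∧
      (∀ k ∈ s, ∀ x ∈ G k, x < 2 ^ (k : ℕ)) ∧
      (∀ k ∈ s, 2 ^ (k : ℕ) ≤ 4 * K * q * D * (G k).card) ∧
      ∀ t : F → ℕ, t lF = τ → (∀ k ∈ s, t k ∈ G k) → ∃ n, K ≤
        rep {b | ∃ k : F, l' + 1 ≤ (k : ℕ) + (M' + 1) ∧ (k : ℕ) ≤ l' + 1 ∧
          b ∈ blk A k (t k)} n := by
  classical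
  by_cases hbig : ∃ n, K ≤ rep (blk A (l' + 1) τ) n
  · obtain ⟨n, hn⟩ := hbig
    refine ⟨∅, fun _ => ∅, by simp, by simp, by simp, by simp, fun t ht _ => ⟨n, ?_⟩⟩
    refine hn.trans (rep_mono ?_ n)
    intro b hb
    refine ⟨lF, by omega, by omega, ?_⟩
    rw [hlF, ht]
    exact hb
  push Not at hbig
  -- the block as a finite set
  set B := (Finset.Ico (2 ^ (l' + 1)) (2 ^ (l' + 1 + 1))).filter
    (fun b => b ∈ blk A (l' + 1) τ) with hB
  have hBc : (B : Set ℕ) = blk A (l' + 1) τ := by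
    ext b
    rw [hB, Finset.mem_coe, Finset.mem_filter, Finset.mem_Ico]
    exact ⟨fun h => h.2, fun h => ⟨blk_sub A _ τ h, h⟩⟩
  have hBcard : B.card = (A ∩ Set.Ico (2 ^ (l' + 1)) (2 ^ (l' + 1 + 1))).ncard := by
    rw [← blk_ncard A (l' + 1) τ, ← hBc, Set.ncard_coe_finset]
  have hBq : 2 ^ (l' + 1) ≤ q * B.card ^ 2 := by
    rw [hBcard]
    exact hA (l' + 1) (by omega) le_rfl
  have hpow1 : 2 ^ (l' + 1) = 2 * 2 ^ l' := by rw [pow_succ, mul_comm]
  have hpow2 : 2 ^ (l' + 1 + 1) = 4 * 2 ^ l' := by rw [pow_succ, pow_succ]; ring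
  -- one half
  obtain ⟨B', X, hB'B, hX, hhalf⟩ : ∃ (B' : Finset ℕ) (X : ℕ), B' ⊆ B ∧
      (∀ b ∈ B', X ≤ b ∧ b < X + 2 ^ l') ∧ B.card ≤ 2 * B'.card := by
    have hcov : B ⊆ (B.filter fun b => b < 2 ^ (l' + 1) + 2 ^ l') ∪
        (B.filter fun b => 2 ^ (l' + 1) + 2 ^ l' ≤ b) := by
      intro b hb
      rw [Finset.mem_union]
      rcases Nat.lt_or_ge b (2 ^ (l' + 1) + 2 ^ l') with h | h
      · exact Or.inl (Finset.mem_filter.2 ⟨hb, h⟩)
      · exact Or.inr (Finset.mem_filter.2 ⟨hb, h⟩)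
    have hc := (Finset.card_le_card hcov).trans (Finset.card_union_le _ _)
    have hrg : ∀ b ∈ B, 2 ^ (l' + 1) ≤ b ∧ b < 2 ^ (l' + 1 + 1) := by
      intro b hb
      exact Finset.mem_Ico.1 (Finset.mem_filter.1 hb).1
    rcases Nat.lt_or_ge (2 * (B.filter fun b => b < 2 ^ (l' + 1) + 2 ^ l').card) B.card
      with h | h
    · refine ⟨B.filter fun b => 2 ^ (l' + 1) + 2 ^ l' ≤ b, 2 ^ (l' + 1) + 2 ^ l',
        Finset.filter_subset _ _, ?_, by omega⟩
      intro b hb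
      have h1 := Finset.mem_filter.1 hb
      have h2 := hrg b h1.1
      exact ⟨h1.2, by omega⟩
    · refine ⟨B.filter fun b => b < 2 ^ (l' + 1) + 2 ^ l', 2 ^ (l' + 1),
        Finset.filter_subset _ _, ?_, h⟩
      intro b hb
      have h1 := Finset.mem_filter.1 hb
      have h2 := hrg b h1.1
      exact ⟨h2.1, h1.2⟩
  have hB'q : 2 ^ l' ≤ 2 * q * B'.card ^ 2 := by
    have h1 : 2 * 2 ^ l' ≤ 2 * (2 * q * B'.card ^ 2) := by
      calc 2 * 2 ^ l' = 2 ^ (l' + 1) := hpow1.symm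
        _ ≤ q * B.card ^ 2 := hBq
        _ ≤ q * (2 * B'.card) ^ 2 := Nat.mul_le_mul_left _ (Nat.pow_le_pow_left hhalf 2)
        _ = 2 * (2 * q * B'.card ^ 2) := by ring
    omega
  have hB'rep : ∀ n, rep (B' : Set ℕ) n < K := by
    intro n
    refine lt_of_le_of_lt (rep_mono ?_ n) (hbig n)
    rw [← hBc]
    exact Finset.coe_subset.2 hB'B
  obtain ⟨n, -, s, hsK, hs⟩ := hsc l' B' X hl hX hB'q (fun y L => hold B' K hB'rep y L)
  have hsF : ∀ k ∈ s, l' + 1 ≤ k + (M' + 1) ∧ k ≤ l' ∧ k ∈ F := by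
    intro k hk
    have h1 := hs k hk
    exact ⟨by omega, h1.2.1, hF k (by omega) (by omega)⟩
  refine ⟨s.subtype (fun k => k ∈ F), fun k => (Finset.range (2 ^ (k : ℕ))).filter fun t =>
    ∃ y ∈ B'.filter (fun b => b + 2 ^ (k : ℕ) ≤ n ∧ n < b + 2 ^ ((k : ℕ) + 1)),
      n - y ∈ blk A k t, ?_, ?_, ?_, ?_, ?_⟩
  · rw [Finset.mem_subtype]
    intro h
    have := (hsF _ h).2.1
    omega
  · rw [Finset.card_subtype, ← hsK]
    exact Finset.card_le_card (Finset.filter_subset _ _)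
  · intro k _ x hx
    exact Finset.mem_range.1 (Finset.mem_filter.1 hx).1
  · intro k hk
    rw [Finset.mem_subtype] at hk
    have h1 := hsF _ hk
    have h2 := (hs _ hk).2.2
    set S := B'.filter (fun b => b + 2 ^ (k : ℕ) ≤ n ∧ n < b + 2 ^ ((k : ℕ) + 1)) with hS
    set a := (Finset.Ico (2 ^ (k : ℕ)) (2 ^ ((k : ℕ) + 1))).filter (fun x => x ∈ A) with ha
    have hac : (a : Set ℕ) = A ∩ Set.Ico (2 ^ (k : ℕ)) (2 ^ ((k : ℕ) + 1)) := by
      ext x
      rw [ha, Finset.mem_coe, Finset.mem_filter, Finset.mem_Ico]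
      exact ⟨fun h => ⟨h.2, h.1⟩, fun h => ⟨h.2, h.1⟩⟩
    have hacard : a.card = (A ∩ Set.Ico (2 ^ (k : ℕ)) (2 ^ ((k : ℕ) + 1))).ncard := by
      rw [← hac, Set.ncard_coe_finset]
    have hc := cyc A k n (2 * K) a S
      (by
        intro x hx
        have h3 := Finset.mem_filter.1 hx
        have h4 := Finset.mem_Ico.1 h3.1
        exact ⟨h3.2, h4.1, h4.2⟩)
      (by
        intro y hy
        exact (Finset.mem_filter.1 hy).2)
      (by
        intro m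
        rw [hac]
        exact hsm k h1.1 (by omega) m)
      (by
        intro m
        have h3 : rep (S : Set ℕ) m ≤ rep (B' : Set ℕ) m :=
          rep_mono (Finset.coe_subset.2 (Finset.filter_subset _ _)) m
        have h4 := hB'rep m
        omega)
    have hG : Set.ncard {t : ℕ | t < 2 ^ (k : ℕ) ∧ ∃ y ∈ S, n - y ∈ blk A k t} =
        ((Finset.range (2 ^ (k : ℕ))).filter fun t => ∃ y ∈ S, n - y ∈ blk A k t).card := by
      rw [← Set.ncard_coe_finset]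
      congr 1
      ext t
      simp only [Set.mem_ofPred_eq, Finset.coe_filter, Finset.mem_range]
    rw [hG] at hc
    set g := ((Finset.range (2 ^ (k : ℕ))).filter fun t => ∃ y ∈ S, n - y ∈ blk A k t).card
      with hg
    have h3 : 2 ^ (k : ℕ) ≤ q * a.card ^ 2 := by
      rw [hacard]
      exact hA k h1.1 (by omega)
    have h5 : 2 ^ (k : ℕ) ≤ 2 ^ l' := Nat.pow_le_pow_right (by norm_num) h1.2.1
    have hqD : 1 ≤ q * D := Nat.mul_pos hq hD
    have h6 : (2 ^ (k : ℕ)) ^ 2 ≤ (4 * K * q * D * g) ^ 2 := by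
      calc (2 ^ (k : ℕ)) ^ 2 = 2 ^ (k : ℕ) * 2 ^ (k : ℕ) := sq _
        _ ≤ 2 ^ (k : ℕ) * 2 ^ l' := Nat.mul_le_mul_left _ h5
        _ ≤ (q * a.card ^ 2) * (D * S.card ^ 2) := Nat.mul_le_mul h3 h2
        _ = (q * D) * (a.card * S.card) ^ 2 := by ring
        _ ≤ (q * D) * (2 * (2 * K) * g) ^ 2 :=
            Nat.mul_le_mul_left _ (Nat.pow_le_pow_left hc 2)
        _ = 1 * ((q * D) * (2 * (2 * K) * g) ^ 2) := (one_mul _).symm
        _ ≤ (q * D) * ((q * D) * (2 * (2 * K) * g) ^ 2) := Nat.mul_le_mul_right _ hqD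
        _ = (4 * K * q * D * g) ^ 2 := by ring
    exact (Nat.pow_le_pow_iff_left (by norm_num)).1 h6
  · intro t ht hts
    refine ⟨n, ?_⟩
    have hch : ∀ k ∈ s, ∃ y ∈ B'.filter (fun b => b + 2 ^ k ≤ n ∧ n < b + 2 ^ (k + 1)),
        ∃ hk : k ∈ F, n - y ∈ blk A k (t ⟨k, hk⟩) := by
      intro k hk
      have hkF := (hsF k hk).2.2
      have h1 := hts ⟨k, hkF⟩ (by rw [Finset.mem_subtype]; exact hk)
      obtain ⟨y, hy, hy2⟩ := (Finset.mem_filter.1 h1).2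
      exact ⟨y, hy, hkF, hy2⟩
    choose! y hy1 hkF hy2 using hch
    have hy3 : ∀ k ∈ s, y k ∈ B' ∧ y k + 2 ^ k ≤ n ∧ n < y k + 2 ^ (k + 1) := by
      intro k hk
      have := Finset.mem_filter.1 (hy1 k hk)
      exact ⟨this.1, this.2⟩
    let e : Fin K ≃ s := (Fintype.equivFinOfCardEq (by rw [Fintype.card_coe, hsK])).symm
    refine le_rep (fun i => n - y (e i)) (fun i => y (e i)) ?_ ?_ ?_ ?_
    · intro i
      have h1 := hsF _ (e i).2
      exact ⟨⟨(e i : ℕ), hkF _ (e i).2⟩, h1.1, by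
        show (e i : ℕ) ≤ l' + 1
        omega, hy2 _ (e i).2⟩
    · intro i
      refine ⟨lF, by omega, by omega, ?_⟩
      rw [ht, hlF, ← hBc]
      exact hB'B (hy3 _ (e i).2).1
    · intro i
      have h1 := (hy3 _ (e i).2).2
      show n - y (e i) + y (e i) = n
      omega
    · intro i j hij
      have hij' : n - y (e i) = n - y (e j) := hij
      have h1 := (hy3 _ (e i).2).2
      have h2 := (hy3 _ (e j).2).2
      have h3 : (e i : ℕ) = (e j : ℕ) := by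
        rcases lt_trichotomy (e i : ℕ) (e j : ℕ) with h | h | h
        · exfalso
          have h4 : 2 ^ ((e i : ℕ) + 1) ≤ 2 ^ (e j : ℕ) :=
            Nat.pow_le_pow_right (by norm_num) h
          omega
        · exact h
        · exfalso
          have h4 : 2 ^ ((e j : ℕ) + 1) ≤ 2 ^ (e i : ℕ) :=
            Nat.pow_le_pow_right (by norm_num) h
          omega
      exact e.injective (Subtype.ext h3)

/-- ONE. Let `M'`, `D` come from `scales K (2 q) (2 K)`, `M = M' + 1`,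
`p = (1 / (4 K q D))^K ≤ 1`. If some block `A ∩ [2^k, 2^(k+1))`, `l - M ≤ k ≤ l`, has
`rep ≥ 2 K` somewhere, all rotations are good (`blk_rep`). Otherwise, for each `τ < 2^l` there are a
set `s τ` of at most `K` scales in `[l - M, l - 1]` and sets `G τ k ⊆ {0, ..., 2^k - 1}` (`k ∈ s τ`)
with `4 K q D #(G τ k) ≥ 2^k`, such that `t l = τ` and `t k ∈ G τ k` for `k ∈ s τ` give `K`
representations of some `n`. (If `blk A l τ` itself has `rep ≥ K` somewhere take `s τ = ∅`.) Proof: `B = blk A l τ` has `2^l ≤ q #B²` elements (`blk_ncard`); one of its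
halves `B' ⊆ [X, X + 2^(l-1))` satisfies `2^(l-1) ≤ 2 q #B'²`; `hold` gives the last hypothesis of
`scales`; `n`, `s`; `S = B'.filter (b + 2^k ≤ n ∧ n < b + 2^(k+1))`, `2^(l-1) ≤ D #S²`; `G τ k` =
the set of `cyc` (with `2 K`): `#a #S ≤ 4 K #G`, and `(#a #S)² q D ≥ 2^k 2^(l-1) ≥ 4^k`. The
representations are `n = (n - y) + y`, `y ∈ S_k`, and `n - y ∈ [2^k, 2^(k+1))` shows that they are
different (`le_rep`). Finally `pr_sum_le` over `τ` and `pr_prod`: the events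
`{t l = τ ∧ ∀ k ∈ s τ, t k ∈ G τ k}` have probability `≥ p / 2^l` each and are disjoint. -/
theorem one (K q : ℕ) (hK : 0 < K) (hq : 0 < q) : ∃ (M : ℕ) (p : ℝ), 0 < p ∧ p ≤ 1 ∧
    ∀ (F : Finset ℕ) (l : ℕ) (A : Set ℕ), M ≤ l → (∀ k, l ≤ k + M → k ≤ l → k ∈ F) →
      (∀ k, l ≤ k + M → k ≤ l →
        2 ^ k ≤ q * (A ∩ Set.Ico (2 ^ k) (2 ^ (k + 1))).ncard ^ 2) →
      p ≤ pr (fun k : F => 2 ^ (k : ℕ)) (fun t => ∃ n, K ≤
        rep {b | ∃ k : F, l ≤ (k : ℕ) + M ∧ (k : ℕ) ≤ l ∧ b ∈ blk A k (t k)} n) := by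
  classical
  obtain ⟨M', D, hD, hsc⟩ := scales K (2 * q) (2 * K)
  have hc1 : 1 ≤ 4 * K * q * D := by
    have : 0 < 4 * K * q * D := by positivity
    exact this
  have hc1R : (1 : ℝ) ≤ ((4 * K * q * D : ℕ) : ℝ) := by exact_mod_cast hc1
  have hc0R : (0 : ℝ) < ((4 * K * q * D : ℕ) : ℝ) := by linarith
  have hle1 : 1 / ((4 * K * q * D : ℕ) : ℝ) ≤ 1 := by
    rw [div_le_one hc0R]
    exact hc1R
  have hge0 : 0 < 1 / ((4 * K * q * D : ℕ) : ℝ) := by positivity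
  refine ⟨M' + 1, (1 / ((4 * K * q * D : ℕ) : ℝ)) ^ K, pow_pos hge0 K,
    pow_le_one₀ hge0.le hle1, fun F l A hl hF hA => ?_⟩
  obtain ⟨l', rfl⟩ : ∃ l', l = l' + 1 := ⟨l - 1, by omega⟩
  have hL : ∀ a : F, 0 < (fun k : F => 2 ^ (k : ℕ)) a := fun a => by
    show 0 < 2 ^ (a : ℕ)
    positivity
  by_cases hbig : ∃ k, l' + 1 ≤ k + (M' + 1) ∧ k ≤ l' + 1 ∧
      ∃ m, 2 * K ≤ rep (A ∩ Set.Ico (2 ^ k) (2 ^ (k + 1))) m
  · obtain ⟨k, hk1, hk2, m, hm⟩ := hbig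
    calc (1 / ((4 * K * q * D : ℕ) : ℝ)) ^ K ≤ 1 := pow_le_one₀ hge0.le hle1
      _ = pr (fun k : F => 2 ^ (k : ℕ)) (fun _ => True) := (pr_true hL).symm
      _ ≤ _ := by
        refine pr_mono fun t _ _ => ?_
        obtain ⟨n, hn⟩ := blk_rep A k (t ⟨k, hF k hk1 hk2⟩) K m hm
        refine ⟨n, hn.trans (rep_mono ?_ n)⟩
        intro b hb
        exact ⟨⟨k, hF k hk1 hk2⟩, hk1, hk2, hb⟩
  · push Not at hbig
    obtain ⟨lF, hlF⟩ : ∃ lF : F, (lF : ℕ) = l' + 1 :=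
      ⟨⟨l' + 1, hF _ (by omega) le_rfl⟩, rfl⟩
    have hkey := fun τ : ℕ => one_key K q D M' l' hq hD hsc F A (by omega) hF hA hbig
      lF hlF τ
    choose s G hs1 hs2 hs3 hs4 hs5 using hkey
    have hE : ∀ τ ∈ Finset.range (2 ^ (l' + 1)),
        (1 / ((4 * K * q * D : ℕ) : ℝ)) ^ K / (2 : ℝ) ^ (l' + 1) ≤
          pr (fun k : F => 2 ^ (k : ℕ)) (fun t => t lF = τ ∧ ∀ k ∈ s τ, t k ∈ G τ k) := by
      intro τ hτ
      have hpp := pr_prod (L := fun k : F => 2 ^ (k : ℕ)) hL (insert lF (s τ))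
        (fun a => if a = lF then {τ} else G τ a)
        (by
          intro a ha x hx
          show x < 2 ^ (a : ℕ)
          rcases Finset.mem_insert.1 ha with h | h
          · rw [if_pos h, Finset.mem_singleton] at hx
            rw [hx, h]
            rw [hlF]
            exact Finset.mem_range.1 hτ
          · have hne : a ≠ lF := fun h' => hs1 τ (h' ▸ h)
            rw [if_neg hne] at hx
            exact hs3 τ a h x hx)
      have hmono : pr (fun k : F => 2 ^ (k : ℕ)) (fun v => ∀ a ∈ insert lF (s τ),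
          v a ∈ (if a = lF then {τ} else G τ a : Finset ℕ)) ≤
          pr (fun k : F => 2 ^ (k : ℕ)) (fun t => t lF = τ ∧ ∀ k ∈ s τ, t k ∈ G τ k) := by
        refine pr_mono fun t _ h => ?_
        constructor
        · have h1 := h lF (Finset.mem_insert_self _ _)
          rwa [if_pos rfl, Finset.mem_singleton] at h1
        · intro k hk
          have hne : k ≠ lF := fun h' => hs1 τ (h' ▸ hk)
          have h1 := h k (Finset.mem_insert_of_mem hk)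
          rwa [if_neg hne] at h1
      refine le_trans ?_ hmono
      rw [hpp, Finset.prod_insert (hs1 τ)]
      have h1 : (((if lF = lF then {τ} else G τ lF : Finset ℕ)).card : ℝ) /
          ((2 ^ (lF : ℕ) : ℕ) : ℝ) = 1 / (2 : ℝ) ^ (l' + 1) := by
        rw [if_pos rfl, Finset.card_singleton, hlF]
        push_cast
        rfl
      rw [h1]
      have h2 : (1 / ((4 * K * q * D : ℕ) : ℝ)) ^ K ≤ ∏ a ∈ s τ,
          (((if a = lF then {τ} else G τ a : Finset ℕ)).card : ℝ) /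
            ((2 ^ (a : ℕ) : ℕ) : ℝ) := by
        calc (1 / ((4 * K * q * D : ℕ) : ℝ)) ^ K
            ≤ (1 / ((4 * K * q * D : ℕ) : ℝ)) ^ (s τ).card :=
              pow_le_pow_of_le_one hge0.le hle1 (hs2 τ)
          _ = ∏ _a ∈ s τ, (1 / ((4 * K * q * D : ℕ) : ℝ)) := by rw [Finset.prod_const]
          _ ≤ _ := by
            refine Finset.prod_le_prod (fun _ _ => hge0.le) ?_
            intro a ha
            have hne : a ≠ lF := fun h' => hs1 τ (h' ▸ ha)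
            rw [if_neg hne]
            have h3 := hs4 τ a ha
            have h4 : ((2 ^ (a : ℕ) : ℕ) : ℝ) ≤
                ((4 * K * q * D : ℕ) : ℝ) * ((G τ a).card : ℝ) := by exact_mod_cast h3
            have h5 : (0 : ℝ) < ((2 ^ (a : ℕ) : ℕ) : ℝ) := by positivity
            rw [div_le_div_iff₀ hc0R h5]
            linarith
      calc (1 / ((4 * K * q * D : ℕ) : ℝ)) ^ K / (2 : ℝ) ^ (l' + 1)
          = 1 / (2 : ℝ) ^ (l' + 1) * (1 / ((4 * K * q * D : ℕ) : ℝ)) ^ K := by ring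
        _ ≤ _ := mul_le_mul_of_nonneg_left h2 (by positivity)
    have hsum := pr_sum_le (L := fun k : F => 2 ^ (k : ℕ))
      (Q := fun t => ∃ n, K ≤
        rep {b | ∃ k : F, l' + 1 ≤ (k : ℕ) + (M' + 1) ∧ (k : ℕ) ≤ l' + 1 ∧
          b ∈ blk A k (t k)} n)
      (Finset.range (2 ^ (l' + 1)))
      (fun τ t => t lF = τ ∧ ∀ k ∈ s τ, t k ∈ G τ k)
      (fun τ _ t _ h => hs5 τ t h.1 h.2)
      (fun τ _ τ' _ t h h' => h.1.symm.trans h'.1)
    calc (1 / ((4 * K * q * D : ℕ) : ℝ)) ^ K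
        = ∑ _τ ∈ Finset.range (2 ^ (l' + 1)),
            (1 / ((4 * K * q * D : ℕ) : ℝ)) ^ K / (2 : ℝ) ^ (l' + 1) := by
          rw [Finset.sum_const, Finset.card_range, nsmul_eq_mul]
          have : (2 : ℝ) ^ (l' + 1) ≠ 0 := by positivity
          push_cast
          rw [mul_div_cancel₀ _ this]
      _ ≤ _ := Finset.sum_le_sum hE
      _ ≤ _ := hsum

end Pool.Agent.RPert
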