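import Pool.Agent.RPert.Fai
import Pool.Agent.RPert.Prob

/-!
# Random rotation of the dyadic blocks (module ROG)
-/

set_option autoImplicit false

namespace Pool.Agent.RPert

open Finset Filter MeasureTheory ProbabilityTheory

/-- partial sums of the lengths of the ranges -/
private def rotL (T : ℕ → ℕ) : ℕ → ℕ
  | 0 => 0
  | i + 1 => rotL T i + T i

private theorem rotL_mono {T : ℕ → ℕ} : Monotone (rotL T) := by
  refine monotone_nat_of_le_succ fun i => ?_
  show rotL T i ≤ rotL T i + T i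
  omega

private theorem rotL_ge {T : ℕ → ℕ} (hT : ∀ i, 0 < T i) (i : ℕ) : i ≤ rotL T i := by
  induction i with
  | zero => exact le_rfl
  | succ i ih =>
    show i + 1 ≤ rotL T i + T i
    have := hT i
    omega

/-- ROG. For `Q ≥ 1` let `M Q`, `p Q` come from `fail Q Q`, `R Q = ⌈Q / p Q⌉`, so that
`(1 - p)^R ≤ exp (- Q)`; `Λ 1 = 0`, `Λ (Q + 1) = Λ Q + R Q (M Q + 1)` (strictly increasing) and
`g k = Q^(1/4)` for `Λ Q ≤ k < Λ (Q + 1)`. If `c 2^(k/2) / g k ≤ #(A ∩ block k)` for large `k`,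
then for `Q ≥ c^(-4)` large, all blocks `k` in `[Λ Q, Λ (Q + 1))` satisfy `2^k ≤ Q #²`. By `fail` and
`Unif.prob`, the probability that `rep < Q` everywhere is at most `exp (- Q)`; so for every `K` the
probability that `rep < K` everywhere is `0`. -/
theorem rotation : ∃ g : ℕ → ℝ, Tendsto g atTop atTop ∧ ∀ A : Set ℕ,
    (∃ c : ℝ, 0 < c ∧ ∀ᶠ k : ℕ in atTop, c * Real.sqrt (2 ^ k) / g k ≤
      ((A ∩ Set.Ico (2 ^ k) (2 ^ (k + 1))).ncard : ℝ)) →
    ∀ (Ω : Type) [MeasurableSpace Ω] (P : Measure Ω) [IsProbabilityMeasure P] (t : ℕ → Ω → ℕ),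
      Unif P (fun k => 2 ^ k) t →
        ∀ᵐ ω ∂P, ∀ K : ℕ, ∃ n, K ≤ rep {b | ∃ k, b ∈ blk A k (t k ω)} n := by
  classical
  have hfail := fun i : ℕ => fail (i + 1) (i + 1) (Nat.succ_pos i) (Nat.succ_pos i)
  choose M p hp0 hp1 hf using hfail
  set R : ℕ → ℕ := fun i => ⌈((i : ℝ) + 1) / p i⌉₊ with hR
  have hR0 : ∀ i, 0 < R i := fun i => Nat.ceil_pos.2 (div_pos (by positivity) (hp0 i))
  have hRexp : ∀ i, (1 - p i) ^ R i ≤ Real.exp (-((i : ℝ) + 1)) := by
    intro i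
    have h1 : (i : ℝ) + 1 ≤ p i * R i := by
      have := Nat.le_ceil (((i : ℝ) + 1) / p i)
      rw [div_le_iff₀ (hp0 i)] at this
      calc (i : ℝ) + 1 ≤ (R i : ℝ) * p i := this
        _ = p i * R i := mul_comm _ _
    have h2 : 1 - p i ≤ Real.exp (-(p i)) := by
      have := Real.add_one_le_exp (-(p i))
      linarith
    calc (1 - p i) ^ R i ≤ (Real.exp (-(p i))) ^ R i :=
          pow_le_pow_left₀ (sub_nonneg.2 (hp1 i)) h2 _
      _ = Real.exp (-(p i * R i)) := by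
          rw [← Real.exp_nat_mul]
          congr 1
          ring
      _ ≤ Real.exp (-((i : ℝ) + 1)) := Real.exp_le_exp.2 (by linarith)
  set T : ℕ → ℕ := fun i => R i * (M i + 1) with hT
  have hT0 : ∀ i, 0 < T i := fun i => Nat.mul_pos (hR0 i) (Nat.succ_pos _)
  set Λ : ℕ → ℕ := rotL T with hΛ
  have hΛs : ∀ i, Λ (i + 1) = Λ i + R i * (M i + 1) := fun i => rfl
  set idx : ℕ → ℕ := fun k => Nat.findGreatest (fun i => Λ i ≤ k) k with hidx
  have hidx1 : ∀ i k, Λ i ≤ k → i ≤ idx k := fun i k h =>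
    Nat.le_findGreatest ((rotL_ge hT0 i).trans h) h
  have hidx2 : ∀ k, Λ (idx k) ≤ k := fun k =>
    Nat.findGreatest_spec (P := fun i => Λ i ≤ k) (Nat.zero_le k)
      (show rotL T 0 ≤ k from Nat.zero_le k)
  have hidx3 : ∀ i k, k < Λ (i + 1) → idx k ≤ i := by
    intro i k hk
    by_contra h
    push Not at h
    have h1 : Λ (i + 1) ≤ Λ (idx k) := rotL_mono h
    have := hidx2 k
    omega
  refine ⟨fun k => ((idx k : ℝ) + 1) ^ (1 / 4 : ℝ), ?_, ?_⟩
  · have h1 : Tendsto idx atTop atTop := by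
      rw [tendsto_atTop]
      intro b
      filter_upwards [eventually_ge_atTop (Λ b)] with k hk
      exact hidx1 b k hk
    have h2 : Tendsto (fun k : ℕ => (idx k : ℝ) + 1) atTop atTop :=
      tendsto_atTop_add_const_right _ _ (tendsto_natCast_atTop_atTop.comp h1)
    exact (tendsto_rpow_atTop (by norm_num : (0 : ℝ) < 1 / 4)).comp h2
  · rintro A ⟨c, hc, hcA⟩ Ω _ P _ t ht
    obtain ⟨k₀, hk₀⟩ := eventually_atTop.1 hcA
    rw [ae_all_iff]
    intro K
    rw [ae_iff]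
    have hL : ∀ a : ℕ, 0 < (fun k : ℕ => 2 ^ k) a := fun a => by
      show 0 < 2 ^ a
      positivity
    -- the bound for each large index
    have hmain : ∀ i : ℕ, K ≤ i + 1 → k₀ ≤ Λ i → 1 ≤ c ^ 4 * ((i : ℝ) + 1) →
        P {ω | ¬ ∃ n, K ≤ rep {b | ∃ k, b ∈ blk A k (t k ω)} n} ≤
          ENNReal.ofReal (Real.exp (-((i : ℝ) + 1))) := by
      intro i hi1 hi2 hi3
      have hblocks : ∀ k, Λ i ≤ k → k < Λ i + R i * (M i + 1) →
          2 ^ k ≤ (i + 1) * (A ∩ Set.Ico (2 ^ k) (2 ^ (k + 1))).ncard ^ 2 := by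
        intro k hk1 hk2
        have hik : idx k = i := le_antisymm (hidx3 i k (by rw [hΛs]; exact hk2)) (hidx1 i k hk1)
        have h1 := hk₀ k (hi2.trans hk1)
        simp only [hik] at h1
        set a := (A ∩ Set.Ico (2 ^ k) (2 ^ (k + 1))).ncard with ha
        set y : ℝ := (i : ℝ) + 1 with hy
        have hy0 : 0 < y := by positivity
        have hg0 : 0 < y ^ (1 / 4 : ℝ) := by positivity
        have h2 : c * Real.sqrt (2 ^ k) ≤ (a : ℝ) * y ^ (1 / 4 : ℝ) := by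
          rwa [div_le_iff₀ hg0] at h1
        have h3 : (c * Real.sqrt (2 ^ k)) ^ 4 ≤ ((a : ℝ) * y ^ (1 / 4 : ℝ)) ^ 4 :=
          pow_le_pow_left₀ (by positivity) h2 4
        have h4 : (Real.sqrt (2 ^ k)) ^ 4 = ((2 : ℝ) ^ k) ^ 2 := by
          calc (Real.sqrt (2 ^ k)) ^ 4 = ((Real.sqrt (2 ^ k)) ^ 2) ^ 2 := by ring
            _ = ((2 : ℝ) ^ k) ^ 2 := by rw [Real.sq_sqrt (by positivity)]
        have h5 : (y ^ (1 / 4 : ℝ)) ^ 4 = y := by
          rw [← Real.rpow_natCast, ← Real.rpow_mul hy0.le]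
          norm_num
        have h6 : c ^ 4 * ((2 : ℝ) ^ k) ^ 2 ≤ (a : ℝ) ^ 4 * y := by
          calc c ^ 4 * ((2 : ℝ) ^ k) ^ 2 = (c * Real.sqrt (2 ^ k)) ^ 4 := by
                rw [mul_pow, h4]
            _ ≤ ((a : ℝ) * y ^ (1 / 4 : ℝ)) ^ 4 := h3
            _ = (a : ℝ) ^ 4 * y := by rw [mul_pow, h5]
        have h7 : ((2 : ℝ) ^ k) ^ 2 ≤ (y * (a : ℝ) ^ 2) ^ 2 := by
          calc ((2 : ℝ) ^ k) ^ 2 = 1 * ((2 : ℝ) ^ k) ^ 2 := (one_mul _).symm
            _ ≤ (c ^ 4 * y) * ((2 : ℝ) ^ k) ^ 2 :=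
                mul_le_mul_of_nonneg_right hi3 (by positivity)
            _ = y * (c ^ 4 * ((2 : ℝ) ^ k) ^ 2) := by ring
            _ ≤ y * ((a : ℝ) ^ 4 * y) := mul_le_mul_of_nonneg_left h6 hy0.le
            _ = (y * (a : ℝ) ^ 2) ^ 2 := by ring
        have h8 : (2 : ℝ) ^ k ≤ y * (a : ℝ) ^ 2 :=
          le_of_sq_le_sq h7 (by positivity)
        have h9 : ((2 ^ k : ℕ) : ℝ) ≤ (((i + 1) * a ^ 2 : ℕ) : ℝ) := by
          push_cast
          exact h8
        exact_mod_cast h9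
      have h1 := hf i (Λ i) (R i) A hblocks
      have h2 := ht.prob hL (Finset.Ico (Λ i) (Λ i + R i * (M i + 1)))
        (fun s => ∀ n, rep {b | ∃ k : Finset.Ico (Λ i) (Λ i + R i * (M i + 1)),
          b ∈ blk A k (s k)} n < i + 1)
      calc P {ω | ¬ ∃ n, K ≤ rep {b | ∃ k, b ∈ blk A k (t k ω)} n}
          ≤ P {ω | ∀ n, rep {b | ∃ k : Finset.Ico (Λ i) (Λ i + R i * (M i + 1)),
              b ∈ blk A k (t k ω)} n < i + 1} := by
            refine measure_mono ?_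
            intro ω hω n
            have hω' : ¬ ∃ n, K ≤ rep {b | ∃ k, b ∈ blk A k (t k ω)} n := hω
            push Not at hω'
            have h3 := hω' n
            have h4 : rep {b | ∃ k : Finset.Ico (Λ i) (Λ i + R i * (M i + 1)),
                b ∈ blk A k (t k ω)} n ≤ rep {b | ∃ k, b ∈ blk A k (t k ω)} n := by
              refine rep_mono ?_ n
              rintro b ⟨k, hb⟩
              exact ⟨(k : ℕ), hb⟩
            omega
        _ = ENNReal.ofReal (pr (fun a : Finset.Ico (Λ i) (Λ i + R i * (M i + 1)) =>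
              2 ^ (a : ℕ)) (fun s => ∀ n, rep {b |
                ∃ k : Finset.Ico (Λ i) (Λ i + R i * (M i + 1)),
                  b ∈ blk A k (s k)} n < i + 1)) := h2
        _ ≤ ENNReal.ofReal (Real.exp (-((i : ℝ) + 1))) :=
            ENNReal.ofReal_le_ofReal (h1.trans (hRexp i))
    -- the limit
    have hlim : Tendsto (fun i : ℕ => ENNReal.ofReal (Real.exp (-((i : ℝ) + 1)))) atTop
        (nhds 0) := by
      have h1 : Tendsto (fun i : ℕ => Real.exp (-((i : ℝ) + 1))) atTop (nhds 0) := by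
        have h2 : Tendsto (fun i : ℕ => (i : ℝ) + 1) atTop atTop :=
          tendsto_atTop_add_const_right _ _ tendsto_natCast_atTop_atTop
        exact Real.tendsto_exp_neg_atTop_nhds_zero.comp h2
      have h3 := ENNReal.tendsto_ofReal h1
      rwa [ENNReal.ofReal_zero] at h3
    refine le_antisymm (ge_of_tendsto hlim ?_) bot_le
    have hc4 : 0 < c ^ 4 := by positivity
    obtain ⟨i₀, hi₀⟩ := exists_nat_gt (1 / c ^ 4)
    filter_upwards [eventually_ge_atTop K, eventually_ge_atTop k₀, eventually_ge_atTop i₀]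
      with i h1 h2 h3
    refine hmain i (by omega) (h2.trans (rotL_ge hT0 i)) ?_
    have h4 : (i₀ : ℝ) ≤ (i : ℝ) := by exact_mod_cast h3
    have h5 : 1 / c ^ 4 ≤ (i : ℝ) + 1 := by linarith
    rw [div_le_iff₀ hc4] at h5
    linarith

end Pool.Agent.RPert
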